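import Mathlib
import Pool.Agent.MP_6b3410_lc.H5.Spread
import Pool.Agent.MP_6b3410_lc.H19.Proj

/-!
Definitions and module statements for the monotone lower bound with nearly linear exponent.
-/

open Finset

namespace Pool.Agent.MP_6b3410_lc.H91

open Classical Pool.Agent.MP_6b3410_lc.H5

/-! ### parameters -/

def s0 (s1 : ℕ) : ℕ := 2 * s1 + 1
def sz (s1 : ℕ) : ℕ := 67 * s0 s1
def kk (s1 : ℕ) : ℕ := 12 * sz s1 + 1
def cap (s1 : ℕ) : ℕ := 13 * sz s1 + 1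
/-- spreadness of the sampled families -/
def sig (L : ℕ) : ℕ := 20 * (4096 * L ^ 2) ^ 24
/-- cost of one avoided variable -/
def gam (L : ℕ) : ℕ := sig L ^ 3

/-! ### protocols of bounded Kraft cost -/

/-- `Solv H H' θ X Y`: the rectangle `X × Y` is solved by a protocol of cost at most `log (1/θ)` -/
inductive Solv {ι T : Type} (H H' : ι → T → Prop) : ℝ → Finset T → Finset T → Prop
  | emptyL (θ : ℝ) (Y : Finset T) : Solv H H' θ ∅ Y
  | emptyR (θ : ℝ) (X : Finset T) : Solv H H' θ X ∅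
  | hit (θ : ℝ) (X Y : Finset T) (i : ι) (hθ : θ ≤ 1) (hX : ∀ x ∈ X, H i x)
      (hY : ∀ y ∈ Y, H' i y) : Solv H H' θ X Y
  | splitL (θ : ℝ) (X Y : Finset T) (κ : Type) (F : Finset κ) (Z : κ → Finset T) (w : κ → ℝ)
      (hw : ∀ k ∈ F, 0 < w k) (hs : ∑ k ∈ F, w k ≤ 1 / 2) (hc : ∀ x ∈ X, ∃ k ∈ F, x ∈ Z k)
      (h : ∀ k ∈ F, Solv H H' (θ / w k) (Z k) Y) : Solv H H' θ X Y
  | splitR (θ : ℝ) (X Y : Finset T) (κ : Type) (F : Finset κ) (Z : κ → Finset T) (w : κ → ℝ)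
      (hw : ∀ k ∈ F, 0 < w k) (hs : ∑ k ∈ F, w k ≤ 1 / 2) (hc : ∀ y ∈ Y, ∃ k ∈ F, y ∈ Z k)
      (h : ∀ k ∈ F, Solv H H' (θ / w k) X (Z k)) : Solv H H' θ X Y

/-! ### players, contexts, density -/

section defs

variable {ι U A : Type} [Fintype ι] [DecidableEq ι] [Fintype U] [DecidableEq U] [Fintype A]
  [DecidableEq A]

/-- `x` agrees with `c` on `J` -/
def Agree (J : Finset U) (c x : U → A) : Prop := ∀ u ∈ J, x u = c u

/-- the points of `X` that agree with `c` on `J` -/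
noncomputable def cyl (X : Finset (U → A)) (J : Finset U) (c : U → A) : Finset (U → A) :=
  X.filter fun x => Agree J c x

/-- `x` hits the variable `i` of the pattern `a` -/
def Hit (N : ι → Finset U) (a : ι → U → A) (i : ι) (x : U → A) : Prop := Agree (N i) (a i) x

/-- the variables hit by `x` -/
noncomputable def hits (N : ι → Finset U) (a : ι → U → A) (x : U → A) : Finset ι :=
  univ.filter fun i => Hit N a i x

/-- the variables all of whose blocks lie in `I` -/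
def inn (N : ι → Finset U) (I : Finset U) : Finset ι := univ.filter fun i => N i ⊆ I

/-- the kernel of the context `(I, α)` -/
noncomputable def ker (N : ι → Finset U) (a : ι → U → A) (I : Finset U) (α : U → A) : Finset ι :=
  inn N I ∩ hits N a α

def Ctx (X : Finset (U → A)) (I : Finset U) (α : U → A) : Prop := ∀ x ∈ X, Agree I α x

def Dense (r : ℝ) (X : Finset (U → A)) (I : Finset U) : Prop :=
  ∀ (J : Finset U) (c : U → A), Disjoint J I → ((cyl X J c).card : ℝ) * r ^ J.card ≤ X.card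

def Closed (N : ι → Finset U) (K : ℕ) (I : Finset U) : Prop :=
  ∀ C : Finset ι, Disjoint C (inn N I) → C.card ≤ K → C.card ≤ (C.biUnion N \ I).card

def Avoid (N : ι → Finset U) (a : ι → U → A) (X : Finset (U → A)) (S : Finset ι) : Prop :=
  ∀ x ∈ X, Disjoint (hits N a x) S

/-- exponent of the extraction potential -/
def phi (N : ι → Finset U) (s1 k : ℕ) (I : Finset U) : ℕ :=
  k * I.card + 10 * min (inn N I).card (cap s1)

/-- one side of a structured rectangle -/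
structure Side (N : ι → Finset U) (s1 : ℕ) (r : ℝ) (s : ℕ) (X : Finset (U → A)) (I : Finset U)
    (α : U → A) : Prop where
  ne : X.Nonempty
  ctx : Ctx X I α
  dense : Dense r X I
  closed : Closed N (kk s1) I
  small : I.card ≤ s

/-- free rectangles -/
def Free (N : ι → Finset U) (t : ℝ) (s1 : ℕ) (a b : ι → U → A) (X Y : Finset (U → A)) : Prop :=
  ∃ (I J : Finset U) (α β : U → A), Side N s1 (t ^ 3) (s0 s1) X I α ∧
    Side N s1 (t ^ 3) (s0 s1) Y J β ∧ Avoid N a X (ker N b J β) ∧ Avoid N b Y (ker N a I α)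

/-- variables whose free term lies in the box `W` -/
noncomputable def terms (N : ι → Finset U) (a : ι → U → A) (I : Finset U) (α : U → A)
    (W : Finset (U × A)) : Finset ι :=
  univ.filter fun i => ¬ N i ⊆ I ∧ (∀ u ∈ N i, u ∈ I → α u = a i u) ∧
    ∀ u ∈ N i, u ∉ I → (u, a i u) ∈ W

/-- likely families -/
def Likely (N : ι → Finset U) (t : ℝ) (L : ℕ) (a : ι → U → A) (I : Finset U) (α : U → A)
    (G : Finset ι → Prop) : Prop :=
  (∀ B B', B' ⊆ B → G B → G B') ∧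
    pr (mu (4096 * L / t)) (fun W : Finset (U × A) => ¬ G (terms N a I α W)) ≤ 1 / 8

/-- dangerous sets -/
def Dang (N : ι → Finset U) (t : ℝ) (L s1 : ℕ) (a : ι → U → A) (X : Finset (U → A))
    (I : Finset U) (α : U → A) (S : Finset ι) : Prop :=
  S.card ≤ sz s1 ∧ Disjoint S (ker N a I α) ∧ ∃ G, Likely N t L a I α G ∧
    ((X.filter fun x => Disjoint (hits N a x) S ∧ G (hits N a x \ inn N I)).card : ℝ) *
      (4 * (gam L : ℝ) ^ S.card) < X.card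

/-- the standing hypotheses -/
structure Ok (A : Type) [Fintype A] (N : ι → Finset U) (t : ℝ) (L s1 : ℕ) : Prop where
  card_A : (Fintype.card A : ℝ) = t ^ 10
  deg : ∀ i, (N i).card ≤ 12
  expd : ∀ C : Finset ι, C.card ≤ cap s1 → 10 * C.card ≤ (C.biUnion N).card
  L_pos : 1 ≤ L
  L_big : (2 / 3 : ℝ) ^ L * L * Fintype.card U ≤ 1 / 8
  s_le : sz s1 ≤ Fintype.card U
  s_lt : sz s1 < 2 ^ L
  t_ge : (4 * (gam L : ℝ)) ^ 2 ≤ t
  n_le : 256 * (Fintype.card ι : ℝ) ≤ t ^ s1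
  n_pos : 1 ≤ Fintype.card ι

end defs

/-! ### module statements -/

/-- R1a: extraction -/
def ExtractStmt : Prop :=
  ∀ (ι U A : Type) [Fintype ι] [DecidableEq ι] [Fintype U] [DecidableEq U] [Fintype A]
    [DecidableEq A] (N : ι → Finset U) (t : ℝ) (L s1 : ℕ), Ok A N t L s1 →
    ∀ (k : ℕ) (R : Finset (U → A)) (I : Finset U) (α : U → A), R.Nonempty → Ctx R I α →
    ∃ (I' : Finset U) (α' : U → A), I ⊆ I' ∧ (cyl R I' α').Nonempty ∧
      Dense (t ^ k) (cyl R I' α') I' ∧ (I'.card ≤ sz s1 → Closed N (kk s1) I') ∧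
      (R.card : ℝ) * t ^ phi N s1 k I ≤ ((cyl R I' α').card : ℝ) * t ^ phi N s1 k I'

/-- R1b: partition into dense pieces with Kraft weights -/
def PartStmt : Prop :=
  ∀ (ι U A : Type) [Fintype ι] [DecidableEq ι] [Fintype U] [DecidableEq U] [Fintype A]
    [DecidableEq A] (N : ι → Finset U) (t : ℝ) (L s1 : ℕ), Ok A N t L s1 →
    ∀ (R : Finset (U → A)) (I : Finset U) (α : U → A), Ctx R I α →
    ∃ F : Finset (Finset (U → A) × Finset U × (U → A)),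
      (∀ e ∈ F, e.1 ⊆ R ∧ e.1.Nonempty ∧ I ⊆ e.2.1 ∧ Ctx e.1 e.2.1 e.2.2 ∧
        Dense (t ^ 3) e.1 e.2.1 ∧ (e.2.1.card ≤ sz s1 → Closed N (kk s1) e.2.1)) ∧
      (∀ x ∈ R, ∃ e ∈ F, x ∈ e.1) ∧
      ∑ e ∈ F, 1 / 20 * (t ^ phi N s1 3 I / t ^ phi N s1 3 e.2.1) *
        (e.1.card : ℝ) ^ (1 / 20 : ℝ) ≤ (R.card : ℝ) ^ (1 / 20 : ℝ)

/-- R2: product measures -/
def MeasStmt : Prop :=
  ∀ (Ω : Type) [Fintype Ω] [DecidableEq Ω],
    (∀ (q : ℝ) (j : ℕ) (E : Finset Ω → Prop), pr (nu q j) E = pr (mu (1 - (1 - q) ^ j)) E) ∧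
    (∀ (p q : ℝ) (E : Finset Ω → Prop),
      ∑ W : Finset Ω, mu p W * pr (mu q) (fun V => E (W \ V)) = pr (mu (p * (1 - q))) E) ∧
    (∀ (p : ℝ) (B : Finset Ω), pr (mu p) (fun W => B ⊆ W) = p ^ B.card) ∧
    ∀ (p r : ℝ) (L l : ℕ) (κ : Type) (F : Finset κ) (S : κ → Finset Ω), 0 < p → p ≤ 1 → 1 ≤ L →
      1024 * L ≤ p * r → F.Nonempty → Spread F S r → (∀ k ∈ F, (S k).card ≤ l) →
      pr (mu p) (fun W => ¬ ∃ k ∈ F, S k ⊆ W) ≤ (2 / 3) ^ L * l

/-- R3: the hitting lemma -/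
def HitStmt : Prop :=
  ∀ (Ω ι κ : Type) [Fintype Ω] [DecidableEq Ω] [Fintype ι] [DecidableEq ι] (E : ι → Finset Ω)
    (Cand : Finset ι) (L s : ℕ), 1 ≤ L → s < 2 ^ L → (∀ i, (E i).card ≤ 12) →
    (∀ C ⊆ Cand, C.card ≤ 12 * s + 1 → C.card ≤ (C.biUnion E).card) →
    ∀ (F : Finset κ) (S : κ → Finset ι), F.Nonempty → (∀ k ∈ F, S k ⊆ Cand ∧ (S k).card ≤ s) →
      Spread F S ((sig L : ℝ) / 2) →
      pr (nu (1 / (2 * L)) L) (fun V => ¬ ∃ k ∈ F, ∀ i ∈ S k, (E i ∩ V).Nonempty) ≤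
        L * ((2 / 3) ^ L * s)

/-- R4: subsampling of a spread measure -/
def SubStmt : Prop :=
  ∀ (Ω ι : Type) [Fintype Ω] [Fintype ι] [DecidableEq ι] (ν : Ω → ℝ) (T : Ω → Finset ι)
    (σ j : ℕ), 64 ≤ σ → 1 ≤ j → (∀ w, 0 ≤ ν w) → ∑ w, ν w = 1 →
    (∀ w, ν w ≠ 0 → (T w).card ≤ 2 * j) →
    (∀ C : Finset ι, (∑ w, if C ⊆ T w then ν w else 0) * (4 * (σ : ℝ)) ^ C.card ≤ 1) →
    ∃ g : Fin ((σ ^ 3) ^ j) → Ω, (∀ k, ν (g k) ≠ 0) ∧ Spread univ (fun k => T (g k)) (σ : ℝ)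

/-- R5a: there is no spread sample of dangerous sets -/
def CoreStmt : Prop :=
  ∀ (ι U A : Type) [Fintype ι] [DecidableEq ι] [Fintype U] [DecidableEq U] [Fintype A]
    [DecidableEq A] (N : ι → Finset U) (t : ℝ) (L s1 : ℕ), Ok A N t L s1 →
    ∀ (a : ι → U → A) (X : Finset (U → A)) (I : Finset U) (α : U → A),
      Side N s1 t (sz s1) X I α →
    ∀ (j : ℕ) (g : Fin (gam L ^ j) → Finset ι),
      (∀ k, Dang N t L s1 a X I α (g k) ∧ j ≤ (g k).card) → ¬ Spread univ g (sig L : ℝ)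

/-- R5b: the danger lemma -/
def DangStmt : Prop :=
  ∀ (ι U A : Type) [Fintype ι] [DecidableEq ι] [Fintype U] [DecidableEq U] [Fintype A]
    [DecidableEq A] (N : ι → Finset U) (t : ℝ) (L s1 : ℕ), Ok A N t L s1 →
    ∀ (a : ι → U → A) (X : Finset (U → A)) (I : Finset U) (α : U → A),
      Side N s1 t (sz s1) X I α →
      ¬ Dang N t L s1 a X I α ∅ ∧
      ∀ (b : ι → U → A) (J : Finset U) (β : U → A), Closed N (kk s1) J →
        Likely N t L b J β fun B => ∀ S ⊆ B, ¬ Dang N t L s1 a X I α S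

/-- R6: free rectangles have no cheap protocol -/
def LBStmt : Prop :=
  ∀ (ι U A : Type) [Fintype ι] [DecidableEq ι] [Fintype U] [DecidableEq U] [Fintype A]
    [DecidableEq A] (N : ι → Finset U) (t : ℝ) (L s1 : ℕ), Ok A N t L s1 →
    ∀ (a b : ι → U → A) (X Y : Finset (U → A)) (θ : ℝ), Free N t s1 a b X Y →
      1 ≤ θ * t ^ (10 * s0 s1) → ¬ Solv (Hit N a) (Hit N b) θ X Y

/-- R7: compression of rectangles without free subrectangles -/
def CompStmt : Prop :=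
  ∀ (ι U A : Type) [Fintype ι] [DecidableEq ι] [Fintype U] [DecidableEq U] [Fintype A]
    [DecidableEq A] (N : ι → Finset U) (t : ℝ) (L s1 : ℕ), Ok A N t L s1 →
    ∀ (a b : ι → U → A) (X Y : Finset (U → A)),
      (∀ X' ⊆ X, ∀ Y' ⊆ Y, ¬ Free N t s1 a b X' Y') →
      ∃ Er Ec : Finset (U → A), (Er.card : ℝ) * t ^ s1 ≤ Fintype.card (U → A) ∧
        (Ec.card : ℝ) * t ^ s1 ≤ Fintype.card (U → A) ∧
        Solv (Hit N a) (Hit N b) (16 / t ^ (10 * s0 s1)) (X \ Er) (Y \ Ec)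

/-- R8: the circuit lower bound for the abstract function -/
def CircStmt : Prop :=
  ∀ (ι U A : Type) [Fintype ι] [DecidableEq ι] [Fintype U] [DecidableEq U] [Fintype A]
    [DecidableEq A] (N : ι → Finset U) (t : ℝ) (L s1 : ℕ), Ok A N t L s1 →
    ∀ (a b : ι → U → A), (∀ x y, ∃ i, Hit N a i x ∧ Hit N b i y) →
    ∀ (V : Type) (π : V → ι ⊕ Bool) (s : ℕ) (G : Fin s → Bool × Bool → Bool)
      (c d : Fin s → V ⊕ Fin s) (o : Fin s),
      (∀ g j : Fin s, (c g = Sum.inr j → j < g) ∧ (d g = Sum.inr j → j < g)) →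
      (∀ g, Monotone (G g)) →
      (∀ (w : ι → Bool) (val : Fin s → Bool),
        (∀ g, val g = G g (Sum.elim (fun e => Sum.elim w id (π e)) val (c g),
          Sum.elim (fun e => Sum.elim w id (π e)) val (d g))) →
        (val o = true ↔ ∃ x, ∀ i, Hit N a i x → w i = true)) →
      t ^ s1 ≤ 2 * s

/-- R9a: expanding hypergraphs -/
def HyperStmt : Prop :=
  ∀ n v c : ℕ, 1 ≤ v → v ≤ n → 40000000 * n * c ≤ v ^ 2 →
    ∃ N : Fin n → Finset (Fin v), (∀ i, (N i).card ≤ 12) ∧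
      ∀ C : Finset (Fin n), C.card ≤ c → 10 * C.card ≤ (C.biUnion N).card

/-- R9b: two patterns such that every pair of points has a common hit -/
def PatStmt : Prop :=
  ∀ (n v m : ℕ) (N : Fin n → Finset (Fin v)), 1 ≤ m → (∀ i, (N i).card ≤ 12) →
    2 * v * m ^ 25 < n →
    ∃ a b : Fin n → Fin v → Fin m, ∀ x y, ∃ i, Hit N a i x ∧ Hit N b i y

/-- R10: monotone projection to Hamiltonicity -/
def ProjStmt : Prop :=
  ∀ (n v m M : ℕ) (N : Fin n → Finset (Fin v)) (a : Fin n → Fin v → Fin m), 1 ≤ n →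
    (∀ i, (N i).card ≤ 12) → v * m ≤ n → v ≤ n → 300 * n ≤ M →
    ∃ π : H19.Edge M → Fin n ⊕ Bool,
      (univ.filter fun e => ∃ i, π e = Sum.inl i).card ≤ 2 * n ∧
      ∀ w : Fin n → Bool,
        H19.Ham (fun e => Sum.elim w id (π e)) ↔ ∃ x, ∀ i, Hit N a i x → w i = true

/-- R11: choice of the parameters -/
def ParStmt : Prop :=
  ∃ C M₀ : ℕ, ∀ M : ℕ, M₀ ≤ M → ∃ n v t L s1 : ℕ, 1 ≤ v ∧ 1 ≤ t ∧ v ≤ n ∧ v * t ^ 10 ≤ n ∧
    300 * n ≤ M ∧ 2 * v * (t ^ 10) ^ 25 < n ∧ 40000000 * n * cap s1 ≤ v ^ 2 ∧ 1 ≤ L ∧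
    (2 / 3 : ℝ) ^ L * L * v ≤ 1 / 8 ∧ sz s1 ≤ v ∧ sz s1 < 2 ^ L ∧ (4 * gam L) ^ 2 ≤ t ∧
    256 * n ≤ t ^ s1 ∧ 2 * Real.exp (M / Real.log M ^ C) ≤ (t : ℝ) ^ s1

end Pool.Agent.MP_6b3410_lc.H91
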