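import Mathlib
import Pool.Agent.MP_6b3410_lc.H91.Spec

/-!
Elementary facts about protocols, contexts and parameters.
-/

open Finset

namespace Pool.Agent.MP_6b3410_lc.H91

open Classical

section solv

variable {ι T : Type} {H H' : ι → T → Prop}

theorem Solv.swap {θ : ℝ} {X Y : Finset T} (h : Solv H H' θ X Y) : Solv H' H θ Y X := by
  induction h with
  | emptyL θ Y => exact .emptyR θ Y
  | emptyR θ X => exact .emptyL θ X
  | hit θ X Y i hθ hX hY => exact .hit θ Y X i hθ hY hX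
  | splitL θ X Y κ F Z w hw hs hc _ ih => exact .splitR θ Y X κ F Z w hw hs hc ih
  | splitR θ X Y κ F Z w hw hs hc _ ih => exact .splitL θ Y X κ F Z w hw hs hc ih

theorem Solv.mono {θ : ℝ} {X Y : Finset T} (h : Solv H H' θ X Y) {θ' : ℝ} {X' Y' : Finset T}
    (hθ : θ' ≤ θ) (hX : X' ⊆ X) (hY : Y' ⊆ Y) : Solv H H' θ' X' Y' := by
  induction h generalizing θ' X' Y' with
  | emptyL θ Y => rw [subset_empty.1 hX]; exact .emptyL _ _
  | emptyR θ X => rw [subset_empty.1 hY]; exact .emptyR _ _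
  | hit θ X Y i h1 h2 h3 =>
    exact .hit _ _ _ i (hθ.trans h1) (fun x hx => h2 x (hX hx)) fun y hy => h3 y (hY hy)
  | splitL θ X Y κ F Z w hw hs hc _ ih =>
    exact .splitL _ _ _ κ F Z w hw hs (fun x hx => hc x (hX hx)) fun k hk =>
      ih k hk (div_le_div_of_nonneg_right hθ (hw k hk).le) Subset.rfl hY
  | splitR θ X Y κ F Z w hw hs hc _ ih =>
    exact .splitR _ _ _ κ F Z w hw hs (fun y hy => hc y (hY hy)) fun k hk =>
      ih k hk (div_le_div_of_nonneg_right hθ (hw k hk).le) hX Subset.rfl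

lemma weight_le {κ : Type} {F : Finset κ} {w : κ → ℝ} (hw : ∀ k ∈ F, 0 < w k)
    (hs : ∑ k ∈ F, w k ≤ 1 / 2) {k : κ} (hk : k ∈ F) : w k ≤ 1 / 2 :=
  (single_le_sum (fun j hj => (hw j hj).le) hk).trans hs

theorem Solv.le_one {θ : ℝ} {X Y : Finset T} (h : Solv H H' θ X Y) (hX : X.Nonempty)
    (hY : Y.Nonempty) : θ ≤ 1 := by
  induction h with
  | emptyL θ Y => simp at hX
  | emptyR θ X => simp at hY
  | hit θ X Y i h1 _ _ => exact h1
  | splitL θ X Y κ F Z w hw hs hc _ ih =>
    obtain ⟨x, hx⟩ := hX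
    obtain ⟨k, hk, hx⟩ := hc x hx
    have h1 := (div_le_one (hw k hk)).1 (ih k hk ⟨x, hx⟩ hY)
    linarith [weight_le hw hs hk]
  | splitR θ X Y κ F Z w hw hs hc _ ih =>
    obtain ⟨y, hy⟩ := hY
    obtain ⟨k, hk, hy⟩ := hc y hy
    have h1 := (div_le_one (hw k hk)).1 (ih k hk hX ⟨y, hy⟩)
    linarith [weight_le hw hs hk]

/-- a split of the rows into two parts -/
theorem Solv.two {θ : ℝ} {X X₁ X₂ Y : Finset T} (hc : ∀ x ∈ X, x ∈ X₁ ∨ x ∈ X₂)
    (h₁ : Solv H H' (4 * θ) X₁ Y) (h₂ : Solv H H' (4 * θ) X₂ Y) : Solv H H' θ X Y := by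
  refine .splitL θ X Y Bool univ (fun k => if k then X₁ else X₂) (fun _ => 1 / 4)
    (fun _ _ => by norm_num) (by simp; norm_num) (fun x hx => ?_) fun k _ => ?_
  · rcases hc x hx with h | h
    exacts [⟨true, mem_univ _, by simpa using h⟩, ⟨false, mem_univ _, by simpa using h⟩]
  · have : θ / (1 / 4) = 4 * θ := by ring
    rw [this]
    cases k
    exacts [by simpa using h₂, by simpa using h₁]

/-- a heavy message -/
lemma exists_heavy {κ : Type} {F : Finset κ} {Z : κ → Finset T} {w : κ → ℝ}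
    (hw : ∀ k ∈ F, 0 < w k) (hs : ∑ k ∈ F, w k ≤ 1 / 2) {R : Finset T} (hR : R.Nonempty)
    (hc : ∀ x ∈ R, ∃ k ∈ F, x ∈ Z k) :
    ∃ k ∈ F, w k * R.card ≤ ((R.filter fun x => x ∈ Z k).card : ℝ) := by
  by_contra hcon
  push Not at hcon
  have h1 : R ⊆ F.biUnion fun k => R.filter fun x => x ∈ Z k := fun x hx => by
    obtain ⟨k, hk, h⟩ := hc x hx
    exact mem_biUnion.2 ⟨k, hk, mem_filter.2 ⟨hx, h⟩⟩
  have h2 : (R.card : ℝ) ≤ ∑ k ∈ F, ((R.filter fun x => x ∈ Z k).card : ℝ) := by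
    exact_mod_cast (card_le_card h1).trans card_biUnion_le
  have h3 : ∑ k ∈ F, ((R.filter fun x => x ∈ Z k).card : ℝ) ≤ ∑ k ∈ F, w k * R.card :=
    sum_le_sum fun k hk => (hcon k hk).le
  rw [← sum_mul] at h3
  have h4 : (0 : ℝ) < R.card := by exact_mod_cast hR.card_pos
  nlinarith

end solv

section ctx

variable {ι U A : Type} [Fintype ι] [DecidableEq ι] [Fintype U] [DecidableEq U] [Fintype A]
  [DecidableEq A] {N : ι → Finset U} {t : ℝ} {L s1 : ℕ}

omit [Fintype U] [DecidableEq U] [Fintype A] [DecidableEq A] in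
lemma mem_cyl {X : Finset (U → A)} {J : Finset U} {c x : U → A} :
    x ∈ cyl X J c ↔ x ∈ X ∧ Agree J c x := mem_filter

omit [Fintype U] [DecidableEq U] [Fintype A] [DecidableEq A] in
lemma cyl_subset (X : Finset (U → A)) (J : Finset U) (c : U → A) : cyl X J c ⊆ X :=
  filter_subset _ _

omit [Fintype U] [DecidableEq U] [Fintype A] [DecidableEq A] in
lemma ctx_cyl (X : Finset (U → A)) (J : Finset U) (c : U → A) : Ctx (cyl X J c) J c :=
  fun _ hx => (mem_cyl.1 hx).2

omit [Fintype U] [DecidableEq U] [Fintype A] [DecidableEq A] in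
lemma Ctx.mono {X X' : Finset (U → A)} {I : Finset U} {α : U → A} (h : Ctx X I α) (hX : X' ⊆ X) :
    Ctx X' I α := fun x hx => h x (hX hx)

omit [DecidableEq ι] [Fintype U] [DecidableEq U] [Fintype A] [DecidableEq A] in
lemma mem_hits {a : ι → U → A} {x : U → A} {i : ι} : i ∈ hits N a x ↔ Hit N a i x := by
  simp [hits]

omit [DecidableEq ι] [Fintype U] in
lemma mem_inn {I : Finset U} {i : ι} : i ∈ inn N I ↔ N i ⊆ I := by simp [inn]

omit [DecidableEq ι] [Fintype U] in
lemma inn_mono {I I' : Finset U} (h : I ⊆ I') : inn N I ⊆ inn N I' :=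
  fun _ hi => mem_inn.2 ((mem_inn.1 hi).trans h)

omit [Fintype U] [Fintype A] [DecidableEq A] in
lemma mem_ker {a : ι → U → A} {I : Finset U} {α : U → A} {i : ι} :
    i ∈ ker N a I α ↔ N i ⊆ I ∧ Hit N a i α := by
  simp [ker, mem_inn, mem_hits]

omit [Fintype U] [Fintype A] [DecidableEq A] in
/-- the kernel seen from any point of the context -/
lemma ker_eq {a : ι → U → A} {I : Finset U} {α x : U → A} (hx : Agree I α x) :
    ker N a I α = inn N I ∩ hits N a x := by
  ext i
  simp only [mem_ker, mem_inter, mem_inn, mem_hits]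
  refine and_congr_right fun h => ⟨fun h' u hu => ?_, fun h' u hu => ?_⟩
  · rw [hx u (h hu), h' u hu]
  · rw [← hx u (h hu), h' u hu]

omit [Fintype U] [Fintype A] [DecidableEq A] in
lemma ker_mono {a : ι → U → A} {I I' : Finset U} {α α' x : U → A} (h : I ⊆ I')
    (hx : Agree I α x) (hx' : Agree I' α' x) : ker N a I α ⊆ ker N a I' α' := by
  rw [ker_eq hx, ker_eq hx']
  exact inter_subset_inter (inn_mono h) Subset.rfl

omit [Fintype U] [Fintype A] [DecidableEq A] in
/-- if the set of fixed blocks is the same then so is the kernel -/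
lemma ker_congr {a : ι → U → A} {I : Finset U} {α α' x : U → A}
    (hx : Agree I α x) (hx' : Agree I α' x) : ker N a I α = ker N a I α' := by
  rw [ker_eq hx, ker_eq hx']

lemma sig_ge (hL : 1 ≤ L) : 20 * 4096 ^ 24 * L ^ 48 ≤ sig L := by
  rw [sig, mul_pow, ← pow_mul, mul_assoc]

lemma sig_ge' (hL : 1 ≤ L) : 1000000 * L ^ 2 ≤ sig L := by
  refine le_trans ?_ (sig_ge hL)
  exact Nat.mul_le_mul (by norm_num) (Nat.pow_le_pow_right hL (by norm_num))

lemma sig_le_gam (hL : 1 ≤ L) : sig L ≤ gam L := Nat.le_self_pow (by norm_num) _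

omit [DecidableEq A] in
lemma Ok.t_big (h : Ok A N t L s1) : (sig L : ℝ) ^ 6 ≤ t := by
  have h1 := h.t_ge
  have : (4 * (gam L : ℝ)) ^ 2 = 16 * (sig L : ℝ) ^ 6 := by rw [gam]; push_cast; ring
  have h2 : (0 : ℝ) ≤ (sig L : ℝ) ^ 6 := by positivity
  linarith

omit [DecidableEq A] in
lemma Ok.t_ge' (h : Ok A N t L s1) : (10 : ℝ) ^ 36 ≤ t := by
  refine le_trans ?_ h.t_big
  have h1 : 1000000 ≤ sig L :=
    le_trans (Nat.le_mul_of_pos_right _ (pow_pos h.L_pos 2)) (sig_ge' h.L_pos)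
  have h2 : (1000000 : ℝ) ≤ sig L := by exact_mod_cast h1
  calc (10 : ℝ) ^ 36 = 1000000 ^ 6 := by norm_num
    _ ≤ _ := pow_le_pow_left₀ (by norm_num) h2 6

omit [DecidableEq A] in
lemma Ok.one_lt (h : Ok A N t L s1) : 1 < t := lt_of_lt_of_le (by norm_num) h.t_ge'

omit [DecidableEq A] in
lemma Ok.pos (h : Ok A N t L s1) : 0 < t := zero_lt_one.trans h.one_lt

omit [DecidableEq A] in
lemma Ok.nonempty (h : Ok A N t L s1) : Nonempty A := by
  rw [← Fintype.card_pos_iff]
  have : (0 : ℝ) < Fintype.card A := by rw [h.card_A]; exact pow_pos h.pos _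
  exact_mod_cast this

omit [DecidableEq A] in
lemma Ok.bonus_le (h : Ok A N t L s1) (I : Finset U) :
    10 * min (inn N I).card (cap s1) ≤ I.card := by
  obtain ⟨C, hC, hc⟩ := exists_subset_card_eq (min_le_left (inn N I).card (cap s1))
  rw [← hc]
  refine (h.expd C (hc ▸ min_le_right _ _)).trans (card_le_card ?_)
  exact biUnion_subset.2 fun i hi => mem_inn.1 (hC hi)

omit [DecidableEq A] in
lemma Ok.phi_le (h : Ok A N t L s1) (k : ℕ) (I : Finset U) : phi N s1 k I ≤ (k + 1) * I.card := by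
  have := h.bonus_le I
  rw [phi, add_mul, one_mul]
  omega

omit [DecidableEq A] in
lemma Ok.inn_le (h : Ok A N t L s1) {I : Finset U} (hI : I.card ≤ sz s1) :
    10 * (inn N I).card ≤ I.card := by
  have := h.bonus_le I
  have h2 : cap s1 = 13 * sz s1 + 1 := rfl
  omega

omit [DecidableEq A] in
lemma Ok.ker_le (h : Ok A N t L s1) {I : Finset U} (hI : I.card ≤ sz s1) (a : ι → U → A)
    (α : U → A) : (ker N a I α).card ≤ I.card := by
  have h1 := h.inn_le hI
  have h2 : (ker N a I α).card ≤ (inn N I).card := card_le_card inter_subset_left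
  omega

omit [DecidableEq A] in
lemma Ok.inn_empty (h : Ok A N t L s1) : inn N (∅ : Finset U) = ∅ := by
  have := h.inn_le (I := ∅) (by simp)
  rw [← card_eq_zero]
  simpa using this

omit [DecidableEq A] in
lemma Ok.closed_empty (h : Ok A N t L s1) : Closed N (kk s1) (∅ : Finset U) := fun C _ hC => by
  have h1 := h.expd C (hC.trans (by simp only [kk, cap]; omega))
  rw [sdiff_empty]
  omega

lemma s0_le_sz (s1 : ℕ) : s0 s1 ≤ sz s1 := by rw [sz]; omega

/-- the number of points of a cylinder -/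
lemma card_cyl_univ (J : Finset U) (c : U → A) :
    (cyl (univ : Finset (U → A)) J c).card * Fintype.card A ^ J.card = Fintype.card (U → A) := by
  have h1 : cyl (univ : Finset (U → A)) J c =
      Fintype.piFinset fun u => if u ∈ J then {c u} else univ := by
    ext x
    simp only [mem_cyl, mem_univ, true_and, Agree, Fintype.mem_piFinset]
    refine forall_congr' fun u => ?_
    split_ifs with hu <;> simp [hu]
  have h2 : ∀ u, (if u ∈ J then ({c u} : Finset A) else univ).card =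
      if u ∈ Jᶜ then Fintype.card A else 1 := fun u => by
    by_cases hu : u ∈ J <;> simp [hu]
  rw [h1, Fintype.card_piFinset, Fintype.card_fun]
  simp only [h2]
  rw [prod_ite_mem, univ_inter, prod_const, ← pow_add, card_compl,
    Nat.sub_add_cancel (card_le_univ J)]

lemma Ok.ctx_card (h : Ok A N t L s1) {X : Finset (U → A)} {I : Finset U} {α : U → A}
    (hX : Ctx X I α) : (X.card : ℝ) * t ^ (10 * I.card) ≤ Fintype.card (U → A) := by
  have h1 : X.card ≤ (cyl (univ : Finset (U → A)) I α).card :=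
    card_le_card fun x hx => mem_cyl.2 ⟨mem_univ _, hX x hx⟩
  rw [← card_cyl_univ I α, pow_mul, ← h.card_A]
  exact_mod_cast Nat.mul_le_mul_right _ h1

end ctx

end Pool.Agent.MP_6b3410_lc.H91
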