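import Mathlib
import Pool.Agent.MP_6b3410_lc.H91.Basic
import Pool.Agent.MP_6b3410_lc.H48.Gadget4

/-!
A formula in conjunctive normal form with hidden variables, read monotonically in its visible
variables, is a monotone projection of Hamiltonicity with two edge slots for each visible variable.
-/

open Finset

namespace Pool.Agent.MP_6b3410_lc.H91

open Classical Pool.Agent.MP_6b3410_lc.H5 Pool.Agent.MP_6b3410_lc.H19

namespace PJ

lemma good_mono {n M : ℕ} {Y K : Type} {L : Fin n ⊕ Y → ℕ} {row : Fin M → Fin n ⊕ Y}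
    {pos : Fin M → ℕ} (cls : Fin M → Option K) (pol : Fin M → Bool) (A B : K → Prop)
    (D : K → K → Prop) (j1 j2 : Fin n → Fin M) (hj1 : ∀ i, row (j1 i) = Sum.inl i)
    (hj2 : ∀ i, pos (j1 i) = 0) (hj3 : ∀ i, (j1 i).val + 1 = (j2 i).val)
    (h2 : ∀ j j', row j = row j' → pos j = pos j' → j = j') (w : Fin n → Bool) :
    Good cls pol (H48.trans L row pos fun p => p.2.2 = true → w p.1 = true) A B D ↔
      ∃ z : Fin n → Bool, (∀ i, z i = true → w i = true) ∧
        Good cls pol (H48.trans L row pos fun p => (z p.1 == p.2.2) = true) A B D := by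
  constructor
  · rintro ⟨st, hT, hrest⟩
    refine ⟨fun i => st (j2 i), fun i hi => ?_, st, fun j j' hj => ?_, hrest⟩
    · rcases hT (j1 i) (j2 i) (hj3 i) with ⟨i', e1, -, e3⟩ | ⟨e1, -⟩
      · obtain rfl : i = i' := by simpa [hj1] using e1
        exact e3 hi
      · exact absurd (hj2 i) (e1 i (hj1 i))
    · rcases hT j j' hj with ⟨i, e1, e2, -⟩ | h
      · obtain rfl : j = j1 i := h2 _ _ (e1.trans (hj1 i).symm) (e2.trans (hj2 i).symm)
        have e5 := hj3 i
        obtain rfl : j' = j2 i := Fin.ext (by omega)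
        exact Or.inl ⟨i, e1, e2, by simp⟩
      · exact Or.inr h
  · rintro ⟨z, hz, st, hT, hrest⟩
    refine ⟨st, fun j j' hj => ?_, hrest⟩
    rcases hT j j' hj with ⟨i, e1, e2, e3⟩ | h
    · refine Or.inl ⟨i, e1, e2, fun h => hz i ?_⟩
      have e4 : z i = st j' := by simpa using e3
      exact e4.trans h
    · exact Or.inr h

/-- the monotone form of the projection of a formula with hidden variables -/
theorem mono_proj {n N : ℕ} {Y K O : Type} [Fintype Y] [Fintype K] [Fintype O] (hn : 1 ≤ n)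
    (cl : O → K) (sc : O → Fin n ⊕ Y) (sg : O → Bool)
    (hN : 3 * (3 * (2 * (n + Fintype.card Y) + Fintype.card O) + Fintype.card K + 4) ≤ N) :
    ∃ π : Edge N → Fin n ⊕ Bool,
      (univ.filter fun e => ∃ i, π e = Sum.inl i).card ≤ 2 * n ∧
      ∀ w : Fin n → Bool, Ham (fun e => Sum.elim w id (π e)) ↔
        ∃ z : Fin n → Bool, (∀ i, z i = true → w i = true) ∧
          ∃ y : Y → Bool, ∀ κ, ∃ o, cl o = κ ∧ Sum.elim z y (sc o) = sg o := by
  obtain ⟨L, oc, hM, hL, ho1, ho2⟩ := H48.exists_occ sc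
  obtain ⟨row, pos, h0, h1, h2, h3⟩ := exists_chain (Fin n ⊕ Y) L
  simp only [Fintype.card_sum, Fintype.card_fin] at hM
  have hM0 : 0 < ∑ r, L r := by rw [hM]; omega
  generalize (∑ r, L r) = M at *
  have hV : 3 * Fintype.card (Vx M (K ⊕ Bool)) ≤ N := by
    rw [card_vx, Fintype.card_sum, Fintype.card_bool, hM]
    omega
  have : Nonempty (Vx M (K ⊕ Bool)) := ⟨Vx.P true⟩
  have hs : ∀ i : Fin n, ∃ j j' : Fin M, row j = Sum.inl i ∧ pos j = 0 ∧ j.val + 1 = j'.val := by
    intro i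
    have := hL (Sum.inl i)
    obtain ⟨j, e1, e2⟩ := h1 (Sum.inl i) 0 (by omega)
    obtain ⟨j', e3, e4⟩ := h1 (Sum.inl i) 1 (by omega)
    exact ⟨j, j', e1, e2, h3 _ _ (e1.trans e3.symm) (by omega)⟩
  choose j1 j2 hj1 hj2 hj3 using hs
  obtain ⟨rail, hri, hr⟩ := exists_rails (V := Vx M (K ⊕ Bool)) N hV
    (fun p : Fin n × Bool × Bool => Vx.E (j1 p.1) p.2.1)
    (fun p => Vx.E (j2 p.1) p.2.2) (by
      rintro ⟨i, b1, b2⟩ ⟨i', b1', b2'⟩ e1 e2
      simp only [Vx.E.injEq] at e1 e2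
      have e3 := hj1 i
      rw [e1.1, hj1] at e3
      rw [Sum.inl.inj e3, e1.2, e2.2])
  obtain ⟨rho, hrho⟩ := hr (Arc (fun j => (oc (row j) (pos j)).map fun o => Sum.inl (cl o))
    (fun j => ((oc (row j) (pos j)).map sg).getD false) (H48.trans L row pos fun _ => False)
    (fun c => c = Sum.inr false) (fun c => c = Sum.inr true) (fun _ _ => True)) (by
      rintro ⟨q, b1, b2⟩ ⟨-, (⟨_, -, -, h4⟩ | ⟨h4, -⟩)⟩
      · exact h4
      · exact h4 _ (hj1 q) (hj2 q))
  let π : Edge N → Fin n ⊕ Bool := fun e =>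
    if h : ∃ p, rail p = e then
      (if h.choose.2.2 = true then Sum.inl h.choose.1 else Sum.inr true) else Sum.inr (rho e)
  have hpr : ∀ p, π (rail p) = if p.2.2 = true then Sum.inl p.1 else Sum.inr true := fun p => by
    have h : ∃ p', rail p' = rail p := ⟨p, rfl⟩
    simp only [π, dif_pos h, hri h.choose_spec]
  have hpr' : ∀ e, e ∉ Set.range rail → π e = Sum.inr (rho e) := fun e he => dif_neg he
  refine ⟨π, ?_, fun w => ?_⟩
  · refine le_trans (card_le_card
      (t := univ.image fun q : Fin n × Bool => rail (q.1, q.2, true)) fun e he => ?_)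
      (card_image_le.trans (by simp [mul_comm]))
    obtain ⟨i, hi⟩ := (mem_filter.1 he).2
    by_cases h : e ∈ Set.range rail
    · obtain ⟨⟨i', b, b'⟩, rfl⟩ := h
      rw [hpr] at hi
      cases b'
      · simp at hi
      · exact mem_image.2 ⟨(i', b), mem_univ _, rfl⟩
    · rw [hpr' e h] at hi
      simp at hi
  have hx : ∀ p, Sum.elim w id (π (rail p)) = true ↔ (p.2.2 = true → w p.1 = true) := by
    rintro ⟨i, b, b'⟩
    cases b' <;> simp [hpr]
  rw [hrho _ (fun e he => by simp [hpr' e he])]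
  simp only [← H48.good_iff cl sc sg oc hL ho1 ho2 h0 h1 h2 h3]
  rw [← good_mono _ _ _ _ _ j1 j2 hj1 hj2 hj3 h2 w, ← chain_iff hM0 (by
      rintro c rfl h'
      simp at h')]
  refine iff_of_eq (congrArg DHam ?_)
  funext u v
  refine propext ⟨?_, fun hA => ?_⟩
  · rintro (hA | ⟨p, hp, rfl, rfl⟩)
    · cases u <;> cases v <;> first
        | exact hA
        | skip
      exact ⟨hA.1, hA.2.imp (fun ⟨_, _, _, h4⟩ => h4.elim) id⟩
    · exact ⟨hj3 _, Or.inl ⟨p.1, hj1 _, hj2 _, (hx p).1 hp⟩⟩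
  · cases u <;> cases v <;> first
      | exact Or.inl hA
      | skip
    rename_i j b j' b'
    rcases hA with ⟨e1, ⟨i, e2, e3, e4⟩ | e2⟩
    · obtain rfl : j = j1 i := h2 _ _ (e2.trans (hj1 i).symm) (e3.trans (hj2 i).symm)
      have e5 := hj3 i
      obtain rfl : j' = j2 i := Fin.ext (by omega)
      exact Or.inr ⟨(i, b, b'), (hx _).2 e4, rfl, rfl⟩
    · exact Or.inl ⟨e1, Or.inr e2⟩

end PJ

theorem proj : ProjStmt := by
  intro n v m M N a hn hN hvm hv hM
  have hO : Fintype.card (Σ i : Fin n, {u // u ∈ N i}) ≤ 12 * n := by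
    rw [Fintype.card_sigma]
    refine (sum_le_card_nsmul _ _ 12 fun i _ => ?_).trans (by simp [mul_comm])
    simpa using hN i
  obtain ⟨π, h1, h2⟩ := PJ.mono_proj (N := M) (Y := Fin v × Fin m) (K := Fin v ⊕ Fin n)
    (O := (Fin v × Fin m) ⊕ Fin n ⊕ (Σ i : Fin n, {u // u ∈ N i})) hn
    (Sum.elim (fun q => Sum.inl q.1) (Sum.elim (fun i => Sum.inr i) fun q => Sum.inr q.1))
    (Sum.elim (fun q => Sum.inr q)
      (Sum.elim (fun i => Sum.inl i) fun q => Sum.inr (q.2.1, a q.1 q.2.1)))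
    (Sum.elim (fun _ => true) (Sum.elim (fun _ => true) fun _ => false)) (by
      simp only [Fintype.card_sum, Fintype.card_prod, Fintype.card_fin]
      omega)
  refine ⟨π, h1, fun w => (h2 w).trans ⟨?_, ?_⟩⟩
  · rintro ⟨z, hz, y, hy⟩
    have hx : ∀ u, ∃ c, y (u, c) = true := by
      intro u
      obtain ⟨q | i | q, e1, e2⟩ := hy (Sum.inl u)
      · obtain rfl : q.1 = u := by simpa using e1
        exact ⟨q.2, by simpa using e2⟩
      · simp at e1
      · simp at e1
    choose x hx using hx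
    refine ⟨x, fun i hi => ?_⟩
    obtain ⟨q | i' | ⟨i', u, hu⟩, e1, e2⟩ := hy (Sum.inr i)
    · simp at e1
    · obtain rfl : i' = i := by simpa using e1
      exact hz _ (by simpa using e2)
    · obtain rfl : i' = i := by simpa using e1
      have e3 : y (u, a i' u) = false := by simpa using e2
      have e4 := hx u
      rw [hi u hu, e3] at e4
      simp at e4
  · rintro ⟨x, hx⟩
    refine ⟨w, fun _ h => h, fun q => decide (x q.1 = q.2), ?_⟩
    rintro (u | i)
    · exact ⟨Sum.inl (u, x u), rfl, by simp⟩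
    · by_cases hi : Hit N a i x
      · exact ⟨Sum.inr (Sum.inl i), rfl, by simpa using hx i hi⟩
      · simp only [Hit, Agree, not_forall] at hi
        obtain ⟨u, hu, h⟩ := hi
        exact ⟨Sum.inr (Sum.inr ⟨i, u, hu⟩), rfl, by simpa using h⟩

end Pool.Agent.MP_6b3410_lc.H91
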