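import Mathlib
import Pool.Agent.MP_6b3410_lc.H19.Proj
import Pool.Agent.MP_6b3410_lc.H19.Chain

/-!
Rails in a sparse host graph.
-/

namespace Pool.Agent.MP_6b3410_lc.H91

open Classical Pool.Agent.MP_6b3410_lc.H5 Pool.Agent.MP_6b3410_lc.H19

lemma card_edges_le {n : ℕ} (R : Fin n → Fin n → Prop) :
    (Finset.univ.filter fun e : Edge n => decide (R e.1.1 e.1.2 ∨ R e.1.2 e.1.1) = true).card ≤
      (Finset.univ.filter fun p : Fin n × Fin n => R p.1 p.2).card := by
  refine Finset.card_le_card_of_injOn (fun e => if R e.1.1 e.1.2 then e.1 else e.1.swap)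
    (fun e he => ?_) fun e _ e' _ h => ?_
  · have he' : R e.1.1 e.1.2 ∨ R e.1.2 e.1.1 := by simpa using he
    by_cases h : R e.1.1 e.1.2
    · simp [h]
    · simp [h, he'.resolve_left h]
  · have h1 := e.2
    have h2 := e'.2
    dsimp only at h
    split_ifs at h
    · exact Subtype.ext h
    · rw [h] at h1
      exact absurd h2 (not_lt.2 (le_of_lt h1))
    · rw [← h] at h2
      exact absurd h1 (not_lt.2 (le_of_lt h2))
    · exact Subtype.ext (Prod.swap_injective h)

lemma card_st_le {V : Type} [Fintype V] (len : V → ℕ) (A0 : V → V → Prop) :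
    (Finset.univ.filter fun p : Spl len × Spl len => St A0 p.1 p.2).card ≤
      Fintype.card (Spl len) + (Finset.univ.filter fun p : V × V => A0 p.1 p.2).card := by
  have h : (Finset.univ.filter fun p : Spl len × Spl len => St A0 p.1 p.2) ⊆
      (Finset.univ.filter fun p : Spl len × Spl len =>
        p.1.1 = p.2.1 ∧ p.1.2.val + 1 = p.2.2.val) ∪
      Finset.univ.filter fun p : Spl len × Spl len =>
        p.1.2.val = len p.1.1 + 2 ∧ p.2.2.val = 0 ∧ A0 p.1.1 p.2.1 := fun p hp => by
    simpa [St] using hp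
  refine (Finset.card_le_card h).trans ((Finset.card_union_le _ _).trans (add_le_add ?_ ?_))
  · refine Finset.card_le_card_of_injOn (t := Finset.univ) Prod.fst (fun p _ => by simp)
      fun p hp p' hp' h => ?_
    simp only [Finset.coe_filter, Finset.mem_univ, true_and, Set.mem_ofPred_eq] at hp hp'
    refine Prod.ext h (Spl.ext ?_ ?_)
    · rw [← hp.1, ← hp'.1, h]
    · rw [← hp.2, ← hp'.2, h]
  · refine Finset.card_le_card_of_injOn (fun p => (p.1.1, p.2.1)) (fun p hp => ?_)
      fun p hp p' hp' h => ?_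
    · simp only [Finset.coe_filter, Finset.mem_univ, true_and, Set.mem_ofPred_eq] at hp ⊢
      exact hp.2.2
    · simp only [Finset.coe_filter, Finset.mem_univ, true_and, Set.mem_ofPred_eq] at hp hp'
      simp only [Prod.mk.injEq] at h
      refine Prod.ext (Spl.ext h.1 ?_) (Spl.ext h.2 ?_)
      · rw [hp.1, hp'.1, h.1]
      · rw [hp.2.1, hp'.2.1]

/-- the chain graph is sparse -/
lemma card_arc_le {M : ℕ} {K : Type} [Fintype K] (cls : Fin M → Option K) (pol : Fin M → Bool)
    (T : Fin M → Bool → Bool → Prop) (a b : K) :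
    (Finset.univ.filter fun p : Vx M K × Vx M K =>
      Arc cls pol T (fun c => c = a) (fun c => c = b) (fun _ _ => True) p.1 p.2).card ≤
      14 * M + 3 := by
  let nx : Fin M → Fin M := fun j => if h : j.val + 1 < M then ⟨j.val + 1, h⟩ else j
  let f : ((Fin M × Bool) × Fin 7) ⊕ Fin 3 → Vx M K × Vx M K := Sum.elim
    (fun q => ![(Vx.E q.1.1 q.1.2, Vx.Mi q.1.1), (Vx.Mi q.1.1, Vx.E q.1.1 q.1.2),
      (Vx.E q.1.1 q.1.2, Vx.E (nx q.1.1) false), (Vx.E q.1.1 q.1.2, Vx.E (nx q.1.1) true),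
      (if q.1.2 = true then (Vx.E q.1.1 (pol q.1.1), Vx.C ((cls q.1.1).getD a))
        else (Vx.C ((cls q.1.1).getD a), Vx.Mi q.1.1)),
      (Vx.E q.1.1 q.1.2, Vx.P false), (Vx.P true, Vx.E q.1.1 q.1.2)] q.2)
    ![(Vx.P false, Vx.C a), (Vx.C a, Vx.C b), (Vx.C b, Vx.P true)]
  have h : (Finset.univ.filter fun p : Vx M K × Vx M K =>
      Arc cls pol T (fun c => c = a) (fun c => c = b) (fun _ _ => True) p.1 p.2) ⊆
      Finset.univ.image f := by
    rintro ⟨u, v⟩ hp
    have hA := (Finset.mem_filter.1 hp).2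
    simp only [Finset.mem_image, Finset.mem_univ, true_and]
    cases u <;> cases v <;> simp only [Arc] at hA
    · rename_i j c j' c'
      have : nx j = j' := by
        have := j'.2
        simp only [nx, dif_pos (show j.val + 1 < M by omega)]
        exact Fin.ext hA.1
      subst this
      cases c'
      exacts [⟨Sum.inl ((j, c), 2), rfl⟩, ⟨Sum.inl ((j, c), 3), rfl⟩]
    · rename_i j c j'
      subst hA
      exact ⟨Sum.inl ((j, c), 0), rfl⟩
    · rename_i j c k
      exact ⟨Sum.inl ((j, true), 4), by simp [f, hA.1, hA.2]⟩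
    · rename_i j c i
      exact ⟨Sum.inl ((j, c), 5), by simp [f, hA.2]⟩
    · rename_i j j' c
      subst hA
      exact ⟨Sum.inl ((j, c), 1), rfl⟩
    · rename_i k j
      exact ⟨Sum.inl ((j, false), 4), by simp [f, hA]⟩
    · exact ⟨Sum.inr 1, by simp [f, hA.1, hA.2.1]⟩
    · exact ⟨Sum.inr 2, by simp [f, hA.1, hA.2]⟩
    · rename_i i j c
      exact ⟨Sum.inl ((j, c), 6), by simp [f, hA.1]⟩
    · exact ⟨Sum.inr 0, by simp [f, hA.1, hA.2]⟩
  refine (Finset.card_le_card h).trans (Finset.card_image_le.trans ?_)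
  simp
  omega

/-- `exists_rails` with a bound on the number of fixed edges -/
theorem exists_rails2 {V ι : Type} [Fintype V] [Nonempty V] (n : ℕ)
    (hn : 3 * Fintype.card V ≤ n) (src tgt : ι → V)
    (hinj : ∀ p p', src p = src p' → tgt p = tgt p' → p = p') :
    ∃ rail : ι → Edge n, Function.Injective rail ∧
      ∀ A0 : V → V → Prop, (∀ p, ¬ A0 (src p) (tgt p)) → ∃ rho : Edge n → Bool,
        (Finset.univ.filter fun e => rho e = true).card ≤
          n + (Finset.univ.filter fun p : V × V => A0 p.1 p.2).card ∧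
        ∀ x : Edge n → Bool, (∀ e, e ∉ Set.range rail → x e = rho e) →
          (Ham x ↔ DHam fun u v => A0 u v ∨ ∃ p, x (rail p) = true ∧ u = src p ∧ v = tgt p) := by
  obtain ⟨v0⟩ := ‹Nonempty V›
  let len : V → ℕ := fun v => if v = v0 then n - 3 * Fintype.card V else 0
  have hcard : Fintype.card (Spl len) = n := by
    rw [Fintype.card_sigma]
    simp only [Fintype.card_fin, Finset.sum_add_distrib, len, Finset.sum_ite_eq', Finset.mem_univ,
      if_true, Finset.sum_const, Finset.card_univ, smul_eq_mul]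
    omega
  let q : Spl len ≃ Fin n := Fintype.equivFinOfCardEq hcard
  let lst : V → Spl len := fun v => ⟨v, ⟨len v + 2, by omega⟩⟩
  let fst : V → Spl len := fun v => ⟨v, ⟨0, by omega⟩⟩
  have hlf : ∀ u v, lst u ≠ fst v := by
    intro u v h
    have := congrArg (fun p : Spl len => p.2.val) h
    simp [lst, fst] at this
  have hl : ∀ u v, lst u = lst v → u = v := fun u v h => congrArg Sigma.fst h
  have hf : ∀ u v, fst u = fst v → u = v := fun u v h => congrArg Sigma.fst h
  let rail : ι → Edge n := fun p =>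
    mkEdge (q (lst (src p))) (q (fst (tgt p))) (fun h => hlf _ _ (q.injective h))
  have hrail : ∀ p e, rail p = e ↔ (lst (src p) = q.symm e.1.1 ∧ fst (tgt p) = q.symm e.1.2) ∨
      (lst (src p) = q.symm e.1.2 ∧ fst (tgt p) = q.symm e.1.1) := by
    intro p e
    simp only [rail, mkEdge_eq, Equiv.eq_symm_apply]
  have hn3 : 3 ≤ Fintype.card (Fin n) := by
    rw [Fintype.card_fin]
    have : 0 < Fintype.card V := Fintype.card_pos_iff.2 ⟨v0⟩
    omega
  have hri : Function.Injective rail := by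
    intro p p' h
    rcases (hrail p _).1 h with ⟨h1, h2⟩ | ⟨h1, h2⟩ <;>
      rcases (hrail p' _).1 rfl with ⟨h3, h4⟩ | ⟨h3, h4⟩
    · exact hinj _ _ (hl _ _ (h1.trans h3.symm)) (hf _ _ (h2.trans h4.symm))
    · exact absurd (h1.trans h4.symm) (hlf _ _)
    · exact absurd (h1.trans h4.symm) (hlf _ _)
    · exact hinj _ _ (hl _ _ (h1.trans h3.symm)) (hf _ _ (h2.trans h4.symm))
  refine ⟨rail, hri, fun A0 hA0 => ?_⟩
  refine ⟨fun e => decide (St A0 (q.symm e.1.1) (q.symm e.1.2) ∨ St A0 (q.symm e.1.2) (q.symm e.1.1)),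
    ?_, fun x hx => ?_⟩
  · refine le_trans (card_edges_le fun i j => St A0 (q.symm i) (q.symm j)) ?_
    have hst := card_st_le len A0
    rw [hcard] at hst
    refine le_trans ?_ hst
    refine Finset.card_le_card_of_injOn (fun p => (q.symm p.1, q.symm p.2)) (fun p hp => ?_)
      fun p _ p' _ h => ?_
    · simpa using hp
    · simp only [Prod.mk.injEq, EmbeddingLike.apply_eq_iff_eq] at h
      exact Prod.ext h.1 h.2
  set A1 : V → V → Prop := fun u v => A0 u v ∨ ∃ p, x (rail p) = true ∧ u = src p ∧ v = tgt p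
    with hA1
  have hSt : ∀ u v : Spl len, St A1 u v ↔
      St A0 u v ∨ ∃ p, x (rail p) = true ∧ lst (src p) = u ∧ fst (tgt p) = v := by
    intro u v
    constructor
    · rintro (h | ⟨h1, h2, h3 | ⟨p, h3, h4, h5⟩⟩)
      · exact Or.inl (Or.inl h)
      · exact Or.inl (Or.inr ⟨h1, h2, h3⟩)
      · exact Or.inr ⟨p, h3, Spl.ext h4.symm (by simp only [lst]; rw [h1, h4]),
          Spl.ext h5.symm (by simp only [fst]; rw [h2])⟩
    · rintro ((h | ⟨h1, h2, h3⟩) | ⟨p, h3, rfl, rfl⟩)
      · exact Or.inl h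
      · exact Or.inr ⟨h1, h2, Or.inl h3⟩
      · exact Or.inr ⟨rfl, rfl, Or.inr ⟨p, h3, rfl, rfl⟩⟩
  have hno : ∀ p, ¬ St A0 (lst (src p)) (fst (tgt p)) ∧ ¬ St A0 (fst (tgt p)) (lst (src p)) := by
    intro p
    constructor
    · rintro (⟨-, h⟩ | ⟨-, -, h⟩)
      · simp [fst] at h
      · exact hA0 p h
    · rintro (⟨h1, h⟩ | ⟨h, -, -⟩)
      · simp [fst, lst] at h
      · simp [fst] at h
  have hx' : ∀ e : Edge n, x e = true ↔
      St A1 (q.symm e.1.1) (q.symm e.1.2) ∨ St A1 (q.symm e.1.2) (q.symm e.1.1) := by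
    intro e
    rw [hSt, hSt]
    by_cases he : e ∈ Set.range rail
    · obtain ⟨p, rfl⟩ := he
      constructor
      · intro h
        rcases (hrail p _).1 rfl with h1 | h1
        · exact Or.inl (Or.inr ⟨p, h, h1⟩)
        · exact Or.inr (Or.inr ⟨p, h, h1⟩)
      · rintro ((h | ⟨p', h, h1⟩) | (h | ⟨p', h, h1⟩))
        · exfalso
          rcases (hrail p _).1 rfl with h1 | h1 <;> rw [← h1.1, ← h1.2] at h
          exacts [(hno p).1 h, (hno p).2 h]
        · rwa [← (hrail p' _).2 (Or.inl h1)]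
        · exfalso
          rcases (hrail p _).1 rfl with h1 | h1 <;> rw [← h1.1, ← h1.2] at h
          exacts [(hno p).2 h, (hno p).1 h]
        · rwa [← (hrail p' _).2 (Or.inr h1)]
    · rw [hx e he, decide_eq_true_eq]
      constructor
      · exact fun h => h.imp Or.inl Or.inl
      · rintro ((h | ⟨p', -, h1⟩) | (h | ⟨p', -, h1⟩))
        · exact Or.inl h
        · exact absurd ⟨p', (hrail p' _).2 (Or.inl h1)⟩ he
        · exact Or.inr h
        · exact absurd ⟨p', (hrail p' _).2 (Or.inr h1)⟩ he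
  have hirr : ∀ u : Spl len, ¬ St A1 u u := by
    rintro u (h | h) <;> omega
  have hadj : ∀ i j : Fin n, (SimpleGraph.fromRel fun i j : Fin n =>
      ∃ h : i < j, x ⟨(i, j), h⟩ = true).Adj i j ↔
      St A1 (q.symm i) (q.symm j) ∨ St A1 (q.symm j) (q.symm i) := by
    intro i j
    simp only [SimpleGraph.fromRel_adj, hx']
    constructor
    · rintro ⟨-, ⟨-, h⟩ | ⟨-, h⟩⟩
      exacts [h, h.symm]
    · intro h
      have hne : i ≠ j := fun h' => by
        subst h'
        exact h.elim (hirr _) (hirr _)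
      refine ⟨hne, ?_⟩
      rcases lt_or_gt_of_ne hne with h' | h'
      exacts [Or.inl ⟨h', h⟩, Or.inr ⟨h', h.symm⟩]
  have : Nonempty V := ⟨v0⟩
  constructor
  · intro h
    exact dham_of_split ((dham_of_isHamiltonian hn3 h).equiv q.symm fun a b hab => (hadj a b).1 hab)
  · intro h
    refine isHamiltonian_of_dham hn3 ((split_of_dham (len := len) h).equiv q
      fun a b hab => (hadj _ _).2 ?_)
    simpa using Or.inl hab

end Pool.Agent.MP_6b3410_lc.H91
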