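import Mathlib
import Pool.Agent.MP_6b3410_lc.H91.Proj
import Pool.Agent.MP_6b3410_lc.H91.Rails

/-!
The monotone projection lives in a host graph with linearly many edges; assembly of the bound.
-/

open Finset

namespace Pool.Agent.MP_6b3410_lc.H91

open Classical Pool.Agent.MP_6b3410_lc.H5 Pool.Agent.MP_6b3410_lc.H19

/-- the monotone form of the projection of a formula with hidden variables -/
theorem mono_proj2 {n N : ℕ} {Y K O : Type} [Fintype Y] [Fintype K] [Fintype O] (hn : 1 ≤ n)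
    (cl : O → K) (sc : O → Fin n ⊕ Y) (sg : O → Bool)
    (hN : 3 * (3 * (2 * (n + Fintype.card Y) + Fintype.card O) + Fintype.card K + 4) ≤ N) :
    ∃ π : Edge N → Fin n ⊕ Bool,
      (univ.filter fun e => π e ≠ Sum.inr false).card ≤ 3 * N ∧
      ∀ w : Fin n → Bool, Ham (fun e => Sum.elim w id (π e)) ↔
        ∃ z : Fin n → Bool, (∀ i, z i = true → w i = true) ∧
          ∃ y : Y → Bool, ∀ κ, ∃ o, cl o = κ ∧ Sum.elim z y (sc o) = sg o := by
  obtain ⟨L, oc, hM, hL, ho1, ho2⟩ := H48.exists_occ sc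
  obtain ⟨row, pos, h0, h1, h2, h3⟩ := exists_chain (Fin n ⊕ Y) L
  simp only [Fintype.card_sum, Fintype.card_fin] at hM
  have hM0 : 0 < ∑ r, L r := by rw [hM]; omega
  generalize (∑ r, L r) = M at *
  have hV : 3 * Fintype.card (Vx M (K ⊕ Bool)) ≤ N := by
    rw [card_vx, Fintype.card_sum, Fintype.card_bool, hM]
    omega
  have : Nonempty (Vx M (K ⊕ Bool)) := ⟨Vx.P true⟩
  have hs : ∀ i : Fin n, ∃ j j' : Fin M, row j = Sum.inl i ∧ pos j = 0 ∧ j.val + 1 = j'.val := by
    intro i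
    have := hL (Sum.inl i)
    obtain ⟨j, e1, e2⟩ := h1 (Sum.inl i) 0 (by omega)
    obtain ⟨j', e3, e4⟩ := h1 (Sum.inl i) 1 (by omega)
    exact ⟨j, j', e1, e2, h3 _ _ (e1.trans e3.symm) (by omega)⟩
  choose j1 j2 hj1 hj2 hj3 using hs
  obtain ⟨rail, hri, hr⟩ := exists_rails2 (V := Vx M (K ⊕ Bool)) N hV
    (fun p : Fin n × Bool × Bool => Vx.E (j1 p.1) p.2.1)
    (fun p => Vx.E (j2 p.1) p.2.2) (by
      rintro ⟨i, b1, b2⟩ ⟨i', b1', b2'⟩ e1 e2
      simp only [Vx.E.injEq] at e1 e2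
      have e3 := hj1 i
      rw [e1.1, hj1] at e3
      rw [Sum.inl.inj e3, e1.2, e2.2])
  obtain ⟨rho, hcnt, hrho⟩ := hr (Arc (fun j => (oc (row j) (pos j)).map fun o => Sum.inl (cl o))
    (fun j => ((oc (row j) (pos j)).map sg).getD false) (H48.trans L row pos fun _ => False)
    (fun c => c = Sum.inr false) (fun c => c = Sum.inr true) (fun _ _ => True)) (by
      rintro ⟨q, b1, b2⟩ ⟨-, (⟨_, -, -, h4⟩ | ⟨h4, -⟩)⟩
      · exact h4
      · exact h4 _ (hj1 q) (hj2 q))
  let π : Edge N → Fin n ⊕ Bool := fun e =>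
    if h : ∃ p, rail p = e then
      (if h.choose.2.2 = true then Sum.inl h.choose.1 else Sum.inr true) else Sum.inr (rho e)
  have hpr : ∀ p, π (rail p) = if p.2.2 = true then Sum.inl p.1 else Sum.inr true := fun p => by
    have h : ∃ p', rail p' = rail p := ⟨p, rfl⟩
    simp only [π, dif_pos h, hri h.choose_spec]
  have hpr' : ∀ e, e ∉ Set.range rail → π e = Sum.inr (rho e) := fun e he => dif_neg he
  refine ⟨π, ?_, fun w => ?_⟩
  · have h4 := card_arc_le (fun j => (oc (row j) (pos j)).map fun o => Sum.inl (cl o))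
      (fun j => ((oc (row j) (pos j)).map sg).getD false) (H48.trans L row pos fun _ => False)
      (Sum.inr false : K ⊕ Bool) (Sum.inr true)
    have h5 : (univ.image rail).card ≤ 4 * n := card_image_le.trans (by simp [mul_comm])
    have h6 : (univ.filter fun e => π e ≠ Sum.inr false) ⊆
        univ.image rail ∪ univ.filter fun e => rho e = true := fun e he => by
      by_cases h : e ∈ Set.range rail
      · obtain ⟨p, rfl⟩ := h
        exact mem_union_left _ (mem_image_of_mem _ (mem_univ _))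
      · have h7 := (mem_filter.1 he).2
        rw [hpr' e h] at h7
        exact mem_union_right _ (mem_filter.2 ⟨mem_univ _, by simpa using h7⟩)
    have h8 := (card_le_card h6).trans (card_union_le _ _)
    omega
  have hx : ∀ p, Sum.elim w id (π (rail p)) = true ↔ (p.2.2 = true → w p.1 = true) := by
    rintro ⟨i, b, b'⟩
    cases b' <;> simp [hpr]
  rw [hrho _ (fun e he => by simp [hpr' e he])]
  simp only [← H48.good_iff cl sc sg oc hL ho1 ho2 h0 h1 h2 h3]
  rw [← PJ.good_mono _ _ _ _ _ j1 j2 hj1 hj2 hj3 h2 w, ← chain_iff hM0 (by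
      rintro c rfl h'
      simp at h')]
  refine iff_of_eq (congrArg DHam ?_)
  funext u v
  refine propext ⟨?_, fun hA => ?_⟩
  · rintro (hA | ⟨p, hp, rfl, rfl⟩)
    · cases u <;> cases v <;> first
        | exact hA
        | skip
      exact ⟨hA.1, hA.2.imp (fun ⟨_, _, _, h4⟩ => h4.elim) id⟩
    · exact ⟨hj3 _, Or.inl ⟨p.1, hj1 _, hj2 _, (hx p).1 hp⟩⟩
  · cases u <;> cases v <;> first
      | exact Or.inl hA
      | skip
    rename_i j b j' b'
    rcases hA with ⟨e1, ⟨i, e2, e3, e4⟩ | e2⟩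
    · obtain rfl : j = j1 i := h2 _ _ (e2.trans (hj1 i).symm) (e3.trans (hj2 i).symm)
      have e5 := hj3 i
      obtain rfl : j' = j2 i := Fin.ext (by omega)
      exact Or.inr ⟨(i, b, b'), (hx _).2 e4, rfl, rfl⟩
    · exact Or.inl ⟨e1, Or.inr e2⟩

theorem proj2 (n v m M : ℕ) (N : Fin n → Finset (Fin v)) (a : Fin n → Fin v → Fin m) (hn : 1 ≤ n)
    (hN : ∀ i, (N i).card ≤ 12) (hvm : v * m ≤ n) (hv : v ≤ n) (hM : 300 * n ≤ M) :
    ∃ π : H19.Edge M → Fin n ⊕ Bool,
      (univ.filter fun e => π e ≠ Sum.inr false).card ≤ 3 * M ∧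
      ∀ w : Fin n → Bool,
        H19.Ham (fun e => Sum.elim w id (π e)) ↔ ∃ x, ∀ i, Hit N a i x → w i = true := by
  have hO : Fintype.card (Σ i : Fin n, {u // u ∈ N i}) ≤ 12 * n := by
    rw [Fintype.card_sigma]
    refine (sum_le_card_nsmul _ _ 12 fun i _ => ?_).trans (by simp [mul_comm])
    simpa using hN i
  obtain ⟨π, h1, h2⟩ := mono_proj2 (N := M) (Y := Fin v × Fin m) (K := Fin v ⊕ Fin n)
    (O := (Fin v × Fin m) ⊕ Fin n ⊕ (Σ i : Fin n, {u // u ∈ N i})) hn
    (Sum.elim (fun q => Sum.inl q.1) (Sum.elim (fun i => Sum.inr i) fun q => Sum.inr q.1))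
    (Sum.elim (fun q => Sum.inr q)
      (Sum.elim (fun i => Sum.inl i) fun q => Sum.inr (q.2.1, a q.1 q.2.1)))
    (Sum.elim (fun _ => true) (Sum.elim (fun _ => true) fun _ => false)) (by
      simp only [Fintype.card_sum, Fintype.card_prod, Fintype.card_fin]
      omega)
  refine ⟨π, h1, fun w => (h2 w).trans ⟨?_, ?_⟩⟩
  · rintro ⟨z, hz, y, hy⟩
    have hx : ∀ u, ∃ c, y (u, c) = true := by
      intro u
      obtain ⟨q | i | q, e1, e2⟩ := hy (Sum.inl u)
      · obtain rfl : q.1 = u := by simpa using e1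
        exact ⟨q.2, by simpa using e2⟩
      · simp at e1
      · simp at e1
    choose x hx using hx
    refine ⟨x, fun i hi => ?_⟩
    obtain ⟨q | i' | ⟨i', u, hu⟩, e1, e2⟩ := hy (Sum.inr i)
    · simp at e1
    · obtain rfl : i' = i := by simpa using e1
      exact hz _ (by simpa using e2)
    · obtain rfl : i' = i := by simpa using e1
      have e3 : y (u, a i' u) = false := by simpa using e2
      have e4 := hx u
      rw [hi u hu, e3] at e4
      simp at e4
  · rintro ⟨x, hx⟩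
    refine ⟨w, fun _ h => h, fun q => decide (x q.1 = q.2), ?_⟩
    rintro (u | i)
    · exact ⟨Sum.inl (u, x u), rfl, by simp⟩
    · by_cases hi : Hit N a i x
      · exact ⟨Sum.inr (Sum.inl i), rfl, by simpa using hx i hi⟩
      · simp only [Hit, Agree, not_forall] at hi
        obtain ⟨u, hu, h⟩ := hi
        exact ⟨Sum.inr (Sum.inr ⟨i, u, hu⟩), rfl, by simpa using h⟩

theorem glue2 (hC : CircStmt) (hH : HyperStmt) (hP : PatStmt) (hN : ParStmt) :
    ∃ C n₀ : ℕ, ∀ n : ℕ, n₀ ≤ n →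
      ∃ H : Finset {p : Fin n × Fin n // p.1 < p.2}, H.card ≤ 3 * n ∧
      ∀ (s : ℕ) (G : Fin s → Bool × Bool → Bool)
        (a b : Fin s → ({p : Fin n × Fin n // p.1 < p.2} ⊕ Fin s)) (o : Fin s),
        (∀ g j : Fin s, (a g = Sum.inr j → j < g) ∧ (b g = Sum.inr j → j < g)) →
        (∀ g : Fin s, Monotone (G g)) →
        (∀ x : {p : Fin n × Fin n // p.1 < p.2} → Bool, (∀ e, x e = true → e ∈ H) →
          ∀ val : Fin s → Bool,
          (∀ g : Fin s, val g = G g (Sum.elim x val (a g), Sum.elim x val (b g))) →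
          (val o = true ↔
            (SimpleGraph.fromRel
              (fun i j : Fin n => ∃ h : i < j, x ⟨(i, j), h⟩ = true)).IsHamiltonian)) →
        Real.exp (n / Real.log n ^ C) ≤ (s : ℝ) := by
  obtain ⟨C, M₀, hM⟩ := hN
  refine ⟨C, M₀, fun M hMM => ?_⟩
  obtain ⟨n, v, t, L, s1, h1, h2, h3, h4, h5, h6, h7, h8, h9, h10, h11, h12, h13, h14⟩ := hM M hMM
  obtain ⟨N, hd, he⟩ := hH n v (cap s1) h1 h3 h7
  obtain ⟨pa, pb, hab⟩ := hP n v (t ^ 10) N (Nat.one_le_pow _ _ h2) hd h6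
  obtain ⟨π, hπ1, hπ2⟩ := proj2 n v (t ^ 10) M N pa (h1.trans h3) hd h4 h3 h5
  have hok : Ok (Fin (t ^ 10)) N (t : ℝ) L s1 :=
    ⟨by simp, hd, he, h8, by simpa using h9, by simpa using h10, h11, by exact_mod_cast h12,
      by simpa using (show (256 * n : ℝ) ≤ (t : ℝ) ^ s1 by exact_mod_cast h13),
      by simpa using h1.trans h3⟩
  refine ⟨univ.filter fun e => π e ≠ Sum.inr false, by convert hπ1,
    fun s G a b o hac hmono hF => ?_⟩
  have := hC _ _ _ N t L s1 hok pa pb hab _ π s G a b o hac hmono fun w val hval => by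
    rw [← hπ2 w]
    refine hF _ (fun e he => mem_filter.2 ⟨mem_univ _, fun h => ?_⟩) val hval
    simp [h] at he
  linarith

end Pool.Agent.MP_6b3410_lc.H91
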