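import Mathlib
import Pool.Agent.MP_6b3410_lc.H91.Basic

/-!
From compression and the lower bound for free rectangles to circuits.
-/

open Finset

namespace Pool.Agent.MP_6b3410_lc.H91

open Classical

namespace Circ

lemma exists_val {V : Type} {s : ℕ} (G : Fin s → Bool × Bool → Bool) (c d : Fin s → V ⊕ Fin s)
    (hac : ∀ g j : Fin s, (c g = Sum.inr j → j < g) ∧ (d g = Sum.inr j → j < g)) (x : V → Bool) :
    ∃ val : Fin s → Bool, ∀ g, val g = G g (Sum.elim x val (c g), Sum.elim x val (d g)) := by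
  let F : (Fin s → Bool) → Fin s → Bool := fun val g =>
    G g (Sum.elim x val (c g), Sum.elim x val (d g))
  have hF : ∀ u v g, (∀ j, j < g → u j = v j) → F u g = F v g := by
    intro u v g huv
    have e1 : Sum.elim x u (c g) = Sum.elim x v (c g) := by
      rcases h : c g with i | j
      · rfl
      · exact huv j ((hac g j).1 h)
    have e2 : Sum.elim x u (d g) = Sum.elim x v (d g) := by
      rcases h : d g with i | j
      · rfl
      · exact huv j ((hac g j).2 h)
    simp only [F, e1, e2]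
  have : ∀ n : ℕ, ∀ g : Fin s, g.val < n →
      F^[n] (fun _ => false) g = F^[n + 1] (fun _ => false) g := by
    intro n
    induction n with
    | zero => intro g h; omega
    | succ n ih =>
      intro g hg
      rw [Function.iterate_succ_apply' F (n + 1), Function.iterate_succ_apply' F n]
      refine hF _ _ _ fun j hj => ?_
      have := ih j (by have : j.val < g.val := hj; omega)
      rwa [Function.iterate_succ_apply' F n] at this
  exact ⟨F^[s] fun _ => false, fun g => by rw [this s g g.2, Function.iterate_succ_apply']⟩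

lemma gate_cases {G : Bool × Bool → Bool} (hG : Monotone G) {p q p' q' : Bool}
    (h1 : G (p, q) = true) (h2 : G (p', q') = false) :
    (p = true ∧ p' = false) ∨ (q = true ∧ q' = false) := by
  by_contra hc
  have h3 : (p, q) ≤ (p', q') := by
    rw [Prod.mk_le_mk]
    revert hc
    cases p <;> cases q <;> cases p' <;> cases q' <;> simp
  have h4 := hG h3
  rw [h1, h2] at h4
  exact absurd h4 (by decide)

variable {ι T : Type} {H H' : ι → T → Prop}

lemma of_pairs {θ : ℝ} {X Y X' Y' : Finset T} (h : Solv H H' θ X Y)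
    (hp : ∀ x ∈ X', ∀ y ∈ Y', x ∈ X ∧ y ∈ Y) : Solv H H' θ X' Y' := by
  rcases X'.eq_empty_or_nonempty with rfl | ⟨x, hx⟩
  · exact .emptyL _ _
  rcases Y'.eq_empty_or_nonempty with rfl | ⟨y, hy⟩
  · exact .emptyR _ _
  exact h.mono le_rfl (fun x' hx' => (hp x' hx' y hy).1) fun y' hy' => (hp x hx y' hy').2

lemma gate {θ : ℝ} {X Y X₁ Y₁ X₂ Y₂ : Finset T} (h₁ : Solv H H' θ X₁ Y₁) (h₂ : Solv H H' θ X₂ Y₂)
    (hp : ∀ x ∈ X, ∀ y ∈ Y, (x ∈ X₁ ∧ y ∈ Y₁) ∨ (x ∈ X₂ ∧ y ∈ Y₂)) : Solv H H' (θ / 16) X Y := by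
  have e : 4 * (4 * (θ / 16)) = θ := by ring
  have hc : ∀ (Z W : Finset T), ∀ z ∈ Z,
      z ∈ Z.filter (fun z => z ∈ W) ∨ z ∈ Z.filter (fun z => z ∉ W) := fun Z W z hz => by
    by_cases h : z ∈ W <;> simp [hz, h]
  refine Solv.two (hc X X₁) (Solv.two (hc Y Y₁) ?_ ?_).swap (Solv.two (hc Y Y₁) ?_ ?_).swap <;>
    rw [e] <;> refine Solv.swap ?_
  · exact of_pairs h₁ fun x hx y hy => ⟨(mem_filter.1 hx).2, (mem_filter.1 hy).2⟩
  · exact of_pairs h₂ fun x hx y hy => (hp x (mem_filter.1 hx).1 y (mem_filter.1 hy).1).resolve_left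
      fun h => (mem_filter.1 hy).2 h.2
  · exact of_pairs h₂ fun x hx y hy => (hp x (mem_filter.1 hx).1 y (mem_filter.1 hy).1).resolve_left
      fun h => (mem_filter.1 hx).2 h.1
  · exact of_pairs h₂ fun x hx y hy => (hp x (mem_filter.1 hx).1 y (mem_filter.1 hy).1).resolve_left
      fun h => (mem_filter.1 hx).2 h.1

lemma side {ι U A : Type} [Fintype ι] [DecidableEq ι] [Fintype U] [DecidableEq U] [Fintype A]
    [DecidableEq A] {N : ι → Finset U} {t : ℝ} {L s1 : ℕ} (h : Ok A N t L s1)
    {E : Finset (U → A)} (hE : 2 * (E.card : ℝ) ≤ Fintype.card (U → A)) (α : U → A) :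
    Side N s1 (t ^ 3) (s0 s1) (univ \ E) ∅ α := by
  have h1 : ((univ \ E).card : ℝ) + E.card = Fintype.card (U → A) := by
    exact_mod_cast card_sdiff_add_card_eq_card (subset_univ E)
  have h2 : (0 : ℝ) < Fintype.card (U → A) := by
    exact_mod_cast Fintype.card_pos_iff.2 ⟨α⟩
  have ht := h.pos
  refine ⟨card_pos.1 (by exact_mod_cast (by linarith : (0 : ℝ) < (univ \ E).card)),
    fun x _ u hu => absurd hu (notMem_empty u), fun J c _ => ?_, h.closed_empty, by simp⟩
  rcases J.eq_empty_or_nonempty with rfl | hJ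
  · rw [card_empty, pow_zero, mul_one]
    exact_mod_cast card_le_card (cyl_subset _ _ _)
  have h3 := h.ctx_card (ctx_cyl (univ \ E) J c)
  have h4 : 2 * (t ^ 3) ^ J.card ≤ t ^ (10 * J.card) := by
    have h5 : t ^ (10 * J.card) = t ^ (7 * J.card) * (t ^ 3) ^ J.card := by ring
    rw [h5]
    refine mul_le_mul_of_nonneg_right ?_ (by positivity)
    have h6 := hJ.card_pos
    exact le_trans (by linarith [h.t_ge']) (le_self_pow₀ h.one_lt.le (by omega))
  have h5 := mul_le_mul_of_nonneg_left h4 (Nat.cast_nonneg (α := ℝ) (cyl (univ \ E) J c).card)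
  linarith

end Circ

open Circ in
theorem circ (hL : LBStmt) (hC : CompStmt) : CircStmt := by
  intro ι U A _ _ _ _ _ _ N t L s1 h a b hab V π s G c d o hac hG hval
  by_contra hcon
  have ht := h.pos
  have hp : 0 < t ^ (10 * s0 s1) := pow_pos ht _
  choose vx hvx using fun x : U → A =>
    exists_val G c d hac fun e => Sum.elim (fun i => decide (Hit N a i x)) id (π e)
  choose vy hvy using fun y : U → A =>
    exists_val G c d hac fun e => Sum.elim (fun i => !decide (Hit N b i y)) id (π e)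
  let X : V ⊕ Fin s → Finset (U → A) := fun ν => univ.filter fun x =>
    Sum.elim (fun e => Sum.elim (fun i => decide (Hit N a i x)) id (π e)) (vx x) ν = true
  let Y : V ⊕ Fin s → Finset (U → A) := fun ν => univ.filter fun y =>
    Sum.elim (fun e => Sum.elim (fun i => !decide (Hit N b i y)) id (π e)) (vy y) ν = false
  have hin : ∀ e, Solv (Hit N a) (Hit N b) (16 / t ^ (10 * s0 s1)) (X (.inl e)) (Y (.inl e)) := by
    intro e
    rcases he : π e with i | _ | _
    · refine .hit _ _ _ i ((div_le_one hp).2 ?_) (fun x hx => ?_) fun y hy => ?_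
      · exact le_trans (by linarith [h.t_ge']) (le_self_pow₀ h.one_lt.le (by rw [s0]; omega))
      · simpa [X, he] using hx
      · simpa [Y, he] using hy
    · have : X (.inl e) = ∅ := by simp [X, he]
      rw [this]
      exact .emptyL _ _
    · have : Y (.inl e) = ∅ := by simp [Y, he]
      rw [this]
      exact .emptyR _ _
  have key : ∀ n, n ≤ s → ∃ Er Ec : Finset (U → A),
      (Er.card : ℝ) * t ^ s1 ≤ n * Fintype.card (U → A) ∧
      (Ec.card : ℝ) * t ^ s1 ≤ n * Fintype.card (U → A) ∧ ∀ g : Fin s, g.val < n →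
      Solv (Hit N a) (Hit N b) (16 / t ^ (10 * s0 s1)) (X (.inr g) \ Er) (Y (.inr g) \ Ec) := by
    intro n
    induction n with
    | zero => exact fun _ => ⟨∅, ∅, by simp, by simp, fun g hg => by omega⟩
    | succ n ih =>
      intro hn
      obtain ⟨Er, Ec, h1, h2, h3⟩ := ih (by omega)
      let g : Fin s := ⟨n, hn⟩
      have hch : ∀ ν, (∀ j, ν = Sum.inr j → j < g) →
          Solv (Hit N a) (Hit N b) (16 / t ^ (10 * s0 s1)) (X ν \ Er) (Y ν \ Ec) := by
        rintro (e | j) hν
        · exact (hin e).mono le_rfl sdiff_subset sdiff_subset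
        · exact h3 j (hν j rfl)
      have h4 := gate (X := X (.inr g) \ Er) (Y := Y (.inr g) \ Ec)
        (hch (c g) fun j => (hac g j).1) (hch (d g) fun j => (hac g j).2) (fun x hx y hy => by
          obtain ⟨hx1, hx2⟩ := mem_sdiff.1 hx
          obtain ⟨hy1, hy2⟩ := mem_sdiff.1 hy
          have e1 : vx x g = true := (mem_filter.1 hx1).2
          have e2 : vy y g = false := (mem_filter.1 hy1).2
          rw [hvx] at e1
          rw [hvy] at e2
          exact (gate_cases (hG g) e1 e2).imp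
            (fun e => ⟨mem_sdiff.2 ⟨mem_filter.2 ⟨mem_univ _, e.1⟩, hx2⟩,
              mem_sdiff.2 ⟨mem_filter.2 ⟨mem_univ _, e.2⟩, hy2⟩⟩)
            fun e => ⟨mem_sdiff.2 ⟨mem_filter.2 ⟨mem_univ _, e.1⟩, hx2⟩,
              mem_sdiff.2 ⟨mem_filter.2 ⟨mem_univ _, e.2⟩, hy2⟩⟩)
      obtain ⟨Er', Ec', h5, h6, h7⟩ := hC ι U A N t L s1 h a b _ _ fun X' hX Y' hY hF =>
        hL ι U A N t L s1 h a b X' Y' _ hF (le_of_eq (by field_simp)) (h4.mono le_rfl hX hY)
      have hu : ∀ E E' : Finset (U → A), (E.card : ℝ) * t ^ s1 ≤ n * Fintype.card (U → A) →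
          (E'.card : ℝ) * t ^ s1 ≤ Fintype.card (U → A) →
          ((E ∪ E').card : ℝ) * t ^ s1 ≤ (n + 1 : ℕ) * Fintype.card (U → A) := by
        intro E E' e1 e2
        have e3 : ((E ∪ E').card : ℝ) ≤ E.card + E'.card := by exact_mod_cast card_union_le E E'
        have e4 := mul_le_mul_of_nonneg_right e3 (pow_pos ht s1).le
        push_cast
        linarith
      refine ⟨Er ∪ Er', Ec ∪ Ec', hu _ _ h1 h5, hu _ _ h2 h6, fun j hj => ?_⟩
      rcases Nat.lt_succ_iff_lt_or_eq.1 hj with h8 | h8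
      · exact (h3 j h8).mono le_rfl (sdiff_subset_sdiff Subset.rfl subset_union_left)
          (sdiff_subset_sdiff Subset.rfl subset_union_left)
      · have : j = g := Fin.ext h8
        rw [this]
        exact h7.mono le_rfl (fun x hx => by simp only [mem_sdiff, mem_union] at hx ⊢; tauto)
          fun x hx => by simp only [mem_sdiff, mem_union] at hx ⊢; tauto
  obtain ⟨Er, Ec, h1, h2, h3⟩ := key s le_rfl
  have hX : X (.inr o) = univ := eq_univ_of_forall fun x => mem_filter.2 ⟨mem_univ _,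
    (hval _ _ (hvx x)).2 ⟨x, fun i hi => decide_eq_true hi⟩⟩
  have hY : Y (.inr o) = univ := eq_univ_of_forall fun y => mem_filter.2 ⟨mem_univ _, by
    refine Bool.eq_false_iff.2 fun e => ?_
    obtain ⟨x, hx⟩ := (hval _ _ (hvy y)).1 e
    obtain ⟨i, h4, h5⟩ := hab x y
    simpa [h5] using hx i h4⟩
  have hs : ∀ E : Finset (U → A), (E.card : ℝ) * t ^ s1 ≤ s * Fintype.card (U → A) →
      2 * (E.card : ℝ) ≤ Fintype.card (U → A) := fun E hE => by
    refine le_of_mul_le_mul_right ?_ (pow_pos ht s1)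
    have := mul_le_mul_of_nonneg_right (not_le.1 hcon).le
      (Nat.cast_nonneg (α := ℝ) (Fintype.card (U → A)))
    linarith
  obtain ⟨z⟩ := h.nonempty
  have h4 := h3 o o.2
  rw [hX, hY] at h4
  refine hL ι U A N t L s1 h a b _ _ _ ⟨∅, ∅, fun _ => z, fun _ => z, side h (hs _ h1) _,
    side h (hs _ h2) _, fun x _ => ?_, fun x _ => ?_⟩ ?_ h4
  · simp [ker, h.inn_empty]
  · simp [ker, h.inn_empty]
  · rw [div_mul_cancel₀ _ hp.ne']
    norm_num

end Pool.Agent.MP_6b3410_lc.H91
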