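import Pool.Agent.MP_6b3410_lc.H91.Basic

/-!
Compression: a rectangle without free subrectangles has a cheap protocol after small deletions.
-/

open Finset

namespace Pool.Agent.MP_6b3410_lc.H91

open Classical

namespace CompL

variable {ι U A : Type} [Fintype ι] [DecidableEq ι] [Fintype U] [DecidableEq U] [Fintype A]
  [DecidableEq A] {N : ι → Finset U} {t : ℝ} {L s1 : ℕ}

/-- the budget invariant -/
def Inv (N : ι → Finset U) (t : ℝ) (s1 : ℕ) (X Y : Finset (U → A)) (I J : Finset U) (ρ : ℝ)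
    (h : ℕ) : Prop :=
  (X.card : ℝ) ^ (1 / 20 : ℝ) * (Y.card : ℝ) ^ (1 / 20 : ℝ) ≤
    ρ * t ^ s1 * (t ^ phi N s1 3 I * t ^ phi N s1 3 J) * 160 ^ h *
      ((Fintype.card (U → A) : ℝ) ^ (1 / 20 : ℝ) * (Fintype.card (U → A) : ℝ) ^ (1 / 20 : ℝ))

/-- the conclusion at a state with budget `ρ` -/
def Goal (N : ι → Finset U) (t : ℝ) (s1 : ℕ) (a b : ι → U → A) (X Y : Finset (U → A)) (ρ : ℝ) :
    Prop :=
  ∃ Er Ec : Finset (U → A), (Er.card : ℝ) ≤ ρ * Fintype.card (U → A) ∧
    (Ec.card : ℝ) ≤ ρ * Fintype.card (U → A) ∧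
    Solv (Hit N a) (Hit N b) (16 / t ^ (10 * s0 s1) / t ^ s1 / ρ) (X \ Er) (Y \ Ec)

omit [Fintype ι] [DecidableEq ι] in
lemma Goal.swap {a b : ι → U → A} {X Y : Finset (U → A)} {ρ : ℝ} (h : Goal N t s1 a b X Y ρ) :
    Goal N t s1 b a Y X ρ := by
  obtain ⟨Er, Ec, h1, h2, h3⟩ := h
  exact ⟨Ec, Er, h2, h1, h3.swap⟩

omit [Fintype ι] [DecidableEq ι] in
lemma goal_of_small {a b : ι → U → A} {X Y : Finset (U → A)} {ρ : ℝ} (hρ : 0 < ρ)
    (h : (X.card : ℝ) ≤ ρ * Fintype.card (U → A)) : Goal N t s1 a b X Y ρ :=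
  ⟨X, ∅, h, by simp only [card_empty, Nat.cast_zero]; positivity, by
    rw [sdiff_self]; exact .emptyL _ _⟩

omit [Fintype A] [DecidableEq A] [Fintype U] in
lemma free_swap {a b : ι → U → A} {X Y : Finset (U → A)} (h : Free N t s1 a b X Y) :
    Free N t s1 b a Y X := by
  obtain ⟨I, J, α, β, h1, h2, h3, h4⟩ := h
  exact ⟨J, I, β, α, h2, h1, h4, h3⟩

lemma small (hO : Ok A N t L s1) {X Y : Finset (U → A)} {I J : Finset U} {α β : U → A} {ρ : ℝ}
    {h : ℕ} (hX : Ctx X I α) (hY : Ctx Y J β) (hρ : 0 < ρ) (hh : h ≤ I.card + J.card + 2)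
    (hI : Inv N t s1 X Y I J ρ h) (h1 : ρ * Fintype.card (U → A) < X.card)
    (h2 : ρ * Fintype.card (U → A) < Y.card) :
    I.card ≤ s0 s1 ∧ J.card ≤ s0 s1 ∧ 1 ≤ ρ * t ^ (10 * s0 s1) := by
  have := hO.nonempty
  have ht := hO.pos
  have hM : (0 : ℝ) < Fintype.card (U → A) := by exact_mod_cast Fintype.card_pos
  have hXp : (0 : ℝ) < X.card := (mul_pos hρ hM).trans h1
  have hYp : (0 : ℝ) < Y.card := (mul_pos hρ hM).trans h2
  have hl : 0 < Real.log t := Real.log_pos hO.one_lt
  have l1 := Real.log_lt_log (mul_pos hρ hM) h1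
  have l2 := Real.log_lt_log (mul_pos hρ hM) h2
  rw [Real.log_mul hρ.ne' hM.ne'] at l1 l2
  have l3 := Real.log_le_log (by positivity) (hO.ctx_card hX)
  have l4 := Real.log_le_log (by positivity) (hO.ctx_card hY)
  rw [Real.log_mul (by positivity) (by positivity), Real.log_pow] at l3 l4
  have l5 := Real.log_le_log (by positivity) hI
  rw [Real.log_mul (by positivity) (by positivity), Real.log_mul (by positivity) (by positivity),
    Real.log_mul (by positivity) (by positivity), Real.log_mul (by positivity) (by positivity),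
    Real.log_mul (by positivity) (by positivity), Real.log_mul (by positivity) (by positivity),
    Real.log_mul (by positivity) (by positivity), Real.log_rpow hXp, Real.log_rpow hYp,
    Real.log_rpow hM, Real.log_pow, Real.log_pow, Real.log_pow, Real.log_pow] at l5
  have l6 : 4 * Real.log 160 ≤ Real.log t := by
    have := Real.log_le_log (by positivity) (show (160 : ℝ) ^ 4 ≤ t from
      le_trans (by norm_num) hO.t_ge')
    rw [Real.log_pow] at this
    exact_mod_cast this
  have l7 : (0 : ℝ) ≤ Real.log 160 := Real.log_nonneg (by norm_num)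
  have p1 : (phi N s1 3 I : ℝ) ≤ 4 * I.card := by exact_mod_cast hO.phi_le 3 I
  have p2 : (phi N s1 3 J : ℝ) ≤ 4 * J.card := by exact_mod_cast hO.phi_le 3 J
  have p3 : (h : ℝ) ≤ I.card + J.card + 2 := by exact_mod_cast hh
  have q1 := mul_le_mul_of_nonneg_right p1 hl.le
  have q2 := mul_le_mul_of_nonneg_right p2 hl.le
  have q3 := mul_le_mul_of_nonneg_right p3 l7
  have q4 := mul_le_mul_of_nonneg_left l6
    (show (0 : ℝ) ≤ I.card + J.card + 2 by positivity)
  push_cast at l3 l4
  have key : -Real.log ρ < (20 * s1 + 10) * Real.log t := by nlinarith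
  have hs : ∀ K : Finset U, 10 * (K.card : ℝ) * Real.log t < (20 * s1 + 10) * Real.log t →
      K.card ≤ s0 s1 := fun K hK => by
    have h3 := lt_of_mul_lt_mul_right hK hl.le
    have h4 : 10 * K.card < 20 * s1 + 10 := by exact_mod_cast h3
    rw [s0]
    omega
  refine ⟨hs I (by linarith), hs J (by linarith), ?_⟩
  rw [← Real.log_nonneg_iff (by positivity), Real.log_mul hρ.ne' (by positivity), Real.log_pow, s0]
  push_cast
  linarith

lemma main (hP : PartStmt) (hO : Ok A N t L s1) (fuel : ℕ) :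
    ∀ (a b : ι → U → A) (X Y : Finset (U → A)) (I J : Finset U) (α β : U → A) (ρ : ℝ) (h : ℕ),
      (∀ X' ⊆ X, ∀ Y' ⊆ Y, ¬ Free N t s1 a b X' Y') → Ctx X I α → Ctx Y J β →
      Avoid N b Y (ker N a I α) →
      (h = 0 ∨ (Dense (t ^ 3) Y J ∧ (J.card ≤ sz s1 → Closed N (kk s1) J))) →
      h ≤ I.card + J.card + 1 → 2 * Fintype.card U + 2 ≤ h + fuel → 0 < ρ →
      Inv N t s1 X Y I J ρ h → Goal N t s1 a b X Y ρ := by
  induction fuel with
  | zero =>
    intro a b X Y I J α β ρ h _ _ _ _ _ hh hf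
    have := card_le_univ I
    have := card_le_univ J
    omega
  | succ fuel ih =>
    intro a b X Y I J α β ρ h hNF hX hY hav hd hh hf hρ hI
    have := hO.nonempty
    have ht := hO.pos
    have hM : (0 : ℝ) < Fintype.card (U → A) := by exact_mod_cast Fintype.card_pos
    by_cases c1 : (X.card : ℝ) ≤ ρ * Fintype.card (U → A)
    · exact goal_of_small hρ c1
    by_cases c2 : (Y.card : ℝ) ≤ ρ * Fintype.card (U → A)
    · exact (goal_of_small hρ c2).swap
    rw [not_le] at c1 c2
    obtain ⟨-, -, hρt⟩ := small hO hX hY hρ (by omega) hI c1 c2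
    have hXp : (0 : ℝ) < X.card := (mul_pos hρ hM).trans c1
    have hXe : (0 : ℝ) < (X.card : ℝ) ^ (1 / 20 : ℝ) := by positivity
    obtain ⟨F, hF, hcov, hsum⟩ := hP ι U A N t L s1 hO
      (X.filter fun x => Disjoint (hits N a x) (ker N b J β)) I α (hX.mono (filter_subset _ _))
    obtain ⟨w, hw⟩ : ∃ w : Finset (U → A) × Finset U × (U → A) → ℝ, ∀ e, w e =
        1 / 20 * (t ^ phi N s1 3 I / t ^ phi N s1 3 e.2.1) * (e.1.card : ℝ) ^ (1 / 20 : ℝ) /
          (2 * (X.card : ℝ) ^ (1 / 20 : ℝ)) := ⟨_, fun _ => rfl⟩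
    have hwp : ∀ e ∈ F, 0 < w e := fun e he => by
      have : (0 : ℝ) < e.1.card := by exact_mod_cast (hF e he).2.1.card_pos
      rw [hw]
      positivity
    have hws : ∑ e ∈ F, w e ≤ 1 / 2 := by
      simp only [hw]
      rw [← sum_div, div_le_iff₀ (by positivity)]
      refine hsum.trans ?_
      have : ((X.filter fun x => Disjoint (hits N a x) (ker N b J β)).card : ℝ) ^ (1 / 20 : ℝ) ≤
          (X.card : ℝ) ^ (1 / 20 : ℝ) :=
        Real.rpow_le_rpow (Nat.cast_nonneg _) (by exact_mod_cast card_filter_le _ _) (by norm_num)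
      linarith
    have hchild : ∀ e ∈ F, Goal N t s1 a b e.1 Y (ρ * w e / 4) := fun e he => by
      obtain ⟨e1, e2, e3, e4, e5, e6⟩ := hF e he
      have hρe : 0 < ρ * w e / 4 := by have := hwp e he; positivity
      have heX : e.1 ⊆ X := e1.trans (filter_subset _ _)
      have hav' : Avoid N a e.1 (ker N b J β) := fun x hx => (mem_filter.1 (e1 hx)).2
      have hI' : Inv N t s1 Y e.1 J e.2.1 (ρ * w e / 4) (h + 1) := by
        unfold Inv at hI ⊢
        have hq : (0 : ℝ) ≤ (e.1.card : ℝ) ^ (1 / 20 : ℝ) / (X.card : ℝ) ^ (1 / 20 : ℝ) := by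
          positivity
        have h3 := mul_le_mul_of_nonneg_right hI hq
        refine le_trans (le_of_eq ?_) (h3.trans (le_of_eq ?_))
        · field_simp
        · rw [hw, pow_succ]
          field_simp
          ring
      by_cases d1 : (e.1.card : ℝ) ≤ ρ * w e / 4 * Fintype.card (U → A)
      · exact goal_of_small hρe d1
      by_cases d2 : (Y.card : ℝ) ≤ ρ * w e / 4 * Fintype.card (U → A)
      · exact (goal_of_small hρe d2).swap
      rw [not_le] at d1 d2
      have hIe := card_le_card e3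
      obtain ⟨sJ, sI, -⟩ := small hO hY e4 hρe (by omega) hI' d2 d1
      have hgrow : h + 1 ≤ J.card + e.2.1.card + 1 := by
        rcases hd with rfl | ⟨hd1, hd2⟩
        · omega
        · by_contra hcon
          have heq : I = e.2.1 := eq_of_subset_of_card_le e3 (by omega)
          have hYne : Y.Nonempty := by
            rw [← card_pos]
            exact_mod_cast (mul_pos hρ hM).trans c2
          obtain ⟨x, hx⟩ := id e2
          have hk : ker N a e.2.1 e.2.2 = ker N a I α := by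
            have h4 := hX x (heX hx)
            rw [heq] at h4 ⊢
            exact ker_congr (e4 x hx) h4
          exact hNF e.1 heX Y Subset.rfl ⟨e.2.1, J, e.2.2, β,
            ⟨e2, e4, e5, e6 (sI.trans (s0_le_sz s1)), sI⟩,
            ⟨hYne, hY, hd1, hd2 (sJ.trans (s0_le_sz s1)), sJ⟩, hav', hk ▸ hav⟩
      exact (ih b a Y e.1 J e.2.1 β e.2.2 _ (h + 1)
        (fun Y' hY' X' hX' hf' => hNF X' (hX'.trans heX) Y' hY' (free_swap hf')) hY e4 hav'
        (Or.inr ⟨e5, e6⟩) hgrow (by omega) hρe hI').swap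
    choose! Er Ec hEr hEc hS using hchild
    have hcard : ∀ E : Finset (U → A) × Finset U × (U → A) → Finset (U → A),
        (∀ e ∈ F, ((E e).card : ℝ) ≤ ρ * w e / 4 * Fintype.card (U → A)) →
        ((F.biUnion E).card : ℝ) ≤ ρ * Fintype.card (U → A) := fun E hE => by
      have h3 : ((F.biUnion E).card : ℝ) ≤ ∑ e ∈ F, ((E e).card : ℝ) := by
        exact_mod_cast card_biUnion_le
      refine h3.trans ((sum_le_sum hE).trans ?_)
      rw [← sum_mul, ← sum_div, ← mul_sum]
      refine mul_le_mul_of_nonneg_right ?_ hM.le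
      nlinarith
    refine ⟨F.biUnion Er, F.biUnion Ec, hcard Er hEr, hcard Ec hEc, ?_⟩
    refine Solv.two (X₁ := X.filter fun x => ¬ Disjoint (hits N a x) (ker N b J β))
      (X₂ := (X.filter fun x => Disjoint (hits N a x) (ker N b J β)) \ F.biUnion Er)
      (fun x hx => ?_) ?_ ?_
    · obtain ⟨hx1, hx2⟩ := mem_sdiff.1 hx
      by_cases hdx : Disjoint (hits N a x) (ker N b J β)
      · exact Or.inr (mem_sdiff.2 ⟨mem_filter.2 ⟨hx1, hdx⟩, hx2⟩)
      · exact Or.inl (mem_filter.2 ⟨hx1, hdx⟩)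
    · have hn : (0 : ℝ) < Fintype.card ι := by exact_mod_cast hO.n_pos
      refine .splitL _ _ _ ι (ker N b J β) (fun i => X.filter fun x => Hit N a i x)
        (fun _ => 1 / (2 * Fintype.card ι)) (fun _ _ => by positivity) ?_ (fun x hx => ?_)
        fun i hi => ?_
      · have h3 : ((ker N b J β).card : ℝ) ≤ Fintype.card ι := by exact_mod_cast card_le_univ _
        rw [sum_const, nsmul_eq_mul, mul_one_div, div_le_iff₀ (by positivity)]
        linarith
      · obtain ⟨hx1, hx2⟩ := mem_filter.1 hx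
        obtain ⟨i, hi1, hi2⟩ := not_disjoint_iff.1 hx2
        exact ⟨i, hi2, mem_filter.2 ⟨hx1, mem_hits.1 hi1⟩⟩
      · refine .hit _ _ _ i ?_ (fun x hx => (mem_filter.1 hx).2) fun y hy => ?_
        · have h3 := hO.n_le
          have h4 : 4 * (16 / t ^ (10 * s0 s1) / t ^ s1 / ρ) / (1 / (2 * Fintype.card ι)) =
              128 * Fintype.card ι / (ρ * t ^ (10 * s0 s1) * t ^ s1) := by
            field_simp
            ring
          rw [h4, div_le_one (by positivity)]
          have h5 := mul_le_mul_of_nonneg_right hρt (pow_pos ht s1).le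
          linarith
        · rw [ker_eq (hY y (mem_sdiff.1 hy).1)] at hi
          exact mem_hits.1 (mem_inter.1 hi).2
    · refine .splitL _ _ _ _ F (fun e => e.1 \ Er e) w hwp hws (fun x hx => ?_) fun e he => ?_
      · obtain ⟨hx1, hx2⟩ := mem_sdiff.1 hx
        obtain ⟨e, he, hxe⟩ := hcov x hx1
        exact ⟨e, he, mem_sdiff.2 ⟨hxe, fun h3 => hx2 (mem_biUnion.2 ⟨e, he, h3⟩)⟩⟩
      · refine (hS e he).mono (le_of_eq ?_) Subset.rfl
          (sdiff_subset_sdiff Subset.rfl (subset_biUnion_of_mem Ec he))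
        have := hwp e he
        field_simp

end CompL

theorem comp (hP : PartStmt) : CompStmt := by
  intro ι U A _ _ _ _ _ _ N t L s1 hO a b X Y hNF
  have := hO.nonempty
  have ht := hO.pos
  have hts : 0 < t ^ s1 := pow_pos ht _
  have hphi : phi N s1 3 (∅ : Finset U) = 0 := by simp [phi, hO.inn_empty]
  obtain ⟨α⟩ : Nonempty (U → A) := inferInstance
  obtain ⟨Er, Ec, h1, h2, h3⟩ := CompL.main hP hO (2 * Fintype.card U + 2) a b X Y ∅ ∅ α α
    (1 / t ^ s1) 0 hNF (fun _ _ u hu => absurd hu (notMem_empty u))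
    (fun _ _ u hu => absurd hu (notMem_empty u))
    (fun y _ => by simp [ker, hO.inn_empty]) (Or.inl rfl) (by omega) (by omega) (by positivity)
    (by
      unfold CompL.Inv
      rw [hphi, one_div_mul_cancel hts.ne']
      simp only [pow_zero, mul_one, one_mul]
      have hc : ∀ Z : Finset (U → A), (Z.card : ℝ) ^ (1 / 20 : ℝ) ≤
          (Fintype.card (U → A) : ℝ) ^ (1 / 20 : ℝ) := fun Z =>
        Real.rpow_le_rpow (Nat.cast_nonneg _) (by exact_mod_cast card_le_univ Z) (by norm_num)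
      exact mul_le_mul (hc X) (hc Y) (by positivity) (by positivity))
  rw [one_div_mul_eq_div, le_div_iff₀ hts] at h1 h2
  refine ⟨Er, Ec, h1, h2, h3.mono (le_of_eq ?_) Subset.rfl Subset.rfl⟩
  field_simp

end Pool.Agent.MP_6b3410_lc.H91
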