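import Mathlib
import Pool.Agent.MP_6b3410_lc.H91.Basic

/-!
There is no spread sample of dangerous sets.
-/

open Finset

namespace Pool.Agent.MP_6b3410_lc.H91

open Classical Pool.Agent.MP_6b3410_lc.H5

namespace Corex

variable {ι U A : Type} [Fintype ι] [DecidableEq ι] [Fintype U] [DecidableEq U] [Fintype A]
  [DecidableEq A]

/-- the free part of the graph of `x` -/
def gr (I : Finset U) (x : U → A) : Finset (U × A) := (univ \ I).image fun u => (u, x u)

omit [Fintype A] in
lemma mem_gr {I : Finset U} {x : U → A} {e : U × A} : e ∈ gr I x ↔ e.1 ∉ I ∧ x e.1 = e.2 := by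
  obtain ⟨u, c⟩ := e
  simp only [gr, mem_image, mem_sdiff, mem_univ, true_and, Prod.mk.injEq]
  constructor
  · rintro ⟨v, hv, rfl, rfl⟩; exact ⟨hv, rfl⟩
  · rintro ⟨h1, h2⟩; exact ⟨u, h1, rfl, h2⟩

omit [Fintype A] in
lemma card_gr (I : Finset U) (x : U → A) : (gr I x).card ≤ Fintype.card U :=
  card_image_le.trans (card_le_univ _)

lemma halve {c r n m : ℝ} {k : ℕ} (hk : k ≠ 0) (hc : 0 ≤ c) (hr : 0 ≤ r) (h : c * r ^ k ≤ n)
    (hn : n ≤ 2 * m) : c * (r / 2) ^ k ≤ m := by
  have h1 : (2 : ℝ) ≤ 2 ^ k := le_self_pow₀ (by norm_num) hk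
  have h2 : 0 ≤ c * r ^ k := by positivity
  rw [div_pow, ← mul_div_assoc, div_le_iff₀ (by positivity)]
  nlinarith

omit [Fintype A] in
lemma spread_gr {t : ℝ} (ht : 0 ≤ t) {X X' : Finset (U → A)} {I : Finset U} (hd : Dense t X I)
    (hX : X' ⊆ X) (hc : (X.card : ℝ) ≤ 2 * X'.card) : Spread X' (gr I) (t / 2) := by
  intro T
  rcases T.eq_empty_or_nonempty with rfl | hT
  · rw [card_empty, pow_zero, mul_one]
    exact_mod_cast card_filter_le _ _
  rcases (X'.filter fun x => T ⊆ gr I x).eq_empty_or_nonempty with h0 | ⟨x0, hx0⟩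
  · have h0' : (X'.filter fun x => T ⊆ gr I x).card = 0 := by rw [h0]; rfl
    have : ((X'.filter fun x => T ⊆ gr I x).card : ℝ) * (t / 2) ^ T.card ≤ X'.card := by
      rw [h0']; simp
    convert this
  have hT0 : T ⊆ gr I x0 := (mem_filter.1 hx0).2
  have hJ : (T.image Prod.fst).card = T.card := by
    refine card_image_of_injOn fun e he e' he' h => Prod.ext h ?_
    rw [← (mem_gr.1 (hT0 he)).2, ← (mem_gr.1 (hT0 he')).2, h]
  have hdis : Disjoint (T.image Prod.fst) I := by
    rw [disjoint_left]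
    intro u hu
    obtain ⟨e, he, rfl⟩ := mem_image.1 hu
    exact (mem_gr.1 (hT0 he)).1
  have h1 := hd (T.image Prod.fst) x0 hdis
  rw [hJ] at h1
  have h2 : (X'.filter fun x => T ⊆ gr I x) ⊆ cyl X (T.image Prod.fst) x0 := by
    intro x hx
    rw [mem_filter] at hx
    refine mem_cyl.2 ⟨hX hx.1, fun u hu => ?_⟩
    obtain ⟨e, he, rfl⟩ := mem_image.1 hu
    rw [(mem_gr.1 (hx.2 he)).2, (mem_gr.1 (hT0 he)).2]
  have h3 : ((X'.filter fun x => T ⊆ gr I x).card : ℝ) * t ^ T.card ≤ X.card := by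
    refine le_trans (mul_le_mul_of_nonneg_right ?_ (by positivity)) h1
    exact_mod_cast card_le_card h2
  have := halve (card_pos.2 hT).ne' (by positivity) ht h3 hc
  convert this

omit [Fintype ι] in
lemma spread_sub {κ : Type} [Fintype κ] {g : κ → Finset ι} {r : ℝ} (hr : 0 ≤ r)
    (hs : Spread univ g r) (F : Finset κ) (D : Finset ι)
    (hF : ((univ : Finset κ).card : ℝ) ≤ 2 * F.card) : Spread F (fun k => g k \ D) (r / 2) := by
  intro T
  rcases T.eq_empty_or_nonempty with rfl | hT
  · rw [card_empty, pow_zero, mul_one]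
    exact_mod_cast card_filter_le _ _
  have h1 := hs T
  have h2 : ((F.filter fun k => T ⊆ g k \ D).card : ℝ) * r ^ T.card
      ≤ ((univ : Finset κ).card : ℝ) := by
    refine le_trans (mul_le_mul_of_nonneg_right ?_ (by positivity)) h1
    refine Nat.cast_le.2 (card_le_card fun k hk => ?_)
    exact mem_filter.2 ⟨mem_univ _, (mem_filter.1 hk).2.trans sdiff_subset⟩
  have := halve (card_pos.2 hT).ne' (by positivity) hr h2 hF
  convert this

end Corex

open Corex

theorem core (hM : MeasStmt) (hH : HitStmt) : CoreStmt := by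
  intro ι U A _ _ _ _ _ _ N t L s1 hOk a X I α hside j g hg hsp
  choose G hG using fun k => (hg k).1.2.2
  have hL := hOk.L_pos
  have hL' : (1 : ℝ) ≤ L := by exact_mod_cast hL
  have ht := hOk.pos
  have hsig : (1000000 : ℝ) * (L : ℝ) ^ 2 ≤ sig L := by exact_mod_cast sig_ge' hL
  have hsig1 : (1 : ℝ) ≤ sig L := by nlinarith
  have hgam1 : (1 : ℝ) ≤ gam L := hsig1.trans (by exact_mod_cast sig_le_gam hL)
  have hMc : ((univ : Finset (Fin (gam L ^ j))).card : ℝ) = (gam L : ℝ) ^ j := by simp
  have hM0 : (0 : ℝ) < (gam L : ℝ) ^ j := by positivity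
  -- the small sets
  set B : Fin (gam L ^ j) → Finset (U → A) := fun k =>
    X.filter fun x => Disjoint (hits N a x) (g k) ∧ G k (hits N a x \ inn N I) with hB
  have hBc : ∀ k, ((B k).card : ℝ) ≤ X.card / (4 * (gam L : ℝ) ^ j) := by
    intro k
    rw [le_div_iff₀ (by positivity)]
    refine le_trans (mul_le_mul_of_nonneg_left ?_ (by positivity)) (hG k).2.le
    have := pow_le_pow_right₀ hgam1 (hg k).2
    linarith
  set X' := X \ univ.biUnion B with hX'
  have hXpos : (0 : ℝ) < X.card := by exact_mod_cast hside.ne.card_pos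
  have hX'c : (X.card : ℝ) ≤ 2 * X'.card := by
    have h1 : X.card ≤ X'.card + (univ.biUnion B).card := card_le_card_sdiff_add_card
    have h2 : ((univ.biUnion B).card : ℝ) ≤ ∑ k, ((B k).card : ℝ) := by
      exact_mod_cast card_biUnion_le
    have h3 : ∑ k, ((B k).card : ℝ) ≤ ∑ _k : Fin (gam L ^ j), X.card / (4 * (gam L : ℝ) ^ j) :=
      sum_le_sum fun k _ => hBc k
    rw [sum_const, nsmul_eq_mul, hMc] at h3
    have h4 : (gam L : ℝ) ^ j * (X.card / (4 * (gam L : ℝ) ^ j)) = X.card / 4 := by field_simp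
    have h5 : (X.card : ℝ) ≤ X'.card + (univ.biUnion B).card := by exact_mod_cast h1
    linarith
  have hX'ne : X'.Nonempty := by
    rw [← card_pos]
    have : (0 : ℝ) < X'.card := by linarith
    exact_mod_cast this
  -- densities
  set p : ℝ := 4096 * L / t with hp
  have hp0 : 0 < p := by positivity
  have hp1 : p ≤ 1 := by
    rw [hp, div_le_one ht]
    have h1 := hOk.t_big
    have h2 : (sig L : ℝ) ≤ (sig L : ℝ) ^ 6 := le_self_pow₀ hsig1 (by norm_num)
    nlinarith
  set q : ℝ := 1 / (2 * L) with hq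
  have hq0 : 0 ≤ q := by positivity
  have hqL : (L : ℝ) * q = 1 / 2 := by rw [hq]; field_simp
  have hq1 : q ≤ 1 := by nlinarith
  have hb1 : 1 / 2 ≤ (1 - q) ^ L := by
    have := one_add_mul_le_pow (a := -q) (by linarith) L
    rw [← sub_eq_add_neg] at this
    linarith
  have hb2 : (1 - q) ^ L ≤ 1 := pow_le_one₀ (by linarith) (by linarith)
  set q' : ℝ := 1 - (1 - q) ^ L with hq'
  have hmuq : ∀ V : Finset (U × A), 0 ≤ mu q' V := mu_nonneg (by linarith) (by linarith)
  have hmup : ∀ V : Finset (U × A), 0 ≤ mu p V := mu_nonneg hp0.le hp1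
  obtain ⟨hM1, hM2, -, hM4⟩ := hM (U × A)
  have hbig : (2 / 3 : ℝ) ^ L * Fintype.card U ≤ 1 / 8 := by
    refine le_trans ?_ hOk.L_big
    have : (0 : ℝ) ≤ (2 / 3 : ℝ) ^ L * Fintype.card U := by positivity
    nlinarith
  -- third failure
  have h3 := hM4 (p * (1 - q')) (t / 2) L (Fintype.card U) (U → A) X' (gr I)
    (mul_pos hp0 (by linarith)) (by nlinarith) hL
    (by
      have e : p * (1 - q') * (t / 2) = 2048 * L * (1 - q) ^ L := by
        rw [hp, hq']; field_simp; ring
      rw [e]; nlinarith)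
    hX'ne (spread_gr ht.le hside.dense sdiff_subset hX'c) fun x _ => card_gr I x
  rw [← hM2] at h3
  -- pointwise lower bound
  have hpt : ∀ W : Finset (U × A),
      7 / 8 - 7 / (4 * (gam L : ℝ) ^ j) * ∑ k, (if ¬ G k (terms N a I α W) then (1 : ℝ) else 0)
        ≤ pr (mu q') (fun V => ¬ ∃ x ∈ X', gr I x ⊆ W \ V) := by
    intro W
    set F := univ.filter fun k => G k (terms N a I α W) with hF
    have hcnt : ∑ k, (if ¬ G k (terms N a I α W) then (1 : ℝ) else 0)
        = (gam L : ℝ) ^ j - F.card := by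
      have := card_filter_add_card_filter_not (s := (univ : Finset (Fin (gam L ^ j))))
        (fun k => G k (terms N a I α W))
      rw [sum_boole, ← hMc, ← this]
      push_cast
      ring
    rw [hcnt]
    have hFle : (F.card : ℝ) ≤ (gam L : ℝ) ^ j := by
      rw [← hMc]; exact_mod_cast card_filter_le _ _
    by_cases hgood : (gam L : ℝ) ^ j ≤ 2 * F.card
    · have hFne : F.Nonempty := by
        rw [← card_pos]
        have : (0 : ℝ) < F.card := by linarith
        exact_mod_cast this
      have h2 := hH (U × A) ι (Fin (gam L ^ j)) (fun i => (N i \ I).image fun u => (u, a i u))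
        (univ \ inn N I) L (sz s1) hL hOk.s_lt
        (fun i => card_image_le.trans ((card_le_card sdiff_subset).trans (hOk.deg i)))
        (fun C hC hc => by
          refine (hside.closed C ?_ hc).trans
            (le_trans (card_le_card ?_) (card_image_le (f := Prod.fst)))
          · exact disjoint_left.2 fun i hi => (mem_sdiff.1 (hC hi)).2
          · intro u hu
            obtain ⟨h1, h2⟩ := mem_sdiff.1 hu
            obtain ⟨i, hi, hu'⟩ := mem_biUnion.1 h1
            exact mem_image.2 ⟨(u, a i u), mem_biUnion.2 ⟨i, hi,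
              mem_image.2 ⟨u, mem_sdiff.2 ⟨hu', h2⟩, rfl⟩⟩, rfl⟩)
        F (fun k => g k \ inn N I) hFne
        (fun k _ => ⟨sdiff_subset_sdiff (subset_univ _) Subset.rfl,
          (card_le_card sdiff_subset).trans (hg k).1.1⟩)
        (spread_sub (by linarith) hsp F _ (by rw [hMc]; exact hgood))
      rw [hM1] at h2
      have h2' : (L : ℝ) * ((2 / 3) ^ L * (sz s1 : ℕ)) ≤ 1 / 8 := by
        refine le_trans ?_ hOk.L_big
        have a1 : ((sz s1 : ℕ) : ℝ) ≤ Fintype.card U := by exact_mod_cast hOk.s_le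
        have a2 : (0 : ℝ) ≤ (2 / 3 : ℝ) ^ L * L := by positivity
        nlinarith
      have hone : pr (mu q') (fun _ : Finset (U × A) => True) = 1 := by
        simp only [pr, if_true]; exact sum_mu q'
      have hor := (pr_mono hmuq (E := fun _ => True)
        (F := fun V => (¬ ∃ k ∈ F, ∀ i ∈ g k \ inn N I,
          (((N i \ I).image fun u => (u, a i u)) ∩ V).Nonempty) ∨ ¬ ∃ x ∈ X', gr I x ⊆ W \ V)
        fun V _ => by
          by_contra hcon
          rw [not_or, not_not, not_not] at hcon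
          obtain ⟨⟨k, hk, hhit⟩, x, hx, hxW⟩ := hcon
          have hxX := (mem_sdiff.1 hx).1
          have hag : Agree I α x := hside.ctx x hxX
          refine (mem_sdiff.1 hx).2 (mem_biUnion.2 ⟨k, mem_univ _, mem_filter.2 ⟨hxX, ?_, ?_⟩⟩)
          · rw [disjoint_left]
            intro i hi hik
            by_cases hin : i ∈ inn N I
            · refine disjoint_left.1 (hg k).1.2.1 hik ?_
              rw [ker_eq hag]
              exact mem_inter.2 ⟨hin, hi⟩
            · obtain ⟨e, he⟩ := hhit i (mem_sdiff.2 ⟨hik, hin⟩)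
              obtain ⟨he1, he2⟩ := mem_inter.1 he
              obtain ⟨u, hu, rfl⟩ := mem_image.1 he1
              have : (u, a i u) ∈ gr I x :=
                mem_gr.2 ⟨(mem_sdiff.1 hu).2, mem_hits.1 hi u (mem_sdiff.1 hu).1⟩
              exact (mem_sdiff.1 (hxW this)).2 he2
          · refine (hG k).1.1 _ _ (fun i hi => ?_) (mem_filter.1 hk).2
            obtain ⟨hi1, hi2⟩ := mem_sdiff.1 hi
            have hh := mem_hits.1 hi1
            refine mem_filter.2 ⟨mem_univ _, fun h => hi2 (mem_inn.2 h), fun u hu huI => ?_,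
              fun u hu huI => ?_⟩
            · rw [← hag u huI, hh u hu]
            · exact (mem_sdiff.1 (hxW (mem_gr.2 ⟨huI, hh u hu⟩))).1).trans (pr_or_le hmuq _ _)
      rw [hone] at hor
      have : 0 ≤ 7 / (4 * (gam L : ℝ) ^ j) * ((gam L : ℝ) ^ j - F.card) :=
        mul_nonneg (by positivity) (by linarith)
      linarith
    · refine le_trans ?_ (pr_nonneg hmuq _)
      rw [not_le] at hgood
      have e : 7 / (4 * (gam L : ℝ) ^ j) * ((gam L : ℝ) ^ j / 2) = 7 / 8 := by field_simp; ring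
      have : 7 / (4 * (gam L : ℝ) ^ j) * ((gam L : ℝ) ^ j / 2)
          ≤ 7 / (4 * (gam L : ℝ) ^ j) * ((gam L : ℝ) ^ j - F.card) :=
        mul_le_mul_of_nonneg_left (by linarith) (by positivity)
      linarith
  have h4 := sum_le_sum (s := (univ : Finset (Finset (U × A))))
    fun W _ => mul_le_mul_of_nonneg_left (hpt W) (hmup W)
  have h5 : ∑ W : Finset (U × A), mu p W * (7 / 8 - 7 / (4 * (gam L : ℝ) ^ j)
        * ∑ k, (if ¬ G k (terms N a I α W) then (1 : ℝ) else 0))
      = 7 / 8 - 7 / (4 * (gam L : ℝ) ^ j)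
        * ∑ k, pr (mu p) (fun W : Finset (U × A) => ¬ G k (terms N a I α W)) := by
    have e1 : ∑ k, pr (mu p) (fun W : Finset (U × A) => ¬ G k (terms N a I α W))
        = ∑ W : Finset (U × A), mu p W
          * ∑ k, (if ¬ G k (terms N a I α W) then (1 : ℝ) else 0) := by
      simp only [pr, mul_sum]
      rw [sum_comm]
      refine sum_congr rfl fun W _ => sum_congr rfl fun k _ => ?_
      by_cases h : G k (terms N a I α W) <;> simp [h]
    rw [e1, mul_sum]
    simp only [mul_sub]
    rw [sum_sub_distrib, ← sum_mul, sum_mu, one_mul]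
    congr 1
    exact sum_congr rfl fun W _ => by ring
  have h6 : ∑ k, pr (mu p) (fun W : Finset (U × A) => ¬ G k (terms N a I α W))
      ≤ ∑ _k : Fin (gam L ^ j), (1 / 8 : ℝ) := sum_le_sum fun k _ => (hG k).1.2
  rw [sum_const, nsmul_eq_mul, hMc] at h6
  have h7 := mul_le_mul_of_nonneg_left h6
    (show (0 : ℝ) ≤ 7 / (4 * (gam L : ℝ) ^ j) by positivity)
  have e : 7 / (4 * (gam L : ℝ) ^ j) * ((gam L : ℝ) ^ j * (1 / 8)) = 7 / 32 := by
    field_simp; ring
  rw [h5] at h4
  linarith

end Pool.Agent.MP_6b3410_lc.H91
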