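import Mathlib
import Pool.Agent.MP_6b3410_lc.H91.Basic

/-!
The danger lemma: the family of sets without a dangerous subset is likely.
-/

open Finset

namespace Pool.Agent.MP_6b3410_lc.H91

open Classical Pool.Agent.MP_6b3410_lc.H5

section aux

variable {ι U A : Type} [Fintype ι] [DecidableEq ι] [Fintype U] [DecidableEq U] [Fintype A]
  [DecidableEq A] {N : ι → Finset U} {t : ℝ} {L s1 : ℕ}

/-- the pairs that the free terms of the variables in `C` need -/
def dgPairs (N : ι → Finset U) (b : ι → U → A) (J : Finset U) (C : Finset ι) : Finset (U × A) :=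
  C.biUnion fun i => (N i \ J).image fun u => (u, b i u)

omit [DecidableEq ι] [Fintype A] in
lemma dgPairs_subset {b : ι → U → A} {J : Finset U} {β : U → A} {C : Finset ι}
    {W : Finset (U × A)} (h : C ⊆ terms N b J β W) : dgPairs N b J C ⊆ W := by
  intro e he
  obtain ⟨i, hi, he⟩ := mem_biUnion.1 he
  obtain ⟨u, hu, rfl⟩ := mem_image.1 he
  exact (mem_filter.1 (h hi)).2.2.2 u (mem_sdiff.1 hu).1 (mem_sdiff.1 hu).2

omit [DecidableEq ι] [Fintype A] in
lemma dgPairs_card {b : ι → U → A} {J : Finset U} {β : U → A} {C : Finset ι}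
    {W : Finset (U × A)} {K : ℕ} (hJ : Closed N K J) (h : C ⊆ terms N b J β W)
    (hK : C.card ≤ K) : C.card ≤ (dgPairs N b J C).card := by
  have h1 : Disjoint C (inn N J) := disjoint_left.2 fun i hi hi' =>
    (mem_filter.1 (h hi)).2.1 (mem_inn.1 hi')
  refine (hJ C h1 hK).trans (le_trans (card_le_card ?_) (card_image_le (f := Prod.fst)))
  intro u hu
  obtain ⟨i, hi, hui⟩ := mem_biUnion.1 (mem_sdiff.1 hu).1
  exact mem_image.2 ⟨(u, b i u), mem_biUnion.2 ⟨i, hi,
    mem_image.2 ⟨u, mem_sdiff.2 ⟨hui, (mem_sdiff.1 hu).2⟩, rfl⟩⟩, rfl⟩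

omit [DecidableEq A] in
lemma Ok.dg_small (h : Ok A N t L s1) : 4096 * L / t * (4 * (sig L : ℝ)) * (8 * L) ≤ 1 := by
  have h1 : (1000000 : ℝ) * (L : ℝ) ^ 2 ≤ sig L := by exact_mod_cast sig_ge' h.L_pos
  have hL : (1 : ℝ) ≤ L := by exact_mod_cast h.L_pos
  have h2 : (1 : ℝ) ≤ sig L := by nlinarith
  have h3 : (sig L : ℝ) ^ 2 ≤ t := (pow_le_pow_right₀ h2 (by norm_num)).trans h.t_big
  have h4 : 4096 * L / t * (4 * (sig L : ℝ)) * (8 * L) = 131072 * (L : ℝ) ^ 2 * sig L / t := by
    ring
  rw [h4, div_le_one h.pos]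
  nlinarith [sq_nonneg (L : ℝ)]

end aux

lemma dg_spread_empty {ι κ : Type} [Fintype ι] [DecidableEq ι] (F : Finset κ) (r : ℝ) :
    Spread F (fun _ => (∅ : Finset ι)) r := by
  intro T
  by_cases hT : T = ∅
  · subst hT
    simp
  · rw [filter_false_of_mem fun _ _ h => hT (subset_empty.1 h)]
    simp

theorem dang (hM : MeasStmt) (hS : SubStmt) (hC : CoreStmt) : DangStmt := by
  intro ι U A _ _ _ _ _ _ N t L s1 hok a X I α hside
  have h0 : ¬ Dang N t L s1 a X I α ∅ := fun h =>
    hC ι U A N t L s1 hok a X I α hside 0 (fun _ => ∅) (fun _ => ⟨h, Nat.zero_le _⟩)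
      (dg_spread_empty _ _)
  refine ⟨h0, fun b J β hJ => ⟨fun B B' hB h S hS => h S (hS.trans hB), ?_⟩⟩
  by_contra hcon
  rw [not_le] at hcon
  have hL : (1 : ℝ) ≤ L := by exact_mod_cast hok.L_pos
  have hsig : (1000000 : ℝ) * (L : ℝ) ^ 2 ≤ sig L := by exact_mod_cast sig_ge' hok.L_pos
  have hsig1 : (1 : ℝ) ≤ sig L := by nlinarith
  set p : ℝ := 4096 * L / t with hp
  have hp0 : 0 ≤ p := div_nonneg (by positivity) hok.pos.le
  have hsm : p * (4 * (sig L : ℝ)) * (8 * L) ≤ 1 := hok.dg_small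
  have hq0 : 0 ≤ p * (4 * (sig L : ℝ)) := by positivity
  have hq1 : p * (4 * (sig L : ℝ)) ≤ 1 := by nlinarith
  have hp1 : p ≤ 1 := by nlinarith
  have hmu : ∀ W : Finset (U × A), 0 ≤ mu p W := mu_nonneg hp0 hp1
  -- a dangerous subset of the terms, when there is one
  have hch : ∀ W : Finset (U × A), ∃ S : Finset ι,
      (¬ ∀ S ⊆ terms N b J β W, ¬ Dang N t L s1 a X I α S) →
        S ⊆ terms N b J β W ∧ Dang N t L s1 a X I α S := by
    intro W
    by_cases h : ∀ S ⊆ terms N b J β W, ¬ Dang N t L s1 a X I α S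
    · exact ⟨∅, fun h' => absurd h h'⟩
    · have h' := h
      push Not at h'
      obtain ⟨S, h1, h2⟩ := h'
      exact ⟨S, fun _ => ⟨h1, h2⟩⟩
  choose T hT using hch
  set E : ℕ → Finset (U × A) → Prop := fun k W =>
    (¬ ∀ S ⊆ terms N b J β W, ¬ Dang N t L s1 a X I α S) ∧ Nat.log 2 (T W).card = k with hE
  have hne : ∀ k W, E k W → (T W).card ≠ 0 := fun k W h hc =>
    h0 (card_eq_zero.1 hc ▸ (hT W h.1).2)
  have hsum : 1 / 8 < ∑ k ∈ range L, pr (mu p) (E k) := by
    refine hcon.trans_le (le_trans (pr_mono hmu fun W hW => ?_) (pr_exists_le hmu _ _))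
    refine ⟨_, mem_range.2 ?_, hW, rfl⟩
    exact Nat.log_lt_of_lt_pow (hne _ W ⟨hW, rfl⟩) ((hT W hW).2.1.trans_lt hok.s_lt)
  obtain ⟨k, -, hk⟩ : ∃ k ∈ range L, 1 / (8 * (L : ℝ)) < pr (mu p) (E k) := by
    apply exists_lt_of_sum_lt
    rw [sum_const, card_range, nsmul_eq_mul]
    refine lt_of_eq_of_lt ?_ hsum
    field_simp
  set m : ℝ := pr (mu p) (E k) with hm
  have hm0 : 0 < m := lt_trans (by positivity) hk
  have hm1 : 1 ≤ 8 * L * m := by
    rw [div_lt_iff₀ (by positivity)] at hk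
    linarith
  set ν : Finset (U × A) → ℝ := fun W => (if E k W then mu p W else 0) / m with hν
  have hν0 : ∀ W, 0 ≤ ν W := fun W => by
    refine div_nonneg ?_ hm0.le
    split_ifs
    exacts [hmu W, le_rfl]
  have hν1 : ∑ W, ν W = 1 := by
    rw [← sum_div, div_eq_one_iff_eq hm0.ne', hm, pr]
    exact sum_congr rfl fun W _ => by congr
  have hνE : ∀ W, ν W ≠ 0 → E k W := fun W h => by
    by_contra h'
    exact h (by simp only [hν, h', if_false, zero_div])
  obtain ⟨g, hg, hsp⟩ := hS (Finset (U × A)) ι ν T (sig L) (2 ^ k)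
    (by exact_mod_cast (show (64 : ℝ) ≤ sig L by nlinarith)) Nat.one_le_two_pow hν0 hν1
    (fun W hW => by
      have h1 := Nat.lt_pow_succ_log_self (b := 2) (by norm_num) (T W).card
      rw [(hνE W hW).2, pow_succ] at h1
      omega)
    (fun C => by
      by_cases hC0 : C = ∅
      · subst hC0
        simp [hν1]
      by_cases hex : ∃ W, ν W ≠ 0 ∧ C ⊆ T W
      · obtain ⟨W₀, hW₀, hCW⟩ := hex
        have hd := hT W₀ (hνE W₀ hW₀).1
        have hc1 : C.card ≤ kk s1 := by
          have := (card_le_card hCW).trans hd.2.1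
          rw [kk]
          omega
        have hc2 := dgPairs_card hJ (hCW.trans hd.1) hc1
        have hc3 : (∑ W, if C ⊆ T W then ν W else 0) ≤
            pr (mu p) (fun W => dgPairs N b J C ⊆ W) / m := by
          rw [pr, sum_div]
          refine sum_le_sum fun W _ => ?_
          by_cases h1 : C ⊆ T W ∧ E k W
          · have h2 := dgPairs_subset (h1.1.trans (hT W h1.2.1).1)
            simp only [hν, h1.1, h1.2, h2, if_true, le_refl]
          · have h2 : (if C ⊆ T W then ν W else 0) = 0 := by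
              split_ifs with h3
              · by_contra h4
                exact h1 ⟨h3, hνE W h4⟩
              · rfl
            rw [h2]
            refine div_nonneg ?_ hm0.le
            split_ifs
            exacts [hmu W, le_rfl]
        rw [(hM (U × A)).2.2.1] at hc3
        have hc4 : p ^ (dgPairs N b J C).card ≤ p ^ C.card := pow_le_pow_of_le_one hp0 hp1 hc2
        have hc5 : (p * (4 * (sig L : ℝ))) ^ C.card ≤ p * (4 * (sig L : ℝ)) :=
          pow_le_of_le_one hq0 hq1 (card_eq_zero.not.2 hC0)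
        calc _ ≤ p ^ C.card / m * (4 * (sig L : ℝ)) ^ C.card :=
              mul_le_mul_of_nonneg_right (hc3.trans (div_le_div_of_nonneg_right hc4 hm0.le))
                (by positivity)
          _ = (p * (4 * (sig L : ℝ))) ^ C.card / m := by rw [mul_pow p]; ring
          _ ≤ p * (4 * (sig L : ℝ)) / m := div_le_div_of_nonneg_right hc5 hm0.le
          _ ≤ 1 := by
              rw [div_le_one hm0]
              nlinarith
      · push Not at hex
        rw [sum_eq_zero, zero_mul]
        · exact zero_le_one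
        · intro W _
          split_ifs with h1
          · by_contra h2
            exact hex W h2 h1
          · rfl)
  refine hC ι U A N t L s1 hok a X I α hside (2 ^ k) (fun i => T (g i)) (fun i => ?_) hsp
  have h1 := hνE _ (hg i)
  refine ⟨(hT _ h1.1).2, ?_⟩
  rw [← h1.2]
  exact Nat.pow_log_le_self 2 (hne _ _ h1)

end Pool.Agent.MP_6b3410_lc.H91
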