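import Mathlib
import Pool.Agent.MP_6b3410_lc.H91.Basic

/-!
Extraction of a dense closed cylinder, and the partition into such cylinders.
-/

open Finset

namespace Pool.Agent.MP_6b3410_lc.H91

open Classical

namespace Ext

variable {ι U A : Type} [Fintype ι] [DecidableEq ι] [Fintype U] [DecidableEq U] [Fintype A]
  [DecidableEq A] {N : ι → Finset U} {t : ℝ} {L s1 : ℕ}

omit [Fintype U] [Fintype A] [DecidableEq A] in
lemma cyl_cyl (R : Finset (U → A)) {I J : Finset U} (h : Disjoint J I) (α c : U → A) :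
    cyl (cyl R I α) J c = cyl R (I ∪ J) (J.piecewise c α) := by
  ext x
  simp only [mem_cyl, Agree, mem_union]
  constructor
  · rintro ⟨⟨h1, h2⟩, h3⟩
    refine ⟨h1, fun u hu => ?_⟩
    by_cases hJ : u ∈ J
    · rw [piecewise_eq_of_mem _ _ _ hJ]; exact h3 u hJ
    · rw [piecewise_eq_of_notMem _ _ _ hJ]; exact h2 u (hu.resolve_right hJ)
  · rintro ⟨h1, h2⟩
    refine ⟨⟨h1, fun u hu => ?_⟩, fun u hu => ?_⟩
    · have hJ : u ∉ J := fun hJ => disjoint_left.1 h hJ hu
      rw [h2 u (Or.inl hu), piecewise_eq_of_notMem _ _ _ hJ]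
    · rw [h2 u (Or.inr hu), piecewise_eq_of_mem _ _ _ hu]

omit [Fintype U] [DecidableEq U] [Fintype A] [DecidableEq A] in
lemma cyl_self {R : Finset (U → A)} {I : Finset U} {α : U → A} (h : Ctx R I α) :
    cyl R I α = R := filter_true_of_mem h

lemma pigeon [Nonempty A] (X : Finset (U → A)) (D : Finset U) :
    ∃ c, X.card ≤ (cyl X D c).card * Fintype.card A ^ D.card := by
  obtain ⟨c, -, hc⟩ := exists_max_image (univ : Finset (U → A)) (fun c => (cyl X D c).card)
    univ_nonempty
  refine ⟨c, ?_⟩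
  have h := card_le_mul_card_image_of_maps_to (s := X) (t := (univ : Finset (D → A)))
    (f := fun x (u : D) => x u) (fun _ _ => mem_univ _) (cyl X D c).card fun g _ => by
      refine le_trans (card_le_card fun x hx => ?_)
        (hc (fun u => if h : u ∈ D then g ⟨u, h⟩ else Classical.arbitrary A) (mem_univ _))
      obtain ⟨h1, h2⟩ := mem_filter.1 hx
      refine mem_cyl.2 ⟨h1, fun u hu => ?_⟩
      simp only [dif_pos hu, ← h2]
  simpa [Fintype.card_fun] using h

omit [DecidableEq ι] [Fintype U] in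
lemma phi_union (k : ℕ) {I J : Finset U} (h : Disjoint J I) :
    phi N s1 k I + k * J.card ≤ phi N s1 k (I ∪ J) := by
  have h1 : (inn N I).card ≤ (inn N (I ∪ J)).card := card_le_card (inn_mono subset_union_left)
  have h2 : (I ∪ J).card = I.card + J.card := card_union_of_disjoint h.symm
  have h3 := min_le_min_right (cap s1) h1
  simp only [phi, h2, mul_add]
  omega

omit [DecidableEq A] in
lemma phi_close (h : Ok A N t L s1) (k : ℕ) {I : Finset U} (hI : I.card ≤ sz s1) {C : Finset ι}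
    (hC : Disjoint C (inn N I)) (hK : C.card ≤ kk s1) :
    phi N s1 k I + 10 * C.card ≤ phi N s1 k (I ∪ (C.biUnion N \ I)) := by
  have h0 := h.inn_le hI
  have h1 : (inn N I).card + C.card ≤ (inn N (I ∪ (C.biUnion N \ I))).card := by
    rw [← card_union_of_disjoint hC.symm]
    refine card_le_card (union_subset (inn_mono subset_union_left) fun i hi => mem_inn.2 ?_)
    rw [union_sdiff_self_eq_union]
    exact (subset_biUnion_of_mem N hi).trans subset_union_right
  have h2 : k * I.card ≤ k * (I ∪ (C.biUnion N \ I)).card :=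
    Nat.mul_le_mul_left _ (card_le_card subset_union_left)
  have h3 : cap s1 = 13 * sz s1 + 1 := rfl
  have h4 : kk s1 = 12 * sz s1 + 1 := rfl
  simp only [phi]
  omega

lemma telescope {p q r : ℝ} (hq : 0 ≤ q) (hqp : q ≤ p) (hp : 0 < p) (hr : r ≤ q / p) :
    1 / 20 * r * q ^ (1 / 20 : ℝ) + (p - q) ^ (1 / 20 : ℝ) ≤ p ^ (1 / 20 : ℝ) := by
  have h1 : q / p ≤ 1 := (div_le_one hp).2 hqp
  have h0 : 0 ≤ q / p := div_nonneg hq hp.le
  have h2 : p - q = p * (1 + -(q / p)) := by field_simp; ring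
  have h3 := rpow_one_add_le_one_add_mul_self (s := -(q / p)) (p := 1 / 20) (by linarith)
    (by norm_num) (by norm_num)
  have h4 : q ^ (1 / 20 : ℝ) ≤ p ^ (1 / 20 : ℝ) := Real.rpow_le_rpow hq hqp (by norm_num)
  have h5 : 0 ≤ q ^ (1 / 20 : ℝ) := Real.rpow_nonneg hq _
  have h6 : 0 ≤ p ^ (1 / 20 : ℝ) := Real.rpow_nonneg hp.le _
  rw [h2, Real.mul_rpow hp.le (by linarith)]
  have h7 := mul_le_mul_of_nonneg_left h3 h6
  have h8 : r * q ^ (1 / 20 : ℝ) ≤ q / p * p ^ (1 / 20 : ℝ) :=
    (mul_le_mul_of_nonneg_right hr h5).trans (mul_le_mul_of_nonneg_left h4 h0)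
  nlinarith

end Ext

theorem extract : ExtractStmt := by
  intro ι U A _ _ _ _ _ _ N t L s1 h k R I α hR hc
  have ht := h.one_lt
  have ht0 := h.pos
  have := h.nonempty
  obtain ⟨⟨I', α'⟩, hm, hmax⟩ := exists_max_image
    ((univ : Finset (Finset U × (U → A))).filter fun e => I ⊆ e.1)
    (fun e => ((cyl R e.1 e.2).card : ℝ) * t ^ phi N s1 k e.1) ⟨(I, α), by simp⟩
  have hI : I ⊆ I' := (mem_filter.1 hm).2
  have hmax' : ∀ (J : Finset U) (c : U → A), I' ⊆ J →
      ((cyl R J c).card : ℝ) * t ^ phi N s1 k J ≤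
        ((cyl R I' α').card : ℝ) * t ^ phi N s1 k I' := fun J c hJ =>
    hmax (J, c) (mem_filter.2 ⟨mem_univ _, hI.trans hJ⟩)
  have hbase : (R.card : ℝ) * t ^ phi N s1 k I ≤
      ((cyl R I' α').card : ℝ) * t ^ phi N s1 k I' := by
    have := hmax (I, α) (by simp)
    simpa only [Ext.cyl_self hc] using this
  have hpos : (0 : ℝ) < (cyl R I' α').card := by
    have h1 : (0 : ℝ) < R.card := by exact_mod_cast hR.card_pos
    have h2 := lt_of_lt_of_le (mul_pos h1 (pow_pos ht0 _)) hbase
    exact (mul_pos_iff_of_pos_right (pow_pos ht0 _)).1 h2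
  refine ⟨I', α', hI, ?_, fun J c hJ => ?_, fun hs C hC hK => ?_, hbase⟩
  · exact card_pos.1 (by exact_mod_cast hpos)
  · rw [Ext.cyl_cyl R hJ]
    have h1 := hmax' (I' ∪ J) (J.piecewise c α') subset_union_left
    have h2 : t ^ (phi N s1 k I' + k * J.card) ≤ t ^ phi N s1 k (I' ∪ J) :=
      pow_le_pow_right₀ ht.le (Ext.phi_union k hJ)
    have h3 := (mul_le_mul_of_nonneg_left h2 (Nat.cast_nonneg _)).trans h1
    rw [pow_add, pow_mul, mul_comm (t ^ phi N s1 k I'), ← mul_assoc] at h3
    exact le_of_mul_le_mul_right h3 (pow_pos ht0 _)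
  · by_contra hlt
    push Not at hlt
    obtain ⟨c, hc'⟩ := Ext.pigeon (cyl R I' α') (C.biUnion N \ I')
    rw [Ext.cyl_cyl R sdiff_disjoint] at hc'
    have h1 := hmax' (I' ∪ (C.biUnion N \ I')) ((C.biUnion N \ I').piecewise c α')
      subset_union_left
    have h2 : t ^ (phi N s1 k I' + (10 * (C.biUnion N \ I').card + 1)) ≤
        t ^ phi N s1 k (I' ∪ (C.biUnion N \ I')) :=
      pow_le_pow_right₀ ht.le (le_trans (by omega) (Ext.phi_close h k hs hC hK))
    have h3 := (mul_le_mul_of_nonneg_left h2 (Nat.cast_nonneg _)).trans h1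
    rw [pow_add, mul_comm (t ^ phi N s1 k I'), ← mul_assoc] at h3
    have h4 := le_of_mul_le_mul_right h3 (pow_pos ht0 _)
    have h5 : ((cyl R I' α').card : ℝ) ≤
        (cyl R (I' ∪ (C.biUnion N \ I')) ((C.biUnion N \ I').piecewise c α')).card *
          t ^ (10 * (C.biUnion N \ I').card) := by
      rw [pow_mul, ← h.card_A]
      exact_mod_cast hc'
    rw [pow_succ, ← mul_assoc] at h4
    nlinarith

theorem part (h : ExtractStmt) : PartStmt := by
  intro ι U A _ _ _ _ _ _ N t L s1 hok R I α hc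
  have ht0 := hok.pos
  induction hn : R.card using Nat.strong_induction_on generalizing R with
  | _ n ih =>
    subst hn
    rcases R.eq_empty_or_nonempty with rfl | hR
    · exact ⟨∅, by simp, by simp, by simp⟩
    obtain ⟨I', α', hI, hne, hd, hcl, hle⟩ := h ι U A N t L s1 hok 3 R I α hR hc
    have hsub := cyl_subset R I' α'
    have hlt : (R \ cyl R I' α').card < R.card := by
      rw [card_sdiff_of_subset hsub]
      have := hne.card_pos
      have := card_le_card hsub
      omega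
    obtain ⟨F, h1, h2, h3⟩ := ih _ hlt (R \ cyl R I' α') (hc.mono sdiff_subset) rfl
    have hnot : (cyl R I' α', I', α') ∉ F := fun hF => by
      obtain ⟨x, hx⟩ := hne
      exact (mem_sdiff.1 ((h1 _ hF).1 hx)).2 hx
    refine ⟨insert (cyl R I' α', I', α') F, fun e he => ?_, fun x hx => ?_, ?_⟩
    · rcases mem_insert.1 he with rfl | he
      · exact ⟨hsub, hne, hI, ctx_cyl _ _ _, hd, hcl⟩
      · exact ⟨(h1 e he).1.trans sdiff_subset, (h1 e he).2⟩
    · by_cases hx' : x ∈ cyl R I' α'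
      · exact ⟨_, mem_insert_self _ _, hx'⟩
      · obtain ⟨e, he, hxe⟩ := h2 x (mem_sdiff.2 ⟨hx, hx'⟩)
        exact ⟨e, mem_insert_of_mem he, hxe⟩
    · rw [sum_insert hnot]
      have hp : (0 : ℝ) < R.card := by exact_mod_cast hR.card_pos
      have hq : ((cyl R I' α').card : ℝ) ≤ R.card := by exact_mod_cast card_le_card hsub
      have hr : t ^ phi N s1 3 I / t ^ phi N s1 3 I' ≤ ((cyl R I' α').card : ℝ) / R.card := by
        rw [div_le_div_iff₀ (pow_pos ht0 _) hp]
        linarith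
      have h4 := Ext.telescope (Nat.cast_nonneg _) hq hp hr
      rw [card_sdiff_of_subset hsub, Nat.cast_sub (card_le_card hsub)] at h3
      linarith

end Pool.Agent.MP_6b3410_lc.H91
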