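import Mathlib
import Pool.Agent.MP_6b3410_lc.H91.Spec

/-!
Assembly of the final bound from the module statements.
-/

open Finset

namespace Pool.Agent.MP_6b3410_lc.H91

open Classical

theorem glue (hC : CircStmt) (hH : HyperStmt) (hP : PatStmt) (hJ : ProjStmt) (hN : ParStmt) :
    ∃ C n₀ : ℕ, ∀ n : ℕ, n₀ ≤ n →
      ∃ (F : Finset {p : Fin n × Fin n // p.1 < p.2})
        (ρ : {p : Fin n × Fin n // p.1 < p.2} → Bool), F.card ≤ n ∧
      ∀ (s : ℕ) (G : Fin s → Bool × Bool → Bool)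
        (a b : Fin s → ({p : Fin n × Fin n // p.1 < p.2} ⊕ Fin s)) (o : Fin s),
        (∀ g j : Fin s, (a g = Sum.inr j → j < g) ∧ (b g = Sum.inr j → j < g)) →
        (∀ g : Fin s, Monotone (G g)) →
        (∀ x : {p : Fin n × Fin n // p.1 < p.2} → Bool, (∀ e, e ∉ F → x e = ρ e) →
          ∀ val : Fin s → Bool,
          (∀ g : Fin s, val g = G g (Sum.elim x val (a g), Sum.elim x val (b g))) →
          (val o = true ↔
            (SimpleGraph.fromRel
              (fun i j : Fin n => ∃ h : i < j, x ⟨(i, j), h⟩ = true)).IsHamiltonian)) →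
        Real.exp (n / Real.log n ^ C) ≤ (s : ℝ) := by
  obtain ⟨C, M₀, hM⟩ := hN
  refine ⟨C, M₀, fun M hMM => ?_⟩
  obtain ⟨n, v, t, L, s1, h1, h2, h3, h4, h5, h6, h7, h8, h9, h10, h11, h12, h13, h14⟩ := hM M hMM
  obtain ⟨N, hd, he⟩ := hH n v (cap s1) h1 h3 h7
  obtain ⟨pa, pb, hab⟩ := hP n v (t ^ 10) N (Nat.one_le_pow _ _ h2) hd h6
  obtain ⟨π, hπ1, hπ2⟩ := hJ n v (t ^ 10) M N pa (h1.trans h3) hd h4 h3 h5
  have hok : Ok (Fin (t ^ 10)) N (t : ℝ) L s1 :=
    ⟨by simp, hd, he, h8, by simpa using h9, by simpa using h10, h11, by exact_mod_cast h12,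
      by simpa using (show (256 * n : ℝ) ≤ (t : ℝ) ^ s1 by exact_mod_cast h13),
      by simpa using h1.trans h3⟩
  refine ⟨univ.filter fun e => ∃ i, π e = Sum.inl i, fun e => Sum.elim (fun _ => false) id (π e),
    le_trans (by convert hπ1) (by omega : 2 * n ≤ M), fun s G a b o hac hmono hF => ?_⟩
  have := hC _ _ _ N t L s1 hok pa pb hab _ π s G a b o hac hmono fun w val hval => by
    rw [← hπ2 w]
    refine hF _ (fun e he => ?_) val hval
    cases hπ : π e with
    | inl i => exact absurd (mem_filter.2 ⟨mem_univ _, i, hπ⟩) he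
    | inr c => simp [hπ]
  linarith

end Pool.Agent.MP_6b3410_lc.H91
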