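import Pool.Agent.MP_6b3410_lc.H91.Basic

/-!
The hitting lemma: a union of a few random layers meets all sets `E i`, `i ∈ S a`, for some member
`a` of a spread family.
-/

open Finset

namespace Pool.Agent.MP_6b3410_lc.H91

open Classical Pool.Agent.MP_6b3410_lc.H5

namespace HitL

section prob

variable {X : Type*} [Fintype X] [DecidableEq X]

lemma ex_succ (p : ℝ) (m : ℕ) (f : Finset X → ℝ) :
    ∑ Z : Finset X, nu p (m + 1) Z * f Z =
      ∑ V : Finset X, mu p V * ∑ W : Finset X, nu p m W * f (V ∪ W) := by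
  simp only [nu, Finset.sum_mul, Finset.mul_sum]
  rw [Finset.sum_comm]
  refine Finset.sum_congr rfl fun V _ => ?_
  rw [Finset.sum_comm]
  refine Finset.sum_congr rfl fun W _ => ?_
  simp only [ite_mul, zero_mul]
  rw [Finset.sum_ite_eq]
  simp [mul_assoc]

lemma pr_add (p : ℝ) (m' m : ℕ) (E : Finset X → Prop) :
    pr (nu p (m' + m)) E = ∑ W : Finset X, nu p m' W * pr (nu p m) (fun U => E (W ∪ U)) := by
  induction m' generalizing E with
  | zero =>
    rw [Finset.sum_eq_single ∅]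
    · simp [nu]
    · intro W _ hW; simp [nu, hW]
    · simp
  | succ m' ih =>
    rw [show m' + 1 + m = (m' + m) + 1 by ring, pr_succ, ex_succ]
    refine Finset.sum_congr rfl fun V _ => ?_
    rw [ih]
    simp only [Finset.union_assoc]

lemma sum_nu (p : ℝ) (m : ℕ) : ∑ W : Finset X, nu p m W = 1 := by
  have := pr_true (X := X) p m
  simpa [pr] using this

lemma pr_le_one {p : ℝ} (h0 : 0 ≤ p) (h1 : p ≤ 1) (m : ℕ) (E : Finset X → Prop) :
    pr (nu p m) E ≤ 1 :=
  (pr_mono (nu_nonneg h0 h1 m) fun _ _ => trivial).trans (pr_true p m).le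

/-- two stages: the first fails on `B`, the second fails with probability at most `c` -/
lemma pr_two {p : ℝ} (h0 : 0 ≤ p) (h1 : p ≤ 1) (m' m : ℕ) (E B : Finset X → Prop) {c : ℝ}
    (hc : 0 ≤ c) (h : ∀ W, ¬ B W → pr (nu p m) (fun U => E (W ∪ U)) ≤ c) :
    pr (nu p (m' + m)) E ≤ pr (nu p m') B + c := by
  rw [pr_add]
  have e : pr (nu p m') B + c =
      ∑ W : Finset X, ((if B W then nu p m' W else 0) + nu p m' W * c) := by
    rw [Finset.sum_add_distrib, ← Finset.sum_mul, sum_nu, one_mul, pr]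
  rw [e]
  refine Finset.sum_le_sum fun W _ => ?_
  have hW := nu_nonneg h0 h1 m' W
  by_cases hB : B W
  · rw [if_pos hB]
    have := mul_le_mul_of_nonneg_left (pr_le_one h0 h1 m fun U => E (W ∪ U)) hW
    have := mul_nonneg hW hc
    linarith
  · rw [if_neg hB, zero_add]
    exact mul_le_mul_of_nonneg_left (h W hB) hW

end prob

variable {Ω ι A : Type} [Fintype Ω] [DecidableEq Ω] [Fintype ι] [DecidableEq ι]

/-- the indices whose set lies inside `U` -/
def St (E : ι → Finset Ω) (D : Finset ι) (U : Finset Ω) : Finset ι := D.filter fun i => E i ⊆ U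

/-- the class of members that cover `U` and have trace `L` on `St U` -/
noncomputable def Cl (E : ι → Finset Ω) (D : Finset ι) (F : Finset A) (S : A → Finset ι)
    (U : Finset Ω) (L : Finset ι) : Finset A :=
  F.filter fun a => U ⊆ (S a).biUnion E ∧ S a ∩ St E D U = L

omit [Fintype Ω] [Fintype ι] [DecidableEq ι] in
lemma St_mono (E : ι → Finset Ω) (D : Finset ι) {U U' : Finset Ω} (h : U ⊆ U') :
    St E D U ⊆ St E D U' := fun _ hi =>
  mem_filter.2 ⟨(mem_filter.1 hi).1, (mem_filter.1 hi).2.trans h⟩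

omit [Fintype Ω] [Fintype ι] [DecidableEq ι] in
lemma St_card {E : ι → Finset Ω} {D : Finset ι} {K : ℕ}
    (hcl : ∀ C ⊆ D, C.card ≤ K → C.card ≤ (C.biUnion E).card) {U : Finset Ω}
    (hU : U.card + 1 ≤ K) : (St E D U).card ≤ U.card := by
  by_contra h
  obtain ⟨C, hC, e⟩ := exists_subset_card_eq (s := St E D U) (n := U.card + 1) (by omega)
  have h1 := hcl C (hC.trans (filter_subset _ _)) (by omega)
  have h2 : (C.biUnion E).card ≤ U.card :=
    card_le_card (biUnion_subset.2 fun i hi => (mem_filter.1 (hC hi)).2)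
  omega

/-- a large class whose remaining sets have a spread system of representatives -/
lemma core {E : ι → Finset Ω} {D : Finset ι} {s b : ℕ} (hne : ∀ i ∈ D, (E i).Nonempty)
    (h12 : ∀ i ∈ D, (E i).card ≤ 12)
    (hcl : ∀ C ⊆ D, C.card ≤ 12 * s + 1 → C.card ≤ (C.biUnion E).card) {r : ℝ} (hr : 1 ≤ r)
    {F : Finset A} {S : A → Finset ι} (hF : F.Nonempty)
    (hS : ∀ a ∈ F, S a ⊆ D ∧ (S a).card ≤ s ∧ (S a).card ≤ b) :
    ∃ (G : Finset A) (L : Finset ι) (R : A → Finset Ω), G ⊆ F ∧ G.Nonempty ∧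
      (F.card : ℝ) ≤ G.card * (2 * r) ^ (12 * b) ∧ Spread G R r ∧
      ∀ a ∈ G, L ⊆ S a ∧ (R a).card ≤ s ∧
        ∀ V, R a ⊆ V → ∀ i ∈ S a \ L, ¬ Disjoint (E i) V := by
  obtain ⟨⟨U, L⟩, -, hmax⟩ := exists_max_image (univ : Finset (Finset Ω × Finset ι))
    (fun x => ((Cl E D F S x.1 x.2).card : ℝ) * r ^ x.1.card * 2 ^ (St E D x.1).card)
    ⟨(∅, ∅), mem_univ _⟩
  have hr0 : 0 < r := by linarith
  have hSt0 : St E D ∅ = ∅ := filter_eq_empty_iff.2 fun i hi h =>
    (hne i hi).ne_empty (subset_empty.1 h)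
  have h0 : (F.card : ℝ) ≤ (Cl E D F S U L).card * r ^ U.card * 2 ^ (St E D U).card := by
    have := hmax (∅, ∅) (mem_univ _)
    simpa [Cl, hSt0] using this
  have hFpos : (0 : ℝ) < F.card := by exact_mod_cast hF.card_pos
  have hG : (Cl E D F S U L).Nonempty := by
    rw [nonempty_iff_ne_empty]
    intro e
    rw [e] at h0
    simp only [card_empty, Nat.cast_zero, zero_mul] at h0
    linarith
  have hUc : ∀ c, (∀ a ∈ F, (S a).card ≤ c) → U.card ≤ 12 * c := fun c hc => by
    obtain ⟨a, ha⟩ := hG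
    obtain ⟨haF, hU, -⟩ := mem_filter.1 ha
    refine (card_le_card hU).trans (card_biUnion_le.trans ?_)
    refine (sum_le_card_nsmul _ _ 12 fun i hi => h12 i ((hS a haF).1 hi)).trans ?_
    have := hc a haF
    simp only [smul_eq_mul]
    omega
  have hUs := hUc s fun a ha => (hS a ha).2.1
  have hUb := hUc b fun a ha => (hS a ha).2.2
  have hStU := St_card hcl (U := U) (by omega)
  have hrep : ∀ i, ∃ t : Finset Ω, t ⊆ E i \ U ∧ t.card ≤ 1 ∧ (¬ E i ⊆ U → t.Nonempty) := by
    intro i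
    by_cases h : E i ⊆ U
    · exact ⟨∅, empty_subset _, by simp, fun h' => absurd h h'⟩
    · obtain ⟨x, hx, hx'⟩ := not_subset.1 h
      exact ⟨{x}, singleton_subset_iff.2 (mem_sdiff.2 ⟨hx, hx'⟩), by simp,
        fun _ => singleton_nonempty x⟩
  choose t ht1 ht2 ht3 using hrep
  refine ⟨Cl E D F S U L, L, fun a => (S a \ L).biUnion t, filter_subset _ _, hG, ?_, ?_, ?_⟩
  · refine h0.trans ?_
    rw [mul_assoc]
    refine mul_le_mul_of_nonneg_left ?_ (Nat.cast_nonneg _)
    calc r ^ U.card * 2 ^ (St E D U).card ≤ r ^ U.card * 2 ^ U.card :=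
          mul_le_mul_of_nonneg_left (pow_le_pow_right₀ one_le_two hStU) (by positivity)
      _ = (2 * r) ^ U.card := by rw [mul_pow, mul_comm]
      _ ≤ _ := pow_le_pow_right₀ (by linarith) hUb
  · intro T
    by_cases hT : Disjoint U T
    · have hsub := St_mono E D (subset_union_left (s₁ := U) (s₂ := T))
      have hc : (St E D (U ∪ T)).card = (St E D U).card + (St E D (U ∪ T) \ St E D U).card := by
        rw [card_sdiff_of_subset hsub]
        have := card_le_card hsub
        omega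
      have hcov : ((Cl E D F S U L).filter fun a => T ⊆ (S a \ L).biUnion t) ⊆
          (St E D (U ∪ T) \ St E D U).powerset.biUnion fun P => Cl E D F S (U ∪ T) (L ∪ P) := by
        intro a ha
        obtain ⟨ha1, ha2⟩ := mem_filter.1 ha
        obtain ⟨haF, hU, hL⟩ := mem_filter.1 ha1
        refine mem_biUnion.2 ⟨S a ∩ (St E D (U ∪ T) \ St E D U),
          mem_powerset.2 inter_subset_right, mem_filter.2 ⟨haF, union_subset hU ?_, ?_⟩⟩
        · intro x hx
          obtain ⟨i, hi, hx'⟩ := mem_biUnion.1 (ha2 hx)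
          exact mem_biUnion.2 ⟨i, (mem_sdiff.1 hi).1, (mem_sdiff.1 (ht1 i hx')).1⟩
        · rw [← hL, ← inter_union_distrib_left, union_sdiff_of_subset hsub]
      have hone : ∀ P, ((Cl E D F S (U ∪ T) (L ∪ P)).card : ℝ) * r ^ T.card *
          2 ^ (St E D (U ∪ T) \ St E D U).card ≤ (Cl E D F S U L).card := fun P => by
        have h := hmax (U ∪ T, L ∪ P) (mem_univ _)
        simp only [card_union_of_disjoint hT, hc, pow_add] at h
        have hp : 0 < r ^ U.card * 2 ^ (St E D U).card := by positivity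
        refine le_of_mul_le_mul_right ?_ hp
        linarith
      have hcard : (((Cl E D F S U L).filter fun a => T ⊆ (S a \ L).biUnion t).card : ℝ) ≤
          ∑ P ∈ (St E D (U ∪ T) \ St E D U).powerset, ((Cl E D F S (U ∪ T) (L ∪ P)).card : ℝ) := by
        exact_mod_cast (card_le_card hcov).trans card_biUnion_le
      have hsum := sum_le_card_nsmul (St E D (U ∪ T) \ St E D U).powerset _ _ fun P _ => hone P
      rw [← sum_mul, ← sum_mul, card_powerset, nsmul_eq_mul] at hsum
      push_cast at hsum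
      have hp : (0 : ℝ) < 2 ^ (St E D (U ∪ T) \ St E D U).card := by positivity
      have h3 := mul_le_mul_of_nonneg_right hcard (pow_nonneg hr0.le T.card)
      refine h3.trans (le_of_mul_le_mul_right ?_ hp)
      linarith
    · have : ((Cl E D F S U L).filter fun a => T ⊆ (S a \ L).biUnion t) = ∅ := by
        refine filter_eq_empty_iff.2 fun a _ h => hT ?_
        refine disjoint_left.2 fun x hxU hxT => ?_
        obtain ⟨i, -, hx'⟩ := mem_biUnion.1 (h hxT)
        exact (mem_sdiff.1 (ht1 i hx')).2 hxU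
      rw [this]
      simp
  · intro a ha
    obtain ⟨haF, -, hL⟩ := mem_filter.1 ha
    refine ⟨hL ▸ inter_subset_left, ?_, fun V hV i hi => ?_⟩
    · refine card_biUnion_le.trans ((sum_le_card_nsmul _ _ 1 fun i _ => ht2 i).trans ?_)
      have := card_le_card (sdiff_subset (s := S a) (t := L))
      have := (hS a haF).2.1
      simp only [smul_eq_mul]
      omega
    · obtain ⟨hi1, hi2⟩ := mem_sdiff.1 hi
      have hn : ¬ E i ⊆ U := fun h =>
        hi2 (hL ▸ mem_inter.2 ⟨hi1, mem_filter.2 ⟨(hS a haF).1 hi1, h⟩⟩)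
      obtain ⟨x, hx⟩ := ht3 i hn
      exact not_disjoint_iff.2 ⟨x, (mem_sdiff.1 (ht1 i hx)).1, hV (mem_biUnion.2 ⟨i, hi, hx⟩)⟩

lemma two_pow_lt (j : ℕ) : (2 : ℝ) ^ (j + 2) < 5 ^ 2 ^ j := by
  induction j with
  | zero => norm_num
  | succ j ih =>
    have h1 : (2 : ℝ) ≤ 2 ^ (j + 2) := le_self_pow₀ one_le_two (by omega)
    rw [pow_succ (2 : ℕ) j, pow_mul, show j + 1 + 2 = (j + 2) + 1 by ring, pow_succ (2 : ℝ)]
    nlinarith

/-- The hitting lemma. -/
theorem lemH (E : ι → Finset Ω) (D : Finset ι) (s : ℕ) (hne : ∀ i ∈ D, (E i).Nonempty)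
    (h12 : ∀ i ∈ D, (E i).card ≤ 12)
    (hcl : ∀ C ⊆ D, C.card ≤ 12 * s + 1 → C.card ≤ (C.biUnion E).card) {q r c : ℝ} (hq0 : 0 < q)
    (hq1 : q ≤ 1) (hr1 : 1 ≤ r) (hc : 0 ≤ c) (Λ : ℕ)
    (hlay : ∀ (G : Finset A) (R : A → Finset Ω), G.Nonempty → Spread G R r →
      (∀ a ∈ G, (R a).card ≤ s) → pr (nu q Λ) (fun W => ¬ ∃ a ∈ G, R a ⊆ W) ≤ c)
    (j : ℕ) (F : Finset A) (S : A → Finset ι)
    (hF : F.Nonempty) (hS : ∀ a ∈ F, S a ⊆ D ∧ (S a).card ≤ s ∧ (S a).card < 2 ^ j) {σ : ℝ}
    (hσ : 5 * (2 * r) ^ 24 * (2 - (1 / 2) ^ j) ≤ σ) (hsp : Spread F S σ) :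
    pr (nu q (j * Λ)) (fun V => ¬ ∃ a ∈ F, ∀ i ∈ S a, ¬ Disjoint (E i) V) ≤ j * c := by
  have hB : (1 : ℝ) ≤ (2 * r) ^ 24 := one_le_pow₀ (by linarith)
  induction j generalizing F S σ with
  | zero =>
    obtain ⟨a, ha⟩ := hF
    have : S a = ∅ := card_eq_zero.1 (by have := (hS a ha).2.2; omega)
    rw [pr_false]
    · simp
    · exact fun W h => h ⟨a, ha, by simp [this]⟩
  | succ j ih =>
    let Good : Finset ι → Prop := fun L => L.card < 2 ^ j ∧
      pr (nu q Λ) (fun V => ¬ ∃ a ∈ F, L ⊆ S a ∧ ∀ i ∈ S a \ L, ¬ Disjoint (E i) V) ≤ c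
    have hFpos : (0 : ℝ) < F.card := by exact_mod_cast hF.card_pos
    have hh : (0 : ℝ) < (1 / 2) ^ j := by positivity
    have hh1 : ((1 : ℝ) / 2) ^ j ≤ 1 := pow_le_one₀ (by norm_num) (by norm_num)
    have hσ5 : 5 * (2 * r) ^ 24 ≤ σ := by
      rw [pow_succ ((1 : ℝ) / 2)] at hσ
      nlinarith
    have hbad : ((F.filter fun a => ¬ ∃ L ⊆ S a, Good L).card : ℝ) < (1 / 2) ^ (j + 2) * F.card := by
      by_contra hcon
      rw [not_lt] at hcon
      have hne0 : (F.filter fun a => ¬ ∃ L ⊆ S a, Good L).Nonempty := by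
        rw [← card_pos]
        have : (0 : ℝ) < (1 / 2) ^ (j + 2) * F.card := by positivity
        exact_mod_cast this.trans_le hcon
      obtain ⟨G, L, R, hGF, hG, hGc, hGs, hGa⟩ := core (b := 2 ^ (j + 1)) hne h12 hcl hr1 hne0
        fun a ha => by
          obtain ⟨h1, h2, h3⟩ := hS a (mem_filter.1 ha).1
          exact ⟨h1, h2, h3.le⟩
      have hGpos : (0 : ℝ) < G.card := by exact_mod_cast hG.card_pos
      have hL : L.card < 2 ^ j := by
        by_contra hL
        rw [not_lt] at hL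
        have h1 : (G.card : ℝ) ≤ (F.filter fun a => L ⊆ S a).card := by
          exact_mod_cast card_le_card fun a ha =>
            mem_filter.2 ⟨(mem_filter.1 (hGF ha)).1, (hGa a ha).1⟩
        have h2 : (5 * (2 * r) ^ 24) ^ 2 ^ j ≤ σ ^ L.card :=
          (pow_le_pow_left₀ (by positivity) hσ5 _).trans (pow_le_pow_right₀ (by linarith) hL)
        have h3 : (G.card : ℝ) * (5 * (2 * r) ^ 24) ^ 2 ^ j ≤ F.card :=
          (mul_le_mul h1 h2 (by positivity) (Nat.cast_nonneg _)).trans (hsp L)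
        rw [mul_pow, ← pow_mul] at h3
        rw [show 12 * 2 ^ (j + 1) = 24 * 2 ^ j by ring] at hGc
        have h4 : (F.card : ℝ) ≤ 2 ^ (j + 2) * (G.card * (2 * r) ^ (24 * 2 ^ j)) := by
          have h5 := mul_le_mul_of_nonneg_left (hcon.trans hGc)
            (show (0 : ℝ) ≤ 2 ^ (j + 2) by positivity)
          rwa [← mul_assoc, ← mul_pow, show (2 : ℝ) * (1 / 2) = 1 by norm_num, one_pow,
            one_mul] at h5
        have h6 : (0 : ℝ) < G.card * (2 * r) ^ (24 * 2 ^ j) := by positivity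
        have h7 := mul_lt_mul_of_pos_right (two_pow_lt j) h6
        linarith
      have h10 := hlay G R hG hGs fun a ha => (hGa a ha).2.1
      obtain ⟨a, ha⟩ := hG
      refine (mem_filter.1 (hGF ha)).2 ⟨L, (hGa a ha).1, hL, le_trans ?_ h10⟩
      refine pr_mono (nu_nonneg hq0.le hq1 Λ) ?_
      rintro W hW ⟨a', ha', h⟩
      exact hW ⟨a', (mem_filter.1 (hGF ha')).1, (hGa a' ha').1, (hGa a' ha').2.2 W h⟩
    have hsplit := card_filter_add_card_filter_not (s := F) (fun a => ∃ L ⊆ S a, Good L)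
    have hF1 : (1 - (1 / 2) ^ (j + 2)) * (F.card : ℝ) ≤ (F.filter fun a => ∃ L ⊆ S a, Good L).card := by
      have : ((F.filter fun a => ∃ L ⊆ S a, Good L).card : ℝ) +
          (F.filter fun a => ¬ ∃ L ⊆ S a, Good L).card = F.card := by exact_mod_cast hsplit
      linarith
    have hδ : (0 : ℝ) < 1 - (1 / 2) ^ (j + 2) := by
      rw [pow_add]
      nlinarith
    have hδ1 : (1 : ℝ) - (1 / 2) ^ (j + 2) ≤ 1 := by
      have : (0 : ℝ) < (1 / 2) ^ (j + 2) := by positivity
      linarith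
    have hex : ∀ a ∈ F.filter fun a => ∃ L ⊆ S a, Good L, ∃ L ⊆ S a, Good L :=
      fun a ha => (mem_filter.1 ha).2
    choose! L hL1 hL2 using hex
    have hσ0 : 0 ≤ σ := by linarith
    have key := ih (F.filter fun a => ∃ L ⊆ S a, Good L) L
      (by
        rw [← card_pos]
        exact_mod_cast (mul_pos hδ hFpos).trans_le hF1)
      (fun a ha => ⟨(hL1 a ha).trans (hS a (mem_filter.1 ha).1).1,
        (card_le_card (hL1 a ha)).trans (hS a (mem_filter.1 ha).1).2.1, (hL2 a ha).1⟩)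
      (σ := σ * (1 - (1 / 2) ^ (j + 2)))
      (by
        refine le_trans ?_ (mul_le_mul_of_nonneg_right hσ hδ.le)
        rw [mul_assoc (5 * (2 * r) ^ 24)]
        refine mul_le_mul_of_nonneg_left ?_ (by positivity)
        rw [pow_add ((1 : ℝ) / 2) j 2, pow_succ ((1 : ℝ) / 2) j]
        nlinarith)
      (by
        intro T
        rcases T.eq_empty_or_nonempty with rfl | hT
        · simp
        · have h1 : (((F.filter fun a => ∃ L ⊆ S a, Good L).filter fun a => T ⊆ L a).card : ℝ) ≤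
              (F.filter fun a => T ⊆ S a).card := by
            exact_mod_cast card_le_card fun a ha =>
              mem_filter.2 ⟨(mem_filter.1 (mem_filter.1 ha).1).1,
                Finset.Subset.trans (mem_filter.1 ha).2 (hL1 a (mem_filter.1 ha).1)⟩
          have h2 : ((1 : ℝ) - (1 / 2) ^ (j + 2)) ^ T.card ≤ 1 - (1 / 2) ^ (j + 2) :=
            pow_le_of_le_one hδ.le hδ1 hT.card_pos.ne'
          have h3 := (mul_le_mul_of_nonneg_right h1 (pow_nonneg hσ0 T.card)).trans (hsp T)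
          rw [mul_pow, ← mul_assoc]
          refine le_trans ?_ hF1
          rw [mul_comm _ (F.card : ℝ)]
          exact mul_le_mul h3 h2 (pow_nonneg hδ.le _) hFpos.le)
    rw [show (j + 1) * Λ = j * Λ + Λ by ring]
    refine (pr_two hq0.le hq1 _ _ _ (fun V => ¬ ∃ a ∈ F.filter fun a => ∃ L ⊆ S a, Good L,
      ∀ i ∈ L a, ¬ Disjoint (E i) V) hc fun W hW => ?_).trans ?_
    · obtain ⟨a, ha, h⟩ := not_not.1 hW
      refine le_trans (pr_mono (nu_nonneg hq0.le hq1 Λ) ?_) (hL2 a ha).2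
      rintro U hU ⟨a', ha', -, h'⟩
      refine hU ⟨a', ha', fun i hi hd => ?_⟩
      by_cases hiL : i ∈ L a
      · exact h i hiL (disjoint_of_subset_right subset_union_left hd)
      · exact h' i (mem_sdiff.2 ⟨hi, hiL⟩) (disjoint_of_subset_right subset_union_right hd)
    · push_cast
      linarith

end HitL

theorem hitL (hM : MeasStmt) : HitStmt := by
  intro Ω ι κ _ _ _ _ E Cand L s hL hs h12 hcl F S hF hS hsp
  have hL1 : (1 : ℝ) ≤ L := by exact_mod_cast hL
  have hq0 : (0 : ℝ) < 1 / (2 * L) := by positivity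
  have hq1 : (1 : ℝ) / (2 * L) ≤ 1 := by
    rw [div_le_one (by positivity)]
    linarith
  have hne : ∀ i ∈ Cand, (E i).Nonempty := fun i hi => by
    have := hcl {i} (singleton_subset_iff.2 hi) (by simp)
    rw [card_singleton, singleton_biUnion] at this
    exact card_pos.1 this
  have key := HitL.lemH E Cand s hne (fun i _ => h12 i) hcl (q := 1 / (2 * L))
    (r := 2048 * (L : ℝ) ^ 2) (c := (2 / 3) ^ L * s) hq0 hq1 (by nlinarith) (by positivity) 1
    (fun G R hG hR hRs => by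
      rw [(hM Ω).1, pow_one, sub_sub_cancel]
      refine (hM Ω).2.2.2 _ _ L s κ G R hq0 hq1 hL (le_of_eq ?_) hG hR hRs
      field_simp
      norm_num)
    L F S hF (fun a ha => ⟨(hS a ha).1, (hS a ha).2, (hS a ha).2.trans_lt hs⟩)
    (σ := (sig L : ℝ) / 2)
    (by
      have h1 : (0 : ℝ) < (1 / 2) ^ L := by positivity
      have h2 : (0 : ℝ) < (2 * (2048 * (L : ℝ) ^ 2)) ^ 24 := by positivity
      have h3 : (sig L : ℝ) = 20 * (2 * (2048 * (L : ℝ) ^ 2)) ^ 24 := by
        rw [sig]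
        push_cast
        congr 2
        ring
      rw [h3]
      nlinarith)
    hsp
  rw [mul_one] at key
  refine le_trans (le_of_eq ?_) key
  congr 1
  funext V
  simp only [not_disjoint_iff_nonempty_inter]

end Pool.Agent.MP_6b3410_lc.H91
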