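import Mathlib
import Pool.Agent.MP_6b3410_lc.H91.Basic
import Pool.Agent.MP_6b3410_lc.H5.Expander

/-!
Expanding hypergraphs by counting.
-/

open Finset

namespace Pool.Agent.MP_6b3410_lc.H91

namespace HyperAux

/-- the maps sending all of `C` into `B` -/
def bad {n v : ℕ} (C : Finset (Fin n)) (B : Finset (Fin v)) : Finset (Fin n → Fin 12 → Fin v) :=
  Fintype.piFinset fun i => if i ∈ C then Fintype.piFinset fun _ => B else univ

lemma card_bad {n v : ℕ} (hv : 1 ≤ v) (C : Finset (Fin n)) (B : Finset (Fin v)) :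
    ((bad C B).card : ℝ) = ((B.card : ℝ) / v) ^ (12 * C.card) * ((v : ℝ) ^ 12) ^ n := by
  have hv' : (0 : ℝ) < v := by exact_mod_cast hv
  have h2 : ∀ i : Fin n, ((if i ∈ C then Fintype.piFinset fun _ : Fin 12 => B else univ).card : ℝ)
      = (if i ∈ C then ((B.card : ℝ) / v) ^ 12 else 1) * (v : ℝ) ^ 12 := by
    intro i
    by_cases hi : i ∈ C
    · simp only [if_pos hi, Fintype.card_piFinset, prod_const, card_univ, Fintype.card_fin]
      push_cast
      field_simp
    · simp [hi]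
  rw [bad, Fintype.card_piFinset]
  push_cast
  simp only [h2]
  rw [prod_mul_distrib, prod_ite_mem, univ_inter, prod_const, prod_const, card_univ,
    Fintype.card_fin, ← pow_mul]

lemma term_le {n v k : ℕ} (hv : 1 ≤ v) (hk : 1 ≤ k) (h : 40000000 * n * k ≤ v ^ 2) :
    (n.choose k : ℝ) * ((v.choose (10 * k) : ℝ) * (((10 * k : ℕ) : ℝ) / v) ^ (12 * k)) ≤
      (1 / 2) ^ k := by
  have hv' : (0 : ℝ) < v := by exact_mod_cast hv
  have hk' : (0 : ℝ) < k := by exact_mod_cast hk
  have h1 : (n.choose k : ℝ) ≤ (3 * n / k) ^ k := by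
    rw [div_pow, le_div_iff₀ (by positivity)]; exact H5.choose_mul_le n k
  have h2 : (v.choose (10 * k) : ℝ) ≤ (3 * v / ((10 * k : ℕ) : ℝ)) ^ (10 * k) := by
    rw [div_pow, le_div_iff₀ (by positivity)]; exact H5.choose_mul_le v (10 * k)
  have h3 : (40000000 : ℝ) * n * k ≤ (v : ℝ) ^ 2 := by exact_mod_cast h
  calc _ ≤ (3 * n / k : ℝ) ^ k * ((3 * v / ((10 * k : ℕ) : ℝ)) ^ (10 * k) *
        (((10 * k : ℕ) : ℝ) / v) ^ (12 * k)) := by gcongr
    _ = ((3 * n / k : ℝ) * ((3 * v / ((10 * k : ℕ) : ℝ)) ^ 10 *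
        (((10 * k : ℕ) : ℝ) / v) ^ 12)) ^ k := by
      rw [mul_pow, mul_pow, ← pow_mul, ← pow_mul]
    _ ≤ (1 / 2) ^ k := by
      apply pow_le_pow_left₀ (by positivity)
      have : (3 * n / k : ℝ) * ((3 * v / ((10 * k : ℕ) : ℝ)) ^ 10 *
          (((10 * k : ℕ) : ℝ) / v) ^ 12) = 17714700 * n * k / (v : ℝ) ^ 2 := by
        push_cast
        field_simp
        ring
      rw [this, div_le_iff₀ (by positivity)]
      have : (0 : ℝ) ≤ n * k := by positivity
      nlinarith

lemma sum_half (c : ℕ) : ∑ k ∈ Icc 1 c, (1 / 2 : ℝ) ^ k = 1 - (1 / 2) ^ c := by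
  induction c with
  | zero => simp
  | succ c ih => rw [sum_Icc_succ_top (by omega), ih]; ring

end HyperAux

open HyperAux in
theorem hyper : HyperStmt := by
  classical
  intro n v c hv hvn h
  by_contra hcon
  push Not at hcon
  have hcv : ∀ k, k ≤ c → 10 * k ≤ v := by
    intro k hk
    have h1 : 40000000 * c * n ≤ v * n := by nlinarith
    have h2 : 40000000 * c ≤ v := Nat.le_of_mul_le_mul_right h1 (by omega)
    omega
  have hsub : (univ : Finset (Fin n → Fin 12 → Fin v)) ⊆ (Icc 1 c).biUnion fun k =>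
      (powersetCard k (univ : Finset (Fin n))).biUnion fun C =>
        (powersetCard (10 * k) (univ : Finset (Fin v))).biUnion fun B => bad C B := by
    intro φ _
    obtain ⟨C, hC, hlt⟩ := hcon (fun i => univ.image (φ i))
      (fun i => card_image_le.trans (by simp))
    obtain ⟨B, hB1, -, hB3⟩ := exists_subsuperset_card_eq
      (subset_univ (C.biUnion fun i => univ.image (φ i))) hlt.le
      (by simpa using hcv _ hC)
    refine mem_biUnion.2 ⟨C.card, mem_Icc.2 ⟨by omega, hC⟩, mem_biUnion.2 ⟨C, by simp,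
      mem_biUnion.2 ⟨B, by simp [hB3], ?_⟩⟩⟩
    rw [bad, Fintype.mem_piFinset]
    intro i
    split_ifs with hi
    · rw [Fintype.mem_piFinset]
      intro j
      exact hB1 (mem_biUnion.2 ⟨i, hi, mem_image_of_mem _ (mem_univ j)⟩)
    · exact mem_univ _
  have hv' : (0 : ℝ) < v := by exact_mod_cast hv
  have hT : (0 : ℝ) < ((v : ℝ) ^ 12) ^ n := by positivity
  have h1 : (((v : ℝ) ^ 12) ^ n) ≤ ∑ k ∈ Icc 1 c, ∑ C ∈ powersetCard k (univ : Finset (Fin n)),
      ∑ B ∈ powersetCard (10 * k) (univ : Finset (Fin v)), ((bad C B).card : ℝ) := by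
    have h2 := (card_le_card hsub).trans (card_biUnion_le.trans (sum_le_sum fun k _ =>
      card_biUnion_le.trans (sum_le_sum fun C _ => card_biUnion_le)))
    simp only [card_univ, Fintype.card_fun, Fintype.card_fin] at h2
    exact_mod_cast h2
  have h3 : ∀ k ∈ Icc 1 c, ∑ C ∈ powersetCard k (univ : Finset (Fin n)),
      ∑ B ∈ powersetCard (10 * k) (univ : Finset (Fin v)), ((bad C B).card : ℝ) ≤
        (1 / 2) ^ k * ((v : ℝ) ^ 12) ^ n := by
    intro k hk
    rw [mem_Icc] at hk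
    have e : ∑ C ∈ powersetCard k (univ : Finset (Fin n)),
        ∑ B ∈ powersetCard (10 * k) (univ : Finset (Fin v)), ((bad C B).card : ℝ) =
        (n.choose k : ℝ) * ((v.choose (10 * k) : ℝ) * (((10 * k : ℕ) : ℝ) / v) ^ (12 * k)) *
          ((v : ℝ) ^ 12) ^ n := by
      rw [sum_congr rfl fun C hC => sum_congr rfl fun B hB => by
        rw [card_bad hv, (mem_powersetCard.1 hC).2, (mem_powersetCard.1 hB).2]]
      simp only [sum_const, card_powersetCard, card_univ, Fintype.card_fin, nsmul_eq_mul]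
      ring
    rw [e]
    exact mul_le_mul_of_nonneg_right
      (term_le hv hk.1 ((Nat.mul_le_mul_left _ hk.2).trans h)) hT.le
  have h4 := h1.trans (sum_le_sum h3)
  rw [← sum_mul, sum_half] at h4
  have : (0 : ℝ) < (1 / 2) ^ c := by positivity
  nlinarith

end Pool.Agent.MP_6b3410_lc.H91
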