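import Mathlib
import Pool.Agent.MP_6b3410_lc.H91.Basic

/-!
Free rectangles have no cheap protocol: simulation with dangerous sets.
-/

open Finset

namespace Pool.Agent.MP_6b3410_lc.H91

open Classical

lemma exists_heavy' {T κ : Type} {F : Finset κ} {Z : κ → Finset T} {w : κ → ℝ}
    (hw : ∀ k ∈ F, 0 < w k) (hs : ∑ k ∈ F, w k ≤ 1 / 2) {R : Finset T} (hR : R.Nonempty)
    (hc : ∀ x ∈ R, ∃ k ∈ F, x ∈ Z k) :
    ∃ k ∈ F, ∃ R' ⊆ R, R' ⊆ Z k ∧ w k * R.card ≤ (R'.card : ℝ) := by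
  obtain ⟨k, hk, h⟩ := exists_heavy hw hs hR hc
  exact ⟨k, hk, _, filter_subset _ _, fun x hx => (mem_filter.1 hx).2, h⟩

section lb

variable {ι U A : Type} [Fintype ι] [DecidableEq ι] [Fintype U] [DecidableEq U] [Fintype A]
  [DecidableEq A] (N : ι → Finset U) (t : ℝ) (L s1 : ℕ)

/-- the potential of one side -/
noncomputable def pot (X : Finset (U → A)) (I : Finset U) : ℝ := X.card * t ^ phi N s1 1 I

/-- the starting point of one side -/
structure Base (X0 : Finset (U → A)) (I0 : Finset U) : Prop where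
  dense : Dense (t ^ 3) X0 I0
  small : I0.card ≤ s0 s1

/-- the current state of one side -/
structure St (X0 : Finset (U → A)) (I0 : Finset U) (X : Finset (U → A)) (I : Finset U)
    (α : U → A) : Prop where
  side : Side N s1 t (sz s1) X I α
  sub : X ⊆ X0
  sup : I0 ⊆ I

/-- states of the cascade: the first player still has to avoid `S` -/
structure Casc (a b : ι → U → A) (X0 : Finset (U → A)) (I0 : Finset U) (Y0 : Finset (U → A))
    (J0 : Finset U) (c : ℝ) (X : Finset (U → A)) (I : Finset U) (α : U → A)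
    (Y : Finset (U → A)) (J : Finset U) (β : U → A) (S : Finset ι) : Prop where
  stX : St N t s1 X0 I0 X I α
  stY : St N t s1 Y0 J0 Y J β
  avX : Avoid N a X (ker N b J β \ S)
  avY : Avoid N b Y (ker N a I α)
  sub : S ⊆ ker N b J β
  dis : Disjoint S (ker N a I α)
  safe : ¬ Dang N t L s1 a X I α S
  inv : c * (pot N t s1 X0 I0 * pot N t s1 Y0 J0) ≤ pot N t s1 X I * pot N t s1 Y J *
    (4 * (gam L : ℝ)) ^ ((ker N a I α).card + (ker N b J β \ S).card)

/-- stable states -/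
def Stab (a b : ι → U → A) (X0 : Finset (U → A)) (I0 : Finset U) (Y0 : Finset (U → A))
    (J0 : Finset U) (c : ℝ) (X Y : Finset (U → A)) : Prop :=
  ∃ I α J β, Casc N t L s1 a b X0 I0 Y0 J0 c X I α Y J β ∅

variable {N t L s1}

lemma pot_le (hok : Ok A N t L s1) {X0 X : Finset (U → A)} {I0 I : Finset U} {α : U → A}
    (h0 : Base t s1 X0 I0) (hX : X ⊆ X0) (hc : Ctx X I α) (hI : I0 ⊆ I) :
    pot N t s1 X I * t ^ (I \ I0).card ≤ pot N t s1 X0 I0 * t ^ I0.card := by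
  have ht := hok.one_lt.le
  have ht0 := hok.pos
  have h1 : X ⊆ cyl X0 (I \ I0) α := fun x hx =>
    mem_cyl.2 ⟨hX hx, fun u hu => hc x hx u (mem_sdiff.1 hu).1⟩
  have h2 : (X.card : ℝ) * (t ^ 3) ^ (I \ I0).card ≤ X0.card :=
    le_trans (mul_le_mul_of_nonneg_right (by exact_mod_cast card_le_card h1) (by positivity))
      (h0.dense _ α sdiff_disjoint)
  have h3 := hok.phi_le 1 I
  have h4 : I0.card ≤ phi N s1 1 I0 := by rw [phi]; omega
  have h5 : (I \ I0).card + I0.card = I.card := card_sdiff_add_card_eq_card hI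
  unfold pot
  calc (X.card : ℝ) * t ^ phi N s1 1 I * t ^ (I \ I0).card
      = X.card * t ^ (phi N s1 1 I + (I \ I0).card) := by rw [pow_add, mul_assoc]
    _ ≤ X.card * t ^ (3 * (I \ I0).card + 2 * I0.card) :=
        mul_le_mul_of_nonneg_left (pow_le_pow_right₀ ht (by omega)) (by positivity)
    _ = X.card * (t ^ 3) ^ (I \ I0).card * t ^ (2 * I0.card) := by
        rw [pow_add, pow_mul, mul_assoc]
    _ ≤ X0.card * t ^ (2 * I0.card) := mul_le_mul_of_nonneg_right h2 (by positivity)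
    _ ≤ X0.card * t ^ (phi N s1 1 I0 + I0.card) :=
        mul_le_mul_of_nonneg_left (pow_le_pow_right₀ ht (by omega)) (by positivity)
    _ = _ := by rw [pow_add, mul_assoc]

lemma pot_pos (hok : Ok A N t L s1) {X : Finset (U → A)} (hX : X.Nonempty) (I : Finset U) :
    0 < pot N t s1 X I :=
  mul_pos (by exact_mod_cast hX.card_pos) (pow_pos hok.pos _)

lemma gam_one (hL : 1 ≤ L) : (1 : ℝ) ≤ gam L := by
  have h1 : 1 ≤ sig L := le_trans (Nat.mul_pos (by norm_num) (pow_pos hL 2)) (sig_ge' hL)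
  exact_mod_cast h1.trans (sig_le_gam hL)

lemma size_le (hok : Ok A N t L s1) {X0 X Y0 Y : Finset (U → A)} {I0 I J0 J : Finset U}
    {α β : U → A} (hX0 : Base t s1 X0 I0) (hY0 : Base t s1 Y0 J0) (hX : X ⊆ X0) (hY : Y ⊆ Y0)
    (hcX : Ctx X I α) (hcY : Ctx Y J β) (hI : I0 ⊆ I) (hJ : J0 ⊆ J) (hXn : X.Nonempty)
    (hYn : Y.Nonempty) {c : ℝ} {n : ℕ} (hc : 1 ≤ c * t ^ (30 * s0 s1)) (hn : n ≤ I.card + J.card)
    (h : c * (pot N t s1 X0 I0 * pot N t s1 Y0 J0) ≤ pot N t s1 X I * pot N t s1 Y J *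
      (4 * (gam L : ℝ)) ^ n) : I.card ≤ sz s1 := by
  have ht := hok.one_lt
  have ht0 := hok.pos
  have h1 := pot_le hok hX0 hX hcX hI
  have h2 := pot_le hok hY0 hY hcY hJ
  have p1 := pot_pos hok (hXn.mono hX) I0
  have p2 := pot_pos hok (hYn.mono hY) J0
  have p3 := pot_pos hok hXn I
  have p4 := pot_pos hok hYn J
  have e1 : (I \ I0).card + I0.card = I.card := card_sdiff_add_card_eq_card hI
  have e2 : (J \ J0).card + J0.card = J.card := card_sdiff_add_card_eq_card hJ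
  have s1' := hX0.small
  have s2' := hY0.small
  have hg := gam_one hok.L_pos
  set g : ℝ := 4 * (gam L : ℝ) with hgd
  have hg0 : 0 < g := by positivity
  generalize pot N t s1 X0 I0 = P at *
  generalize pot N t s1 Y0 J0 = Q at *
  generalize pot N t s1 X I = P' at *
  generalize pot N t s1 Y J = Q' at *
  generalize (I \ I0).card = e at *
  generalize (J \ J0).card = f at *
  have h3 : P' * Q' * t ^ (e + f) ≤ P * Q * t ^ (I0.card + J0.card) := by
    have := mul_le_mul h1 h2 (by positivity) (by positivity)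
    rw [pow_add, pow_add]
    linarith
  have h4 : c * t ^ (e + f) ≤ t ^ (I0.card + J0.card) * g ^ n := by
    refine le_of_mul_le_mul_left ?_ (mul_pos p1 p2)
    have a1 := mul_le_mul_of_nonneg_right h (pow_pos ht0 (e + f)).le
    have a2 := mul_le_mul_of_nonneg_right h3 (pow_pos hg0 n).le
    linarith
  have h5 : t ^ (e + f) ≤ t ^ (30 * s0 s1 + (I0.card + J0.card)) * g ^ n := by
    have a1 := mul_le_mul_of_nonneg_right hc (pow_pos ht0 (e + f)).le
    have a2 := mul_le_mul_of_nonneg_left h4 (pow_pos ht0 (30 * s0 s1)).le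
    rw [pow_add t (30 * s0 s1)]
    linarith
  have h6 : (g ^ n) ^ 2 ≤ t ^ n := by
    rw [← pow_mul, mul_comm, pow_mul]
    exact pow_le_pow_left₀ (by positivity) hok.t_ge n
  have h7 : t ^ ((e + f) * 2) ≤ t ^ ((30 * s0 s1 + (I0.card + J0.card)) * 2 + n) := by
    rw [pow_add, pow_mul, pow_mul]
    refine (pow_le_pow_left₀ (by positivity) h5 2).trans ?_
    rw [mul_pow]
    exact mul_le_mul_of_nonneg_left h6 (by positivity)
  have h8 := (pow_le_pow_iff_right₀ ht).1 h7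
  rw [sz]
  omega

/-- one move of the first player -/
lemma move (hE : ExtractStmt) (hok : Ok A N t L s1) {a b : ι → U → A}
    {X0 X Y0 Y R : Finset (U → A)} {I0 I J0 J : Finset U} {α β : U → A}
    (hX0 : Base t s1 X0 I0) (hY0 : Base t s1 Y0 J0) (stX : St N t s1 X0 I0 X I α)
    (stY : St N t s1 Y0 J0 Y J β) (avY : Avoid N b Y (ker N a I α)) (hR : R ⊆ X)
    (hRn : R.Nonempty) (avR : Avoid N a R (ker N b J β))
    (hG : ∀ x ∈ R, ∀ S ⊆ hits N a x \ inn N I, ¬ Dang N t L s1 b Y J β S) {c : ℝ}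
    (hc : 1 ≤ c * t ^ (30 * s0 s1))
    (h : c * (pot N t s1 X0 I0 * pot N t s1 Y0 J0) ≤ pot N t s1 R I * pot N t s1 Y J *
      (4 * (gam L : ℝ)) ^ ((ker N a I α).card + (ker N b J β).card)) :
    ∃ X' I' α' S', X' ⊆ R ∧ I ⊆ I' ∧ (S' ≠ ∅ → I.card < I'.card) ∧
      Casc N t L s1 b a Y0 J0 X0 I0 c Y J β X' I' α' S' := by
  obtain ⟨I', α', hI, hne, hd, hcl, hp⟩ :=
    hE ι U A N t L s1 hok 1 R I α hRn (stX.side.ctx.mono hR)
  have hsub := cyl_subset R I' α'
  have hctx := ctx_cyl R I' α'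
  set X' := cyl R I' α' with hX'
  have hg := gam_one hok.L_pos
  have h' : c * (pot N t s1 X0 I0 * pot N t s1 Y0 J0) ≤ pot N t s1 X' I' * pot N t s1 Y J *
      (4 * (gam L : ℝ)) ^ ((ker N a I α).card + (ker N b J β).card) :=
    h.trans (mul_le_mul_of_nonneg_right
      (mul_le_mul_of_nonneg_right hp (pot_pos hok stY.side.ne J).le) (by positivity))
  have k1 := hok.ker_le stX.side.small a α
  have k2 := hok.ker_le stY.side.small b β
  have k3 := card_le_card hI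
  have hsm : I'.card ≤ sz s1 :=
    size_le hok hX0 hY0 (hsub.trans (hR.trans stX.sub)) stY.sub hctx stY.side.ctx
      (stX.sup.trans hI) stY.sup hne stY.side.ne hc (by omega) h'
  obtain ⟨x, hx⟩ := id hne
  have hxR := hsub hx
  have hx1 : Agree I α x := stX.side.ctx x (hR hxR)
  have hx2 : Agree I' α' x := hctx x hx
  have hk := ker_mono (N := N) (a := a) hI hx1 hx2
  have e1 : ker N a I' α' \ (ker N a I' α' \ ker N a I α) = ker N a I α :=
    Finset.sdiff_sdiff_eq_self hk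
  have hS : ker N a I' α' \ ker N a I α ⊆ hits N a x \ inn N I := fun i hi => by
    rw [ker_eq hx1, ker_eq hx2] at hi
    simp only [mem_sdiff, mem_inter] at hi ⊢
    exact ⟨hi.1.2, fun h => hi.2 ⟨h, hi.1.2⟩⟩
  refine ⟨X', I', α', ker N a I' α' \ ker N a I α, hsub, hI, fun hne' => ?_, stY,
    ⟨⟨hne, hctx, by simpa using hd, hcl hsm, hsm⟩, hsub.trans (hR.trans stX.sub),
      stX.sup.trans hI⟩, by rw [e1]; exact avY, fun y hy => avR y (hsub hy), sdiff_subset,
    (avR x hxR).mono_left (hS.trans sdiff_subset), hG x hxR _ hS, ?_⟩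
  · refine card_lt_card ⟨hI, fun hI' => hne' ?_⟩
    obtain rfl : I = I' := Subset.antisymm hI hI'
    rw [ker_congr hx1 hx2, sdiff_self]
    rfl
  · rw [e1, add_comm, mul_comm (pot N t s1 Y0 J0), mul_comm (pot N t s1 Y J)]
    exact h'

lemma Stab.swap (hD : DangStmt) (hok : Ok A N t L s1) {a b : ι → U → A}
    {X0 X Y0 Y : Finset (U → A)} {I0 J0 : Finset U} {c : ℝ}
    (h : Stab N t L s1 a b X0 I0 Y0 J0 c X Y) : Stab N t L s1 b a Y0 J0 X0 I0 c Y X := by
  obtain ⟨I, α, J, β, h⟩ := h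
  refine ⟨J, β, I, α, h.stY, h.stX, by simpa using h.avY, by simpa using h.avX, empty_subset _,
    disjoint_empty_left _, (hD ι U A N t L s1 hok b Y J β h.stY.side).1, ?_⟩
  have := h.inv
  rw [sdiff_empty] at this ⊢
  rw [add_comm, mul_comm (pot N t s1 Y0 J0), mul_comm (pot N t s1 Y J)]
  exact this

/-- the part of the rows kept by the first player -/
lemma kept (hD : DangStmt) (hok : Ok A N t L s1) {a b : ι → U → A}
    {X0 X Y0 Y : Finset (U → A)} {I0 I J0 J : Finset U} {α β : U → A} {c : ℝ} {S : Finset ι}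
    (h : Casc N t L s1 a b X0 I0 Y0 J0 c X I α Y J β S) :
    ∃ R ⊆ X, R.Nonempty ∧ Avoid N a R (ker N b J β) ∧
      (∀ x ∈ R, ∀ S ⊆ hits N a x \ inn N I, ¬ Dang N t L s1 b Y J β S) ∧
      (X.card : ℝ) ≤ R.card * (4 * (gam L : ℝ) ^ S.card) := by
  have hl := (hD ι U A N t L s1 hok b Y J β h.stY.side).2 a I α h.stX.side.closed
  have hS : S.card ≤ sz s1 :=
    (card_le_card h.sub).trans ((hok.ker_le h.stY.side.small b β).trans h.stY.side.small)
  obtain ⟨G, hGe⟩ : ∃ G : Finset ι → Prop,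
      G = fun B => ∀ S ⊆ B, ¬ Dang N t L s1 b Y J β S := ⟨_, rfl⟩
  rw [← hGe] at hl
  have h1 := not_lt.1 fun hlt => h.safe ⟨hS, h.dis, G, hl, hlt⟩
  refine ⟨_, filter_subset _ _, ?_, fun x hx => ?_, fun x hx => ?_, h1⟩
  · rw [← card_pos]
    by_contra h0
    rw [Nat.eq_zero_of_not_pos h0] at h1
    have : (0 : ℝ) < X.card := by exact_mod_cast h.stX.side.ne.card_pos
    simp only [Nat.cast_zero, zero_mul] at h1
    linarith
  · obtain ⟨hx1, hx2, -⟩ := mem_filter.1 hx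
    rw [← sdiff_union_of_subset h.sub, disjoint_union_right]
    exact ⟨h.avX x hx1, hx2⟩
  · have := (mem_filter.1 hx).2.2
    rw [hGe] at this
    exact this

lemma cascade (hE : ExtractStmt) (hD : DangStmt) (hok : Ok A N t L s1) {c : ℝ}
    (hc : 1 ≤ c * t ^ (30 * s0 s1)) (n : ℕ) :
    ∀ (a b : ι → U → A) (X0 X Y0 Y : Finset (U → A)) (I0 I J0 J : Finset U) (α β : U → A)
      (S : Finset ι), Base t s1 X0 I0 → Base t s1 Y0 J0 →
      2 * Fintype.card U ≤ I.card + J.card + n →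
      Casc N t L s1 a b X0 I0 Y0 J0 c X I α Y J β S →
      ∃ X' ⊆ X, ∃ Y' ⊆ Y, Stab N t L s1 a b X0 I0 Y0 J0 c X' Y' := by
  induction n using Nat.strong_induction_on with
  | _ n ih =>
  intro a b X0 X Y0 Y I0 I J0 J α β S hX0 hY0 hn h
  by_cases hS : S = ∅
  · subst hS
    exact ⟨X, Subset.rfl, Y, Subset.rfl, I, α, J, β, h⟩
  obtain ⟨R, hR, hRn, avR, hG, hm⟩ := kept hD hok h
  have hg := gam_one hok.L_pos
  have hS1 : 1 ≤ S.card := card_pos.2 (nonempty_iff_ne_empty.2 hS)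
  have hm' : (X.card : ℝ) ≤ R.card * (4 * (gam L : ℝ)) ^ S.card := by
    refine hm.trans (mul_le_mul_of_nonneg_left ?_ (by positivity))
    rw [mul_pow]
    exact mul_le_mul_of_nonneg_right (le_self_pow₀ (by norm_num) (by omega)) (by positivity)
  have hp : pot N t s1 X I ≤ pot N t s1 R I * (4 * (gam L : ℝ)) ^ S.card := by
    have := mul_le_mul_of_nonneg_right hm' (pow_pos hok.pos (phi N s1 1 I)).le
    unfold pot
    linarith
  obtain ⟨X', I', α', S', h1, h2, h3, h4⟩ :=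
    move hE hok hX0 hY0 h.stX h.stY h.avY hR hRn avR hG hc (by
      refine h.inv.trans ?_
      rw [← card_sdiff_add_card_eq_card h.sub, ← add_assoc, pow_add _ _ S.card]
      have := mul_le_mul_of_nonneg_right hp (mul_pos (pot_pos hok h.stY.side.ne J)
        (pow_pos (show (0 : ℝ) < 4 * (gam L : ℝ) by positivity)
          ((ker N a I α).card + (ker N b J β \ S).card))).le
      linarith)
  by_cases hS' : S' = ∅
  · subst hS'
    exact ⟨X', h1.trans hR, Y, Subset.rfl, Stab.swap hD hok ⟨J, β, I', α', h4⟩⟩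
  · have h5 := h3 hS'
    have h6 := card_le_univ I'
    have h7 := card_le_univ J
    obtain ⟨Y', hY', X'', hX'', h8⟩ :=
      ih (n - 1) (by omega) b a Y0 Y X0 X' J0 J I0 I' β α' S' hY0 hX0 (by omega) h4
    exact ⟨X'', hX''.trans (h1.trans hR), Y', hY', h8.swap hD hok⟩

/-- a message of the first player -/
lemma message (hE : ExtractStmt) (hD : DangStmt) (hok : Ok A N t L s1) {a b : ι → U → A}
    {X0 X Y0 Y : Finset (U → A)} {I0 J0 : Finset U} {c : ℝ}
    (hX0 : Base t s1 X0 I0) (hY0 : Base t s1 Y0 J0) (h : Stab N t L s1 a b X0 I0 Y0 J0 c X Y)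
    {κ : Type} {F : Finset κ} {Z : κ → Finset (U → A)} {w : κ → ℝ} (hw : ∀ k ∈ F, 0 < w k)
    (hs : ∑ k ∈ F, w k ≤ 1 / 2) (hcov : ∀ x ∈ X, ∃ k ∈ F, x ∈ Z k) :
    ∃ k ∈ F, (Z k).Nonempty ∧ (1 ≤ c * w k ^ 3 * t ^ (30 * s0 s1) →
      ∃ X' ⊆ Z k, ∃ Y' ⊆ Y, Stab N t L s1 a b X0 I0 Y0 J0 (c * w k ^ 3) X' Y') := by
  obtain ⟨I, α, J, β, h⟩ := h
  obtain ⟨R, hR, hRn, avR, hG, hm⟩ := kept hD hok h
  obtain ⟨k, hk, R', hsub, hZ, hh⟩ := exists_heavy' hw hs hRn fun x hx => hcov x (hR hx)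
  have hwk := hw k hk
  have hw2 := weight_le hw hs hk
  have hR0 : (0 : ℝ) < R.card := by exact_mod_cast hRn.card_pos
  have hR'n : R'.Nonempty := by
    rw [← card_pos]
    have : (0 : ℝ) < R'.card := lt_of_lt_of_le (mul_pos hwk hR0) hh
    exact_mod_cast this
  refine ⟨k, hk, hR'n.mono hZ, fun hc => ?_⟩
  have hg := gam_one hok.L_pos
  have hm' : (X.card : ℝ) * w k ^ 3 ≤ R'.card := by
    rw [card_empty, pow_zero, mul_one] at hm
    have a1 : w k ^ 2 ≤ 1 / 4 := by nlinarith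
    have a2 : (X.card : ℝ) * w k ^ 2 ≤ R.card := by
      have : (0 : ℝ) ≤ X.card := by positivity
      nlinarith
    calc (X.card : ℝ) * w k ^ 3 = w k * (X.card * w k ^ 2) := by ring
      _ ≤ w k * R.card := mul_le_mul_of_nonneg_left a2 hwk.le
      _ ≤ _ := hh
  have hp : pot N t s1 X I * w k ^ 3 ≤ pot N t s1 R' I := by
    have := mul_le_mul_of_nonneg_right hm' (pow_pos hok.pos (phi N s1 1 I)).le
    unfold pot
    linarith
  obtain ⟨X', I', α', S', h1, -, -, h4⟩ :=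
    move hE hok hX0 hY0 h.stX h.stY h.avY (hsub.trans hR) hR'n (fun x hx => avR x (hsub hx))
      (fun x hx => hG x (hsub hx)) hc (by
      have a1 := mul_le_mul_of_nonneg_right h.inv (pow_pos hwk 3).le
      rw [sdiff_empty] at a1
      have a2 := mul_le_mul_of_nonneg_right hp (mul_pos (pot_pos hok h.stY.side.ne J)
        (pow_pos (show (0 : ℝ) < 4 * (gam L : ℝ) by positivity)
          ((ker N a I α).card + (ker N b J β).card))).le
      linarith)
  obtain ⟨Y', hY', X'', hX'', h8⟩ :=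
    cascade hE hD hok hc (2 * Fintype.card U) b a Y0 Y X0 X' J0 J I0 I' β α' S' hY0 hX0
      (by omega) h4
  exact ⟨X'', hX''.trans (h1.trans hZ), Y', hY', h8.swap hD hok⟩

lemma Stab.ne {a b : ι → U → A} {X0 X Y0 Y : Finset (U → A)} {I0 J0 : Finset U} {c : ℝ}
    (h : Stab N t L s1 a b X0 I0 Y0 J0 c X Y) : X.Nonempty ∧ Y.Nonempty := by
  obtain ⟨I, α, J, β, h⟩ := h
  exact ⟨h.stX.side.ne, h.stY.side.ne⟩

lemma cost_ok (hok : Ok A N t L s1) {θ0 θ : ℝ} (h0 : 1 ≤ θ0 * t ^ (10 * s0 s1)) (hθ : 0 < θ)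
    (h1 : θ ≤ 1) : 1 ≤ (θ0 / θ) ^ 3 * t ^ (30 * s0 s1) := by
  have ht := pow_pos hok.pos (10 * s0 s1)
  have hθ0 : 0 < θ0 := by
    by_contra h
    have := mul_nonpos_of_nonpos_of_nonneg (not_lt.1 h) ht.le
    linarith
  have h2 : θ0 ≤ θ0 / θ := by
    rw [le_div_iff₀ hθ]
    nlinarith
  have h3 : 1 ≤ θ0 / θ * t ^ (10 * s0 s1) := h0.trans (mul_le_mul_of_nonneg_right h2 ht.le)
  have h4 : (θ0 / θ) ^ 3 * t ^ (30 * s0 s1) = (θ0 / θ * t ^ (10 * s0 s1)) ^ 3 := by
    rw [mul_pow, ← pow_mul]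
    congr 2
    ring
  rw [h4]
  exact one_le_pow₀ h3

lemma simulate (hE : ExtractStmt) (hD : DangStmt) (hok : Ok A N t L s1) {a b : ι → U → A}
    {X0 Y0 : Finset (U → A)} {I0 J0 : Finset U} (hX0 : Base t s1 X0 I0) (hY0 : Base t s1 Y0 J0)
    {θ0 : ℝ} (h0 : 1 ≤ θ0 * t ^ (10 * s0 s1)) (hθ0 : 0 < θ0) {θ : ℝ} {X1 Y1 : Finset (U → A)}
    (hs : Solv (Hit N a) (Hit N b) θ X1 Y1) :
    0 < θ → ∀ X ⊆ X1, ∀ Y ⊆ Y1, ¬ Stab N t L s1 a b X0 I0 Y0 J0 ((θ0 / θ) ^ 3) X Y := by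
  induction hs with
  | emptyL θ Y1 =>
    intro _ X hX Y _ h
    exact absurd (h.ne.1.mono hX) (by simp)
  | emptyR θ X1 =>
    intro _ X _ Y hY h
    exact absurd (h.ne.2.mono hY) (by simp)
  | hit θ X1 Y1 i _ hX1 hY1 =>
    rintro _ X hX Y hY ⟨I, α, J, β, h⟩
    obtain ⟨x, hx⟩ := h.stX.side.ne
    obtain ⟨y, hy⟩ := h.stY.side.ne
    by_cases hi : N i ⊆ I
    · have h1 : i ∈ ker N a I α := by
        rw [ker_eq (h.stX.side.ctx x hx)]
        exact mem_inter.2 ⟨mem_inn.2 hi, mem_hits.2 (hX1 x (hX hx))⟩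
      exact disjoint_left.1 (h.avY y hy) (mem_hits.2 (hY1 y (hY hy))) h1
    · obtain ⟨u, hu, hu'⟩ := not_subset.1 hi
      have h1 := h.stX.side.dense {u} (a i) (disjoint_singleton_left.2 hu')
      have h2 : cyl X {u} (a i) = X :=
        filter_true_of_mem fun x' hx' u' hu'' => by
          rw [mem_singleton.1 hu'']
          exact hX1 x' (hX hx') u hu
      rw [h2, card_singleton, pow_one] at h1
      have h3 : (0 : ℝ) < X.card := by exact_mod_cast card_pos.2 ⟨x, hx⟩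
      have h4 := hok.one_lt
      nlinarith
  | splitL θ X1 Y1 κ F Z w hw hs hc hch ih =>
    intro hθ X hX Y hY h
    obtain ⟨k, hk, hne, hm⟩ :=
      message hE hD hok hX0 hY0 h hw hs fun x hx => hc x (hX hx)
    have hwk := hw k hk
    have e : (θ0 / θ) ^ 3 * w k ^ 3 = (θ0 / (θ / w k)) ^ 3 := by field_simp
    rw [e] at hm
    obtain ⟨X', hX', Y', hY', h'⟩ :=
      hm (cost_ok hok h0 (by positivity) ((hch k hk).le_one hne (h.ne.2.mono hY)))
    exact ih k hk (by positivity) X' hX' Y' (hY'.trans hY) h'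
  | splitR θ X1 Y1 κ F Z w hw hs hc hch ih =>
    intro hθ X hX Y hY h
    obtain ⟨k, hk, hne, hm⟩ :=
      message hE hD hok hY0 hX0 (h.swap hD hok) hw hs fun y hy => hc y (hY hy)
    have hwk := hw k hk
    have e : (θ0 / θ) ^ 3 * w k ^ 3 = (θ0 / (θ / w k)) ^ 3 := by field_simp
    rw [e] at hm
    obtain ⟨Y', hY', X', hX', h'⟩ :=
      hm (cost_ok hok h0 (by positivity) ((hch k hk).le_one (h.ne.1.mono hX) hne))
    exact ih k hk (by positivity) X' (hX'.trans hX) Y' hY' (h'.swap hD hok)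

lemma Side.weaken (hok : Ok A N t L s1) {X : Finset (U → A)} {I : Finset U} {α : U → A}
    (h : Side N s1 (t ^ 3) (s0 s1) X I α) : Side N s1 t (sz s1) X I α :=
  ⟨h.ne, h.ctx, fun J c hJ => le_trans (mul_le_mul_of_nonneg_left
    (pow_le_pow_left₀ hok.pos.le (le_self_pow₀ hok.one_lt.le (by norm_num)) _) (by positivity))
    (h.dense J c hJ), h.closed, h.small.trans (s0_le_sz s1)⟩

end lb

theorem lb (hE : ExtractStmt) (hD : DangStmt) : LBStmt := by
  intro ι U A _ _ _ _ _ _ N t L s1 hok a b X Y θ ⟨I, J, α, β, hX, hY, avX, avY⟩ hθ hs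
  have ht := pow_pos hok.pos (10 * s0 s1)
  have hθ0 : 0 < θ := by
    by_contra h
    have := mul_nonpos_of_nonpos_of_nonneg (not_lt.1 h) ht.le
    linarith
  refine simulate hE hD hok (I0 := I) (J0 := J) ⟨hX.dense, hX.small⟩ ⟨hY.dense, hY.small⟩ hθ hθ0
    hs hθ0 X Subset.rfl Y Subset.rfl ⟨I, α, J, β, ⟨hX.weaken hok, Subset.rfl, Subset.rfl⟩,
      ⟨hY.weaken hok, Subset.rfl, Subset.rfl⟩, by simpa using avX, avY, empty_subset _,
      disjoint_empty_left _, (hD ι U A N t L s1 hok a X I α (hX.weaken hok)).1, ?_⟩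
  rw [div_self hθ0.ne', one_pow, one_mul]
  have hg := gam_one hok.L_pos
  exact le_mul_of_one_le_right (mul_pos (pot_pos hok hX.ne I) (pot_pos hok hY.ne J)).le
    (one_le_pow₀ (by linarith))

end Pool.Agent.MP_6b3410_lc.H91
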