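import Mathlib
import Pool.Agent.MP_6b3410_lc.H91.Basic

/-!
Identities for product measures on subsets and the spread lemma for one random set.
-/

open Finset

namespace Pool.Agent.MP_6b3410_lc.H91

open Classical Pool.Agent.MP_6b3410_lc.H5

section prod

variable {X : Type} [Fintype X] [DecidableEq X]

lemma prod_mem_ite (f g : X → ℝ) (V : Finset X) :
    (∏ x, if x ∈ V then f x else g x) = (∏ x ∈ V, f x) * ∏ x ∈ Vᶜ, g x := by
  rw [← prod_mul_prod_compl V]
  congr 1
  · exact prod_congr rfl fun x hx => if_pos hx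
  · exact prod_congr rfl fun x hx => if_neg (mem_compl.1 hx)

lemma mu_prod (p : ℝ) (V : Finset X) : mu p V = ∏ x, if x ∈ V then p else 1 - p := by
  rw [mu_eq_prod, prod_mem_ite]

lemma sum_prod_ite (f g : X → ℝ) :
    ∑ V : Finset X, (∏ x, if x ∈ V then f x else g x) = ∏ x, (f x + g x) := by
  rw [Fintype.prod_add]
  exact sum_congr rfl fun V _ => prod_mem_ite f g V

lemma sum_prod_ite₂ (a b c d : X → ℝ) :
    ∑ V : Finset X, ∑ W : Finset X,
      (∏ x, if x ∈ W then (if x ∈ V then a x else b x) else (if x ∈ V then c x else d x)) =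
      ∏ x, (a x + c x + (b x + d x)) := by
  rw [← sum_prod_ite]
  refine sum_congr rfl fun V _ => ?_
  rw [sum_prod_ite]
  refine prod_congr rfl fun x _ => ?_
  split_ifs <;> rfl

lemma ite_eq_prod (A Z : Finset X) (c : ℝ) :
    (if A = Z then c else 0) = c * ∏ x, if (x ∈ A ↔ x ∈ Z) then (1 : ℝ) else 0 := by
  by_cases h : A = Z
  · simp [h]
  · rw [if_neg h]
    obtain ⟨x, hx⟩ : ∃ x, ¬ (x ∈ A ↔ x ∈ Z) := by
      by_contra h'
      exact h (Finset.ext fun x => by_contra fun hx => h' ⟨x, hx⟩)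
    rw [prod_eq_zero (mem_univ x) (if_neg hx), mul_zero]

lemma conv_union (p q : ℝ) (Z : Finset X) :
    ∑ V : Finset X, ∑ W : Finset X, (if V ∪ W = Z then mu p V * mu q W else 0) =
      mu (1 - (1 - p) * (1 - q)) Z := by
  have h := sum_prod_ite₂ (X := X) (fun x => if x ∈ Z then p * q else 0)
    (fun x => if x ∈ Z then (1 - p) * q else 0) (fun x => if x ∈ Z then p * (1 - q) else 0)
    (fun x => if x ∈ Z then 0 else (1 - p) * (1 - q))
  rw [mu_prod _ Z]
  refine Eq.trans (sum_congr rfl fun V _ => sum_congr rfl fun W _ => ?_)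
    (h.trans (prod_congr rfl fun x _ => ?_))
  · rw [ite_eq_prod, mu_prod, mu_prod, ← prod_mul_distrib, ← prod_mul_distrib]
    refine prod_congr rfl fun x _ => ?_
    by_cases h1 : x ∈ V <;> by_cases h2 : x ∈ W <;> by_cases h3 : x ∈ Z <;> simp [h1, h2, h3]
  · split_ifs <;> ring

lemma conv_sdiff (p q : ℝ) (Z : Finset X) :
    ∑ W : Finset X, ∑ V : Finset X, (if W \ V = Z then mu p W * mu q V else 0) =
      mu (p * (1 - q)) Z := by
  have h := sum_prod_ite₂ (X := X) (fun x => if x ∈ Z then 0 else p * q)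
    (fun x => if x ∈ Z then 0 else (1 - p) * q) (fun x => if x ∈ Z then p * (1 - q) else 0)
    (fun x => if x ∈ Z then 0 else (1 - p) * (1 - q))
  rw [mu_prod _ Z]
  refine Eq.trans (sum_congr rfl fun W _ => sum_congr rfl fun V _ => ?_)
    (h.trans (prod_congr rfl fun x _ => ?_))
  · rw [ite_eq_prod, mu_prod, mu_prod, ← prod_mul_distrib, ← prod_mul_distrib]
    refine prod_congr rfl fun x _ => ?_
    by_cases h1 : x ∈ W <;> by_cases h2 : x ∈ V <;> by_cases h3 : x ∈ Z <;> simp [h1, h2, h3]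
  · split_ifs <;> ring

lemma nu_eq_mu (q : ℝ) (j : ℕ) (Z : Finset X) : nu q j Z = mu (1 - (1 - q) ^ j) Z := by
  induction j generalizing Z with
  | zero =>
    rw [nu, mu]
    by_cases h : Z = ∅
    · simp [h]
    · have : Z.card ≠ 0 := fun h' => h (card_eq_zero.1 h')
      simp [h, this]
  | succ j ih =>
    rw [nu]
    simp only [ih]
    rw [conv_union]
    congr 1
    ring

lemma pr_nu (q : ℝ) (j : ℕ) (E : Finset X → Prop) :
    pr (nu q j) E = pr (mu (1 - (1 - q) ^ j)) E := by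
  simp only [pr, nu_eq_mu]

lemma pr_sdiff (p q : ℝ) (E : Finset X → Prop) :
    ∑ W : Finset X, mu p W * pr (mu q) (fun V => E (W \ V)) = pr (mu (p * (1 - q))) E := by
  simp only [pr, mul_sum, ← conv_sdiff]
  have : ∀ Z : Finset X, (if E Z then ∑ W : Finset X, ∑ V : Finset X,
      (if W \ V = Z then mu p W * mu q V else 0) else 0) =
      ∑ W : Finset X, ∑ V : Finset X,
        if W \ V = Z then (if E Z then mu p W * mu q V else 0) else 0 := by
    intro Z
    split_ifs <;> simp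
  simp only [this]
  symm
  rw [sum_comm]
  refine sum_congr rfl fun W _ => ?_
  rw [sum_comm]
  refine sum_congr rfl fun V _ => ?_
  rw [sum_ite_eq]
  simp

lemma pr_sup (p : ℝ) (B : Finset X) : pr (mu p) (fun W => B ⊆ W) = p ^ B.card := by
  have h := sum_mu_pow p 0 B
  rw [mul_zero, add_zero] at h
  rw [← h, pr]
  refine sum_congr rfl fun W _ => ?_
  by_cases hW : B ⊆ W
  · rw [if_pos hW, sdiff_eq_empty_iff_subset.2 hW]
    simp
  · have : (B \ W).card ≠ 0 := fun h' => hW (sdiff_eq_empty_iff_subset.1 (card_eq_zero.1 h'))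
    rw [if_neg hW, zero_pow this, mul_zero]

/-- a density is reached by a union of `L` independent sets of density at least `p / L` -/
lemma exists_root {p : ℝ} {L : ℕ} (h0 : 0 < p) (h1 : p ≤ 1) (hL : 1 ≤ L) :
    ∃ q : ℝ, p ≤ L * q ∧ q ≤ 1 ∧ 1 - (1 - q) ^ L = p := by
  have hL0 : L ≠ 0 := by omega
  have h2 : (0 : ℝ) ≤ 1 - p := by linarith
  have h3 : ((1 - p) ^ ((L : ℝ)⁻¹)) ^ L = 1 - p := Real.rpow_inv_natCast_pow h2 hL0
  have h4 : 0 ≤ (1 - p) ^ ((L : ℝ)⁻¹) := Real.rpow_nonneg h2 _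
  refine ⟨1 - (1 - p) ^ ((L : ℝ)⁻¹), ?_, by linarith, by rw [sub_sub_cancel, h3]; ring⟩
  have h5 := one_add_mul_le_pow (a := (1 - p) ^ ((L : ℝ)⁻¹) - 1) (by linarith) L
  rw [add_sub_cancel, h3] at h5
  linarith

lemma spread_mu {p r : ℝ} {L l : ℕ} {κ : Type} {F : Finset κ} {S : κ → Finset X} (h0 : 0 < p)
    (h1 : p ≤ 1) (hL : 1 ≤ L) (hr : 1024 * L ≤ p * r) (hF : F.Nonempty) (hsp : Spread F S r)
    (hl : ∀ k ∈ F, (S k).card ≤ l) :
    pr (mu p) (fun W => ¬ ∃ k ∈ F, S k ⊆ W) ≤ (2 / 3) ^ L * l := by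
  obtain ⟨q, hq, hq1, hqp⟩ := exists_root h0 h1 hL
  have hL1 : (1 : ℝ) ≤ L := by exact_mod_cast hL
  have hq0 : 0 < q := by
    by_contra h
    have : (L : ℝ) * q ≤ 0 := mul_nonpos_of_nonneg_of_nonpos (by linarith) (not_lt.1 h)
    linarith
  have hr0 : 0 < r := by
    by_contra h
    have : p * r ≤ 0 := mul_nonpos_of_nonneg_of_nonpos h0.le (not_lt.1 h)
    linarith
  have hqr : 1024 ≤ q * r := by
    have h2 : p * r ≤ L * q * r := mul_le_mul_of_nonneg_right hq hr0.le
    refine le_of_mul_le_mul_right (a := (L : ℝ)) ?_ (by linarith)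
    linarith
  have h2 := spread_lemma hq0 hq1 hqr L F S hsp
  rw [pr_nu, hqp] at h2
  have h3 : ∑ k ∈ F, ((S k).card : ℝ) ≤ l * F.card := by
    rw [mul_comm, ← nsmul_eq_mul, ← sum_const]
    exact sum_le_sum fun k hk => by exact_mod_cast hl k hk
  have h4 : (0 : ℝ) < F.card := by exact_mod_cast hF.card_pos
  refine le_of_mul_le_mul_right (h2.trans ?_) h4
  rw [mul_assoc]
  exact mul_le_mul_of_nonneg_left h3 (by positivity)

end prod

theorem meas : MeasStmt := fun _ _ _ =>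
  ⟨pr_nu, pr_sdiff, pr_sup, fun _ _ _ _ _ _ _ h0 h1 hL hr hF hsp hl =>
    spread_mu h0 h1 hL hr hF hsp hl⟩

end Pool.Agent.MP_6b3410_lc.H91
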