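import Mathlib
import Pool.Agent.MP_6b3410_lc.H91.Basic

/-!
Subsampling of a spread measure: an exponential moment and a weighted union bound.
-/

open Finset

namespace Pool.Agent.MP_6b3410_lc.H91

open Classical Pool.Agent.MP_6b3410_lc.H5

lemma sub_moment {Ω : Type} [Fintype Ω] (ν : Ω → ℝ) (hν : ∑ w, ν w = 1) (E : Ω → Prop)
    [DecidablePred E] (M : ℕ) :
    ∑ g : Fin M → Ω, (∏ k, ν (g k)) * (2 : ℝ) ^ (univ.filter fun k => E (g k)).card =
      (1 + ∑ w, if E w then ν w else 0) ^ M := by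
  have h1 : (1 + ∑ w, if E w then ν w else 0) = ∑ w, ν w * (if E w then 2 else 1) := by
    rw [← hν, ← sum_add_distrib]
    refine sum_congr rfl fun w _ => ?_
    rw [hν]
    split_ifs <;> ring
  rw [h1, Fintype.sum_pow]
  refine sum_congr rfl fun g _ => ?_
  rw [prod_mul_distrib, prod_ite, prod_const, prod_const, one_pow, mul_one]

lemma sub_exp {q : ℝ} (hq : 0 ≤ q) (M y : ℕ) (h : q * M ≤ y / 4) :
    (1 + q) ^ M - 1 ≤ q * M * (4 / 3) ^ y := by
  have h1 : (1 + q) ^ M ≤ Real.exp (q * M) := by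
    rw [mul_comm, Real.exp_nat_mul]
    exact pow_le_pow_left₀ (by positivity) (by linarith [Real.add_one_le_exp q]) M
  have h2 : Real.exp (q * M) - 1 ≤ q * M * Real.exp (q * M) := by
    have h3 := Real.add_one_le_exp (-(q * M))
    have h4 : Real.exp (-(q * M)) * Real.exp (q * M) = 1 := by rw [← Real.exp_add]; simp
    have h5 := Real.exp_pos (q * M)
    nlinarith
  have h6 : Real.exp (1 / 4) ≤ 4 / 3 := by
    have h3 := Real.add_one_le_exp (-(1 / 4))
    have h4 : Real.exp (-(1 / 4)) * Real.exp (1 / 4) = 1 := by rw [← Real.exp_add]; simp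
    have h5 := Real.exp_pos (1 / 4)
    nlinarith
  have h7 : Real.exp (q * M) ≤ (4 / 3) ^ y := by
    calc Real.exp (q * M) ≤ Real.exp (y * (1 / 4)) := Real.exp_le_exp.2 (by linarith)
      _ = Real.exp (1 / 4) ^ y := Real.exp_nat_mul _ _
      _ ≤ _ := pow_le_pow_left₀ (Real.exp_pos _).le h6 y
  have h8 : 0 ≤ q * M := by positivity
  nlinarith [mul_le_mul_of_nonneg_left h7 h8]

lemma sub_num {z : ℕ} (hz : 64 ≤ z) : z ^ 4 * 2 ^ z < 3 ^ z := by
  induction z, hz using Nat.le_induction with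
  | base => norm_num
  | succ n hn ih =>
    have h1 : (n + 1) ^ 4 * 2 ≤ n ^ 4 * 3 := by
      obtain ⟨m, rfl⟩ := Nat.exists_eq_add_of_le hn
      ring_nf
      omega
    calc (n + 1) ^ 4 * 2 ^ (n + 1) = ((n + 1) ^ 4 * 2) * 2 ^ n := by ring
      _ ≤ (n ^ 4 * 3) * 2 ^ n := Nat.mul_le_mul_right _ h1
      _ = (n ^ 4 * 2 ^ n) * 3 := by ring
      _ < 3 ^ n * 3 := by omega
      _ = 3 ^ (n + 1) := by ring

lemma sub_total {Ω ι : Type} [Fintype Ω] [Fintype ι] [DecidableEq ι] (ν : Ω → ℝ)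
    (T : Ω → Finset ι) (j : ℕ) (h0 : ∀ w, 0 ≤ ν w) (hν : ∑ w, ν w = 1)
    (hT : ∀ w, ν w ≠ 0 → (T w).card ≤ 2 * j) :
    ∑ C : Finset ι, (∑ w, if C ⊆ T w then ν w else 0) ≤ 4 ^ j := by
  rw [sum_comm]
  calc ∑ w, ∑ C : Finset ι, (if C ⊆ T w then ν w else 0) ≤ ∑ w, ν w * 4 ^ j := by
        refine sum_le_sum fun w _ => ?_
        by_cases hw : ν w = 0
        · simp [hw]
        have h1 : (univ.filter fun C : Finset ι => C ⊆ T w) = (T w).powerset := by
          ext C; simp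
        rw [← sum_filter, h1, sum_const, card_powerset, nsmul_eq_mul, mul_comm]
        refine mul_le_mul_of_nonneg_left ?_ (h0 w)
        have h2 : 2 ^ (T w).card ≤ 4 ^ j := by
          rw [show 4 = 2 ^ 2 by norm_num, ← pow_mul]
          exact Nat.pow_le_pow_right (by norm_num) (hT w hw)
        exact_mod_cast h2
    _ = 4 ^ j := by rw [← sum_mul, hν, one_mul]

theorem sub : SubStmt := by
  intro Ω ι _ _ _ ν T σ j hσ hj h0 hν hT hq
  set M := (σ ^ 3) ^ j with hM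
  set q : Finset ι → ℝ := fun C => ∑ w, if C ⊆ T w then ν w else 0 with hqdef
  have hq0 : ∀ C, 0 ≤ q C := fun C => sum_nonneg fun w _ => by
    split_ifs
    exacts [h0 w, le_rfl]
  set y : Finset ι → ℕ := fun C => σ ^ (3 * j - C.card) with hy
  set 𝒞 : Finset (Finset ι) := univ.filter fun C => 1 ≤ C.card ∧ C.card ≤ 2 * j with h𝒞
  set cnt : Finset ι → (Fin M → Ω) → ℕ :=
    fun C g => (univ.filter fun k => C ⊆ T (g k)).card with hcnt
  set P : (Fin M → Ω) → ℝ := fun g => ∏ k, ν (g k) with hP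
  have hP0 : ∀ g, 0 ≤ P g := fun g => prod_nonneg fun k _ => h0 _
  have hP1 : ∑ g, P g = 1 := by
    rw [hP, ← Fintype.sum_pow, hν, one_pow]
  have hσ0 : 0 < σ := by omega
  have hyM : ∀ C ∈ 𝒞, y C * σ ^ C.card = M := fun C hC => by
    have h := (mem_filter.1 hC).2
    rw [hy, hM, ← pow_mul, ← pow_add]
    congr 1
    omega
  have hyz : ∀ C ∈ 𝒞, σ ^ j ≤ y C := fun C hC => by
    have h := (mem_filter.1 hC).2
    exact Nat.pow_le_pow_right hσ0 (by omega)
  -- one term of the union bound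
  have hterm : ∀ C ∈ 𝒞, ∑ g, P g * (((2 : ℝ) ^ cnt C g - 1) / 2 ^ y C) ≤
      q C * (M * (2 / 3) ^ (σ ^ j)) := fun C hC => by
    have h1 : ∑ g, P g * (((2 : ℝ) ^ cnt C g - 1) / 2 ^ y C) = ((1 + q C) ^ M - 1) / 2 ^ y C := by
      have h2 := sub_moment ν hν (fun w => C ⊆ T w) M
      rw [← h2]
      conv_rhs => rw [← hP1]
      rw [← sum_sub_distrib, sum_div]
      refine sum_congr rfl fun g _ => ?_
      change _ = (P g * 2 ^ cnt C g - P g) / 2 ^ y C
      ring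
    have h3 : q C * M ≤ y C / 4 := by
      have h4 := hq C
      have h5 : (M : ℝ) = y C * σ ^ C.card := by exact_mod_cast (hyM C hC).symm
      have h6 : (4 : ℝ) ≤ 4 ^ C.card :=
        le_self_pow₀ (by norm_num) (by have := (mem_filter.1 hC).2.1; omega)
      have h7 : 0 ≤ q C * σ ^ C.card := mul_nonneg (hq0 C) (by positivity)
      have h8 : q C * σ ^ C.card ≤ 1 / 4 := by
        rw [mul_pow] at h4
        have : q C * (4 ^ C.card * (σ : ℝ) ^ C.card) = 4 ^ C.card * (q C * σ ^ C.card) := by ring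
        change q C * _ ≤ 1 at h4
        nlinarith
      have h9 : (0 : ℝ) ≤ y C := Nat.cast_nonneg _
      rw [h5]
      nlinarith
    have h10 := sub_exp (hq0 C) M (y C) h3
    have h11 : ((2 : ℝ) / 3) ^ y C ≤ (2 / 3) ^ (σ ^ j) :=
      pow_le_pow_of_le_one (by norm_num) (by norm_num) (hyz C hC)
    have h12 : 0 ≤ q C * M := mul_nonneg (hq0 C) (Nat.cast_nonneg _)
    rw [h1, div_le_iff₀ (by positivity)]
    calc (1 + q C) ^ M - 1 ≤ q C * M * (4 / 3) ^ y C := h10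
      _ = q C * M * (2 / 3) ^ y C * 2 ^ y C := by
        rw [mul_assoc (q C * M), ← mul_pow]; norm_num
      _ ≤ q C * M * (2 / 3) ^ (σ ^ j) * 2 ^ y C :=
        mul_le_mul_of_nonneg_right (mul_le_mul_of_nonneg_left h11 h12) (by positivity)
      _ = _ := by ring
  -- the total
  set Φ : (Fin M → Ω) → ℝ := fun g => ∑ C ∈ 𝒞, ((2 : ℝ) ^ cnt C g - 1) / 2 ^ y C with hΦ
  have htot : ∑ g, P g * Φ g < 1 := by
    have h1 : ∑ g, P g * Φ g = ∑ C ∈ 𝒞, ∑ g, P g * (((2 : ℝ) ^ cnt C g - 1) / 2 ^ y C) := by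
      rw [sum_comm]
      exact sum_congr rfl fun g _ => mul_sum _ _ _
    have h2 : ∑ C ∈ 𝒞, q C ≤ 4 ^ j :=
      (sum_le_sum_of_subset_of_nonneg (filter_subset _ _) fun C _ _ => hq0 C).trans
        (sub_total ν T j h0 hν hT)
    have hz : 64 ≤ σ ^ j := hσ.trans (Nat.le_self_pow (by omega) _)
    have h3 : ((σ ^ j : ℕ) : ℝ) ^ 4 * 2 ^ (σ ^ j) < 3 ^ (σ ^ j) := by exact_mod_cast sub_num hz
    have h4 : (4 : ℝ) ^ j ≤ ((σ ^ j : ℕ) : ℝ) := by
      exact_mod_cast Nat.pow_le_pow_left (by omega : 4 ≤ σ) j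
    have h5 : (M : ℝ) = ((σ ^ j : ℕ) : ℝ) ^ 3 := by
      rw [hM, ← pow_mul, mul_comm, pow_mul]; push_cast; ring
    rw [h1]
    calc _ ≤ ∑ C ∈ 𝒞, q C * (M * (2 / 3) ^ (σ ^ j)) := sum_le_sum hterm
      _ = (∑ C ∈ 𝒞, q C) * (M * (2 / 3) ^ (σ ^ j)) := by rw [sum_mul]
      _ ≤ ((σ ^ j : ℕ) : ℝ) * (M * (2 / 3) ^ (σ ^ j)) :=
        mul_le_mul_of_nonneg_right (h2.trans h4) (by positivity)
      _ = ((σ ^ j : ℕ) : ℝ) ^ 4 * 2 ^ (σ ^ j) / 3 ^ (σ ^ j) := by
        rw [h5, div_pow]; ring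
      _ < 1 := (div_lt_one (by positivity)).2 h3
  have hex : ∃ g, P g ≠ 0 ∧ Φ g < 1 := by
    by_contra hcon
    push Not at hcon
    have : ∑ g, P g ≤ ∑ g, P g * Φ g := sum_le_sum fun g _ => by
      by_cases hg : P g = 0
      · simp [hg]
      · exact le_mul_of_one_le_right (hP0 g) (hcon g hg)
    linarith
  obtain ⟨g, hg, hΦg⟩ := hex
  have hgk : ∀ k, ν (g k) ≠ 0 := fun k => (prod_ne_zero_iff.1 hg) k (mem_univ k)
  refine ⟨g, hgk, fun C => ?_⟩
  have hcard : ((univ : Finset (Fin M)).card : ℝ) = M := by simp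
  rw [hcard]
  change (cnt C g : ℝ) * (σ : ℝ) ^ C.card ≤ M
  by_cases hC : C ∈ 𝒞
  · have hnn : ∀ D ∈ 𝒞, 0 ≤ ((2 : ℝ) ^ cnt D g - 1) / 2 ^ y D := fun D _ =>
      div_nonneg (sub_nonneg.2 (one_le_pow₀ (by norm_num))) (by positivity)
    have h1 : ((2 : ℝ) ^ cnt C g - 1) / 2 ^ y C < 1 := (single_le_sum hnn hC).trans_lt hΦg
    rw [div_lt_one (by positivity), sub_lt_iff_lt_add] at h1
    have h2 : 2 ^ cnt C g < 2 ^ y C + 1 := by exact_mod_cast h1
    have h3 : cnt C g ≤ y C := (Nat.pow_le_pow_iff_right (by norm_num : 1 < 2)).1 (by omega)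
    have h4 : cnt C g * σ ^ C.card ≤ M := hyM C hC ▸ Nat.mul_le_mul_right _ h3
    exact_mod_cast h4
  · have h1 : C.card = 0 ∨ 2 * j < C.card := by
      simp only [h𝒞, mem_filter, mem_univ, true_and] at hC
      omega
    rcases h1 with h1 | h1
    · rw [h1, pow_zero, mul_one]
      have : cnt C g ≤ M := (card_filter_le _ _).trans (by simp)
      exact_mod_cast this
    · have : cnt C g = 0 := by
        rw [hcnt, card_eq_zero, filter_eq_empty_iff]
        intro k _ hk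
        have := (card_le_card hk).trans (hT _ (hgk k))
        omega
      rw [this]
      simp

end Pool.Agent.MP_6b3410_lc.H91
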