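import Mathlib
import Pool.Agent.MP_6b3410_lc.H91.Extract
import Pool.Agent.MP_6b3410_lc.H91.Meas
import Pool.Agent.MP_6b3410_lc.H91.Hit
import Pool.Agent.MP_6b3410_lc.H91.Sub
import Pool.Agent.MP_6b3410_lc.H91.Core
import Pool.Agent.MP_6b3410_lc.H91.Dang
import Pool.Agent.MP_6b3410_lc.H91.LB
import Pool.Agent.MP_6b3410_lc.H91.Comp
import Pool.Agent.MP_6b3410_lc.H91.Circ

/-!
The circuit lower bound for the abstract function.
-/

namespace Pool.Agent.MP_6b3410_lc.H91

theorem circ_holds : CircStmt :=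
  circ (lb extract (dang meas sub (core meas (hitL meas)))) (comp (part extract))

end Pool.Agent.MP_6b3410_lc.H91
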