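import Pool.Agent.MP_6b3410_lc.H91.Basic

/-!
Choice of the parameters.
-/

open Filter

namespace Pool.Agent.MP_6b3410_lc.H91

namespace Par

theorem big (c : ℕ) : ∃ l₀ : ℕ, ∀ l ≥ l₀, 2 * l ^ c ≤ 2 ^ l := by
  have h := (tendsto_pow_const_div_const_pow_of_one_lt c (r := 2) one_lt_two).eventually
    (gt_mem_nhds (show (0 : ℝ) < 1 / 2 by norm_num))
  obtain ⟨l₀, h⟩ := eventually_atTop.1 h
  refine ⟨l₀, fun l hl => ?_⟩
  have h1 := h l hl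
  rw [div_lt_div_iff₀ (by positivity) (by positivity)] at h1
  have h2 : (2 : ℝ) * (l : ℝ) ^ c ≤ 2 ^ l := by linarith
  exact_mod_cast h2

theorem t_le {l : ℕ} (hl : 65536 ≤ l) : (4 * gam (4 * l)) ^ 2 ≤ l ^ 728 := by
  have h1 : 4096 * (4 * l) ^ 2 ≤ l ^ 5 := by
    have h0 : 1 ≤ l ^ 2 := Nat.one_le_pow _ _ (by omega)
    calc 4096 * (4 * l) ^ 2 = 65536 * 1 * l ^ 2 := by ring
      _ ≤ l * l ^ 2 * l ^ 2 := by gcongr
      _ = l ^ 5 := by ring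
  have h2 : sig (4 * l) ≤ l ^ 121 := by
    calc sig (4 * l) = 20 * (4096 * (4 * l) ^ 2) ^ 24 := rfl
      _ ≤ l * (l ^ 5) ^ 24 := Nat.mul_le_mul (by omega) (Nat.pow_le_pow_left h1 _)
      _ = l ^ 121 := by rw [← pow_mul, ← pow_succ']
  have h3 : 4 * gam (4 * l) ≤ l ^ 364 := by
    calc 4 * gam (4 * l) = 4 * sig (4 * l) ^ 3 := rfl
      _ ≤ l * (l ^ 121) ^ 3 := Nat.mul_le_mul (by omega) (Nat.pow_le_pow_left h2 _)
      _ = l ^ 364 := by rw [← pow_mul, ← pow_succ']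
  calc (4 * gam (4 * l)) ^ 2 ≤ (l ^ 364) ^ 2 := Nat.pow_le_pow_left h3 _
    _ = l ^ 728 := by rw [← pow_mul]

theorem t_ge {L : ℕ} (hL : 1 ≤ L) : 512 ≤ (4 * gam L) ^ 2 := by
  have h1 := (sig_ge' hL).trans (sig_le_gam hL)
  have h2 : 1 ≤ L ^ 2 := Nat.one_le_pow _ _ hL
  have h3 : 32 ≤ 4 * gam L := by omega
  exact le_trans (by norm_num) (Nat.pow_le_pow_left h3 2)

theorem F_le {l t : ℕ} (hl : 65536 ≤ l) (h1 : 1 ≤ t) (ht : t ≤ l ^ 728) :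
    10 ^ 12 * (2 * t ^ 250 + 1) ^ 2 ≤ l ^ 364005 := by
  have h2 : 1 ≤ t ^ 250 := Nat.one_le_pow _ _ h1
  have h3 : 2 * t ^ 250 + 1 ≤ l ^ 182001 := by
    calc 2 * t ^ 250 + 1 ≤ 3 * t ^ 250 := by omega
      _ ≤ l * (l ^ 728) ^ 250 := Nat.mul_le_mul (by omega) (Nat.pow_le_pow_left ht _)
      _ = l ^ 182001 := by rw [← pow_mul, ← pow_succ']
  have h4 : 10 ^ 12 ≤ l ^ 3 := le_trans (by norm_num) (Nat.pow_le_pow_left hl 3)
  calc 10 ^ 12 * (2 * t ^ 250 + 1) ^ 2 ≤ l ^ 3 * (l ^ 182001) ^ 2 :=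
        Nat.mul_le_mul h4 (Nat.pow_le_pow_left h3 _)
    _ = l ^ 364005 := by rw [← pow_mul, ← pow_add]

theorem decay {l v : ℕ} (hv : 300 * v ≤ 2 ^ l) :
    (2 / 3 : ℝ) ^ (4 * l) * ((4 * l : ℕ) : ℝ) * v ≤ 1 / 8 := by
  have h1 : (300 : ℝ) * v ≤ 2 ^ l := by exact_mod_cast hv
  have h2 : (l : ℝ) ≤ 2 ^ l := by exact_mod_cast (Nat.lt_two_pow_self (n := l)).le
  have h3 : (2 / 3 : ℝ) ^ (4 * l) * (2 ^ l * 2 ^ l) ≤ 1 := by
    rw [pow_mul, ← mul_pow, ← mul_pow]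
    exact pow_le_one₀ (by norm_num) (by norm_num)
  have h4 : (l : ℝ) * (300 * v) ≤ 2 ^ l * 2 ^ l := by gcongr
  have h5 : (0 : ℝ) ≤ (2 / 3 : ℝ) ^ (4 * l) := by positivity
  have h6 := mul_le_mul_of_nonneg_left h4 h5
  push_cast
  linarith

theorem log_aux {x y z : ℝ} (h4 : 8 ≤ x) (h3 : 0.6931471803 < z) (h2 : x * z ≤ y) :
    x + 1 ≤ y ^ 2 := by
  have h5 : x / 2 ≤ y := by nlinarith
  have h6 := pow_le_pow_left₀ (by positivity) h5 2
  nlinarith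

theorem log_sq {M : ℕ} (hM : 65536 ≤ Nat.log 2 M + 1) :
    ((Nat.log 2 M + 1 : ℕ) : ℝ) ≤ Real.log M ^ 2 := by
  have h0 : M ≠ 0 := by rintro rfl; simp at hM
  have h1 : (2 : ℝ) ^ Nat.log 2 M ≤ M := by exact_mod_cast Nat.pow_log_le_self 2 h0
  have h2 := Real.log_le_log (by positivity) h1
  rw [Real.log_pow] at h2
  have h3 := Real.log_two_gt_d9
  have h4 : (8 : ℝ) ≤ Nat.log 2 M := by exact_mod_cast (by omega : 8 ≤ Nat.log 2 M)
  push_cast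
  exact log_aux h4 h3 h2

/-- the arithmetic of the parameters, with the sizes as variables -/
theorem core {M l t T D F c : ℕ} (hl : 65536 ≤ l) (hM : M < 2 ^ l) (ht : 512 ≤ t)
    (hT : t ^ 10 ≤ T) (hD : D = 2 * T + 1) (hF : F = 10 ^ 12 * D ^ 2) (hc : F ≤ l ^ c)
    (hb : l ^ (c + 2) ≤ M) :
    ∃ n v s1 : ℕ, 1 ≤ v ∧ v ≤ n ∧ v * t ^ 10 ≤ n ∧ 300 * n ≤ M ∧ 2 * v * T < n ∧
      40000000 * n * cap s1 ≤ v ^ 2 ∧ sz s1 ≤ v ∧ 256 * n ≤ t ^ s1 ∧ 1 ≤ s1 ∧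
      M ≤ l ^ (c + 1) * (s1 - 1) := by
  have hD0 : 0 < D := by omega
  have hF0 : 0 < F := by rw [hF]; positivity
  obtain ⟨n, hn⟩ : ∃ n, n = M / 300 := ⟨_, rfl⟩
  have n1 : 300 * n ≤ M := by omega
  have n2 : M < 300 * (n + 1) := by omega
  have v1 : D * (n / D) ≤ n := Nat.mul_div_le n D
  have v2 : n < D * (n / D + 1) := Nat.lt_mul_div_succ n hD0
  have s1 : F * (n / F) ≤ n := Nat.mul_div_le n F
  have s2 : n < F * (n / F + 1) := Nat.lt_mul_div_succ n hF0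
  generalize n / D = v at v1 v2
  generalize n / F = s at s1 s2
  have m1 : M ≤ 300 * (F * (s + 1)) := by omega
  have m2 : F * (l * l) ≤ F * (300 * (s + 1)) := by
    calc F * (l * l) ≤ l ^ c * (l * l) := Nat.mul_le_mul_right _ hc
      _ = l ^ (c + 2) := by ring
      _ ≤ _ := hb.trans (m1.trans_eq (by ring))
  have m3 : l * l ≤ 300 * (s + 1) := Nat.le_of_mul_le_mul_left m2 hF0
  have m4 : 65536 * l ≤ l * l := Nat.mul_le_mul_right _ hl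
  have hs : l ≤ s := by omega
  have a1 : D * (10 ^ 12 * D * s) ≤ D * (v + 1) := by
    calc D * (10 ^ 12 * D * s) = F * s := by rw [hF]; ring
      _ ≤ _ := s1.trans v2.le
  have a2 : 10 ^ 12 * D * s ≤ v + 1 := Nat.le_of_mul_le_mul_left a1 hD0
  have a3 : 10 ^ 12 * 1 * s ≤ 10 ^ 12 * D * s := by gcongr; omega
  have hv : 1 ≤ v := by omega
  have a4 : n ≤ D * (2 * v) := v2.le.trans (Nat.mul_le_mul_left _ (by omega))
  have a5 : D * v = 2 * v * T + v := by rw [hD]; ring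
  have a6 : D ^ 2 * (10 ^ 12 * (n * s)) ≤ D ^ 2 * (4 * v ^ 2) := by
    calc D ^ 2 * (10 ^ 12 * (n * s)) = F * s * n := by rw [hF]; ring
      _ ≤ (D * (2 * v)) * (D * (2 * v)) := Nat.mul_le_mul (s1.trans a4) a4
      _ = _ := by ring
  have a7 : 10 ^ 12 * (n * s) ≤ 4 * v ^ 2 := Nat.le_of_mul_le_mul_left a6 (by positivity)
  have a8 : cap s ≤ 2614 * s := by simp only [cap, sz, s0]; omega
  refine ⟨n, v, s, hv, by omega, ?_, n1, by omega, ?_, by simp only [sz, s0]; omega, ?_,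
    by omega, ?_⟩
  · calc v * t ^ 10 ≤ v * D := Nat.mul_le_mul_left _ (by omega)
      _ ≤ n := by rw [mul_comm]; exact v1
  · have : 40000000 * n * cap s ≤ 40000000 * n * (2614 * s) := Nat.mul_le_mul_left _ a8
    have e : 40000000 * n * (2614 * s) = 104560000000 * (n * s) := by ring
    omega
  · calc 256 * n ≤ 2 ^ 8 * 2 ^ l := Nat.mul_le_mul (by norm_num) (by omega)
      _ = 2 ^ (8 + l) := by rw [pow_add]
      _ ≤ 2 ^ (9 * s) := Nat.pow_le_pow_right (by norm_num) (by omega)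
      _ = 512 ^ s := by rw [pow_mul]; norm_num
      _ ≤ t ^ s := Nat.pow_le_pow_left ht _
  · calc M ≤ 300 * (F * (s + 1)) := m1
      _ = F * (300 * (s + 1)) := by ring
      _ ≤ l ^ c * (l * (s - 1)) := by
        refine Nat.mul_le_mul hc ?_
        have : 65536 * (s - 1) ≤ l * (s - 1) := Nat.mul_le_mul_right _ hl
        omega
      _ = _ := by ring

end Par

theorem par : ParStmt := by
  obtain ⟨c, hc⟩ : ∃ c : ℕ, ∀ l t : ℕ, 65536 ≤ l → 1 ≤ t → t ≤ l ^ 728 →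
      10 ^ 12 * (2 * t ^ 250 + 1) ^ 2 ≤ l ^ c := ⟨_, fun _ _ => Par.F_le⟩
  obtain ⟨l₀, hl₀⟩ := Par.big (c + 2)
  refine ⟨2 * (c + 1), 2 ^ max l₀ 65536, fun M hM => ?_⟩
  have h0 : M ≠ 0 := by
    have : 0 < 2 ^ max l₀ 65536 := by positivity
    omega
  have h1 : max l₀ 65536 ≤ Nat.log 2 M := Nat.le_log_of_pow_le (by norm_num) hM
  have h2 := Nat.lt_pow_succ_log_self (b := 2) (by norm_num) M
  have h3 := Nat.pow_log_le_self 2 h0
  have hl : 65536 ≤ Nat.log 2 M + 1 := by omega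
  have h4 := hl₀ (Nat.log 2 M + 1) (by omega)
  have h5 := Par.log_sq hl
  rw [pow_succ 2 (Nat.log 2 M)] at h4
  have h6 : (Nat.log 2 M + 1) ^ (c + 2) ≤ M := by omega
  rw [Nat.succ_eq_add_one] at h2
  generalize Nat.log 2 M + 1 = l at hl h2 h5 h6
  have t1 := Par.t_le hl
  have t2 := Par.t_ge (L := 4 * l) (by omega)
  obtain ⟨t, ht⟩ : ∃ t, t = (4 * gam (4 * l)) ^ 2 := ⟨_, rfl⟩
  rw [← ht] at t1 t2
  obtain ⟨n, v, s, a1, a2, a3, a4, a5, a6, a7, a8, a9, a10⟩ := Par.core (T := t ^ 250) hl h2 t2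
    (Nat.pow_le_pow_right (by omega) (by norm_num)) rfl rfl (hc l t hl (by omega) t1) h6
  refine ⟨n, v, t, 4 * l, s, a1, by omega, a2, a3, a4, by rwa [← pow_mul], a6, by omega,
    Par.decay (by omega), a7, ?_, ht.ge, a8, ?_⟩
  · have : 2 ^ l ≤ 2 ^ (4 * l) := Nat.pow_le_pow_right (by norm_num) (by omega)
    omega
  · have b0 : (65536 : ℝ) ≤ l := by exact_mod_cast hl
    have b1 : (l : ℝ) ^ (c + 1) ≤ Real.log M ^ (2 * (c + 1)) := by
      rw [pow_mul]; exact pow_le_pow_left₀ (by positivity) h5 _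
    have b2 : (M : ℝ) ≤ (l : ℝ) ^ (c + 1) * ((s : ℝ) - 1) := by
      have : (M : ℝ) ≤ ((l ^ (c + 1) * (s - 1) : ℕ) : ℝ) := by exact_mod_cast a10
      rwa [Nat.cast_mul, Nat.cast_pow, Nat.cast_sub a9, Nat.cast_one] at this
    have b3 : (1 : ℝ) ≤ s := by exact_mod_cast a9
    have b4 : (0 : ℝ) < (l : ℝ) ^ (c + 1) := by positivity
    have b5 : (M : ℝ) / Real.log M ^ (2 * (c + 1)) ≤ (s : ℝ) - 1 := by
      rw [div_le_iff₀ (b4.trans_le b1), mul_comm]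
      exact b2.trans (mul_le_mul_of_nonneg_right b1 (by linarith))
    have b6 : Real.exp 1 ≤ t := by
      have : (512 : ℝ) ≤ t := by exact_mod_cast t2
      linarith [Real.exp_one_lt_d9]
    calc 2 * Real.exp (M / Real.log M ^ (2 * (c + 1))) ≤ Real.exp 1 * Real.exp ((s : ℝ) - 1) :=
          mul_le_mul (by linarith [Real.exp_one_gt_d9]) (Real.exp_le_exp.2 b5)
            (Real.exp_pos _).le (Real.exp_pos _).le
      _ = Real.exp 1 ^ s := by rw [← Real.exp_add, ← Real.exp_nat_mul]; congr 1; ring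
      _ ≤ (t : ℝ) ^ s := pow_le_pow_left₀ (Real.exp_pos _).le b6 _

end Pool.Agent.MP_6b3410_lc.H91
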