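import Mathlib
import Pool.Agent.MP_6b3410_lc.H91.Basic

/-!
Two patterns such that every pair of points has a common hit (counting argument).
-/

open Finset

namespace Pool.Agent.MP_6b3410_lc.H91

open Classical

namespace Patx

/-- a cylinder on at most twelve blocks has density at least `m ^ (-12)` -/
lemma cyl_ge {v m : ℕ} (hm : 1 ≤ m) (J : Finset (Fin v)) (hJ : J.card ≤ 12) (c : Fin v → Fin m) :
    (Fintype.card (Fin v → Fin m) : ℝ) ≤
      ((cyl (univ : Finset (Fin v → Fin m)) J c).card : ℝ) * (m : ℝ) ^ 12 := by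
  have h := card_cyl_univ J c
  rw [Fintype.card_fin] at h
  rw [← h]
  exact_mod_cast Nat.mul_le_mul_left _ (Nat.pow_le_pow_right hm hJ)

/-- the union bound -/
lemma exists_good {T : Type} [Fintype T] [DecidableEq T] [Nonempty T] {n : ℕ} (G : T → Fin n → Finset T)
    (q : ℝ) (hG : ∀ z i, q * Fintype.card T ≤ (G z i).card)
    (hq : (Fintype.card T : ℝ) * Real.exp (-(q * n)) < 1) :
    ∃ f : Fin n → T, ∀ z, ∃ i, f i ∈ G z i := by
  by_contra hcon
  push Not at hcon
  have hQ : (0 : ℝ) < Fintype.card T := by exact_mod_cast Fintype.card_pos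
  have h1 : (univ : Finset (Fin n → T)) ⊆
      univ.biUnion fun z => Fintype.piFinset fun i => (G z i)ᶜ := fun f _ => by
    obtain ⟨z, hz⟩ := hcon f
    exact mem_biUnion.2 ⟨z, mem_univ _, Fintype.mem_piFinset.2 fun i => mem_compl.2 (hz i)⟩
  have h2 : ∀ z i, (((G z i)ᶜ).card : ℝ) ≤ Fintype.card T * Real.exp (-q) := fun z i => by
    have e1 : (((G z i)ᶜ).card : ℝ) = Fintype.card T - (G z i).card := by
      rw [card_compl, Nat.cast_sub (card_le_univ _)]
    have e2 := Real.add_one_le_exp (-q)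
    have e3 := hG z i
    rw [e1]
    nlinarith
  have h3 : ∀ z, ((Fintype.piFinset fun i => (G z i)ᶜ).card : ℝ) ≤
      (Fintype.card T : ℝ) ^ n * Real.exp (-(q * n)) := fun z => by
    rw [Fintype.card_piFinset, Nat.cast_prod]
    calc ∏ i, (((G z i)ᶜ).card : ℝ) ≤ ∏ _i : Fin n, (Fintype.card T * Real.exp (-q)) :=
          prod_le_prod (fun _ _ => Nat.cast_nonneg _) fun i _ => h2 z i
      _ = _ := by
          rw [prod_const, card_univ, Fintype.card_fin, mul_pow, ← Real.exp_nat_mul]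
          congr 2
          ring
  have h4 : ((univ : Finset (Fin n → T)).card : ℝ) ≤
      ∑ z, ((Fintype.piFinset fun i => (G z i)ᶜ).card : ℝ) := by
    exact_mod_cast (card_le_card h1).trans card_biUnion_le
  have h5 := h4.trans (sum_le_sum fun z _ => h3 z)
  rw [sum_const, card_univ, card_univ, Fintype.card_fun, Fintype.card_fin, nsmul_eq_mul] at h5
  push_cast at h5
  have h6 : (0 : ℝ) < (Fintype.card T : ℝ) ^ n := pow_pos hQ n
  nlinarith

end Patx

theorem pat : PatStmt := by
  intro n v m N hm hN hn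
  have : Nonempty (Fin m) := ⟨⟨0, hm⟩⟩
  have hm' : (1 : ℝ) ≤ m := by exact_mod_cast hm
  have hm0 : (0 : ℝ) < m := by linarith
  obtain ⟨f, hf⟩ := Patx.exists_good (T := (Fin v → Fin m) × (Fin v → Fin m)) (n := n)
    (fun z i => cyl univ (N i) z.1 ×ˢ cyl univ (N i) z.2) (1 / (m : ℝ) ^ 24) (fun z i => by
      have h1 := Patx.cyl_ge hm (N i) (hN i) z.1
      have h2 := Patx.cyl_ge hm (N i) (hN i) z.2
      have h3 := mul_le_mul h1 h2 (Nat.cast_nonneg _) (by positivity)
      rw [card_product, Fintype.card_prod, one_div, inv_mul_le_iff₀ (by positivity)]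
      push_cast
      refine h3.trans (le_of_eq ?_)
      ring) (by
      have h1 : (Fintype.card ((Fin v → Fin m) × (Fin v → Fin m)) : ℝ) = (m : ℝ) ^ (2 * v) := by
        rw [Fintype.card_prod, Fintype.card_fun, Fintype.card_fin, Fintype.card_fin]
        push_cast
        ring
      have h2 : (m : ℝ) ^ (2 * v) ≤ Real.exp (2 * v * m) := by
        have : (m : ℝ) ≤ Real.exp m := by linarith [Real.add_one_le_exp (m : ℝ)]
        calc (m : ℝ) ^ (2 * v) ≤ Real.exp m ^ (2 * v) := pow_le_pow_left₀ hm0.le this _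
          _ = _ := by rw [← Real.exp_nat_mul]; push_cast; rfl
      have h3 : (2 * v * m : ℝ) < 1 / (m : ℝ) ^ 24 * n := by
        rw [one_div, lt_inv_mul_iff₀ (by positivity)]
        have : (2 * v * (m : ℝ) ^ 25) < n := by exact_mod_cast hn
        refine lt_of_le_of_lt (le_of_eq ?_) this
        ring
      rw [h1]
      calc (m : ℝ) ^ (2 * v) * Real.exp (-(1 / (m : ℝ) ^ 24 * n))
          ≤ Real.exp (2 * v * m) * Real.exp (-(1 / (m : ℝ) ^ 24 * n)) :=
            mul_le_mul_of_nonneg_right h2 (Real.exp_pos _).le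
        _ = Real.exp (2 * v * m - 1 / (m : ℝ) ^ 24 * n) := by rw [← Real.exp_add]; rfl
        _ < 1 := (Real.exp_lt_exp.2 (by linarith)).trans_eq Real.exp_zero)
  refine ⟨fun i => (f i).1, fun i => (f i).2, fun x y => ?_⟩
  obtain ⟨i, hi⟩ := hf (x, y)
  obtain ⟨h1, h2⟩ := mem_product.1 hi
  exact ⟨i, fun u hu => ((mem_cyl.1 h1).2 u hu).symm, fun u hu => ((mem_cyl.1 h2).2 u hu).symm⟩

end Pool.Agent.MP_6b3410_lc.H91
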